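import Mathlib

/-!
# Worms and worm covers

The same definitions as in `Pool.Agent.Worm59.Arc`.
-/

set_option autoImplicit false

namespace Pool.Agent.Worm78

open MeasureTheory

/-- a worm: the image of the unit interval under a `1`-Lipschitz map to the Euclidean plane -/
def IsWorm (w : Set (EuclideanSpace ℝ (Fin 2))) : Prop :=
  ∃ f : unitInterval → EuclideanSpace ℝ (Fin 2), LipschitzWith 1 f ∧ w = Set.range f

/-- a worm cover: a Lebesgue measurable set which contains, up to a rotation of the set about the
origin followed by a translation, every worm -/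
def IsWormCover (X : Set (EuclideanSpace ℝ (Fin 2))) : Prop :=
  NullMeasurableSet X volume ∧ ∀ w : Set (EuclideanSpace ℝ (Fin 2)), IsWorm w →
    ∃ ρ ∈ Matrix.specialOrthogonalGroup (Fin 2) ℝ, ∃ v : EuclideanSpace ℝ (Fin 2),
      w ⊆ (fun x => Matrix.toEuclideanLin ρ x + v) '' X

/-- the infimum of the areas of the convex worm covers -/
noncomputable def leastArea : ENNReal :=
  sInf {a | ∃ X : Set (EuclideanSpace ℝ (Fin 2)), Convex ℝ X ∧ IsWormCover X ∧ a = volume X}

end Pool.Agent.Worm78
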