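import Pool.Agent.Worm78.Trig
import Pool.Agent.Worm78.Defs

/-!
# The quadrilateral: convexity and area
-/

set_option autoImplicit false

namespace Pool.Agent.Worm78

open MeasureTheory

/-- the quadrilateral in the Euclidean plane -/
def KE : Set (EuclideanSpace ℝ (Fin 2)) := {p | (⟨p 0, p 1⟩ : ℂ) ∈ K}

private lemma geoa_mem (p : EuclideanSpace ℝ (Fin 2)) : p ∈ KE ↔
    0 ≤ p 1 ∧ (dir 730).re * p 0 + (dir 730).im * p 1 ≤ 0 ∧
      (dir 263).re * p 0 + (dir 263).im * p 1 ≤ H 0 ∧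
      (dir 386).re * p 0 + (dir 386).im * p 1 ≤ H 1 := Iff.rfl

private lemma geoa_comb {x y x' y' a b u v h : ℝ} (ha : 0 ≤ a) (hb : 0 ≤ b) (hab : a + b = 1)
    (h1 : u * x + v * y ≤ h) (h2 : u * x' + v * y' ≤ h) :
    u * (a * x + b * x') + v * (a * y + b * y') ≤ h := by
  have h3 := mul_le_mul_of_nonneg_left h1 ha
  have h4 := mul_le_mul_of_nonneg_left h2 hb
  have h5 : a * h + b * h = h := by rw [← add_mul, hab, one_mul]
  nlinarith

theorem KE_convex : Convex ℝ KE := by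
  intro p hp q hq a b ha hb hab
  rw [geoa_mem] at hp hq ⊢
  have e0 : (a • p + b • q) 0 = a * p 0 + b * q 0 := by simp
  have e1 : (a • p + b • q) 1 = a * p 1 + b * q 1 := by simp
  rw [e0, e1]
  refine ⟨?_, geoa_comb ha hb hab hp.2.1 hq.2.1, geoa_comb ha hb hab hp.2.2.1 hq.2.2.1,
    geoa_comb ha hb hab hp.2.2.2 hq.2.2.2⟩
  exact add_nonneg (mul_nonneg ha hp.1) (mul_nonneg hb hq.1)

private lemma geoa_closed : IsClosed KE := by
  have h0 : Continuous fun p : EuclideanSpace ℝ (Fin 2) => p 0 := by fun_prop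
  have h1 : Continuous fun p : EuclideanSpace ℝ (Fin 2) => p 1 := by fun_prop
  have e : KE = {p : EuclideanSpace ℝ (Fin 2) | 0 ≤ p 1} ∩
      ({p | (dir 730).re * p 0 + (dir 730).im * p 1 ≤ 0} ∩
      ({p | (dir 263).re * p 0 + (dir 263).im * p 1 ≤ H 0} ∩
      {p | (dir 386).re * p 0 + (dir 386).im * p 1 ≤ H 1})) := by
    ext p
    exact geoa_mem p
  rw [e]
  refine (isClosed_le continuous_const h1).inter ((isClosed_le ?_ continuous_const).inter
    ((isClosed_le ?_ continuous_const).inter (isClosed_le ?_ continuous_const)))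
  all_goals exact (continuous_const.mul h0).add (continuous_const.mul h1)

theorem KE_meas : MeasurableSet KE := geoa_closed.measurableSet

/-- the set in coordinates -/
private def geoa_crd (X : Set (EuclideanSpace ℝ (Fin 2))) : Set (ℝ × ℝ) :=
  {q | !₂[q.1, q.2] ∈ X}

private lemma geoa_crd_volume (X : Set (EuclideanSpace ℝ (Fin 2))) :
    volume (geoa_crd X) = volume X := by
  have h1 : MeasurePreserving (MeasurableEquiv.toLp 2 (Fin 2 → ℝ)).symm volume volume :=
    PiLp.volume_preserving_ofLp (Fin 2)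
  have h2 := (volume_preserving_finTwoArrow ℝ)
  have h3 := h2.comp h1
  rw [← (h3.measure_preimage_equiv (f := (MeasurableEquiv.toLp 2 (Fin 2 → ℝ)).symm.trans
    MeasurableEquiv.finTwoArrow) (geoa_crd X))]
  congr 1
  ext p
  have h4 : (!₂[p 0, p 1] : EuclideanSpace ℝ (Fin 2)) = p := by
    ext i
    fin_cases i <;> rfl
  show !₂[p 0, p 1] ∈ X ↔ p ∈ X
  rw [h4]

/-- a trapezoid -/
private def geoa_trap (s t a p b : ℝ) : Set (ℝ × ℝ) :=
  {q | (s ≤ q.2 ∧ q.2 ≤ t) ∧ a * q.2 ≤ q.1 ∧ q.1 ≤ p - b * q.2}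

private lemma geoa_trap_closed (s t a p b : ℝ) : IsClosed (geoa_trap s t a p b) := by
  have e : geoa_trap s t a p b = ({q : ℝ × ℝ | s ≤ q.2} ∩ {q | q.2 ≤ t}) ∩
      ({q | a * q.2 ≤ q.1} ∩ {q | q.1 ≤ p - b * q.2}) := rfl
  rw [e]
  refine ((isClosed_le ?_ ?_).inter (isClosed_le ?_ ?_)).inter
    ((isClosed_le ?_ ?_).inter (isClosed_le ?_ ?_))
  all_goals fun_prop

private lemma geoa_trap_volume {s t a p b : ℝ} (hst : s ≤ t) (hpos : 0 ≤ p - b * t - a * t)
    (hab : 0 ≤ a + b) :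
    volume (geoa_trap s t a p b) ≤
      ENNReal.ofReal (p * (t - s) - (a + b) * (t ^ 2 - s ^ 2) / 2) := by
  rw [Measure.volume_eq_prod, Measure.prod_apply_symm (geoa_trap_closed s t a p b).measurableSet]
  have h1 : ∀ y : ℝ, volume ((fun x : ℝ => (x, y)) ⁻¹' geoa_trap s t a p b) ≤
      (Set.Icc s t).indicator (fun y => ENNReal.ofReal (p - (a + b) * y)) y := by
    intro y
    by_cases hy : y ∈ Set.Icc s t
    · rw [Set.indicator_of_mem hy]
      have h2 : ((fun x : ℝ => (x, y)) ⁻¹' geoa_trap s t a p b) ⊆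
          Set.Icc (a * y) (p - b * y) := by
        intro x hx
        exact hx.2
      refine (measure_mono h2).trans ?_
      rw [Real.volume_Icc]
      apply ENNReal.ofReal_le_ofReal
      linarith
    · rw [Set.indicator_of_notMem hy]
      have h2 : ((fun x : ℝ => (x, y)) ⁻¹' geoa_trap s t a p b) = ∅ := by
        ext x
        simp only [Set.mem_preimage, Set.mem_empty_iff_false, iff_false]
        intro hx
        exact hy hx.1
      rw [h2]; simp
  refine (lintegral_mono h1).trans ?_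
  rw [lintegral_indicator measurableSet_Icc]
  have hint : IntegrableOn (fun y : ℝ => p - (a + b) * y) (Set.Icc s t) volume := by
    apply ContinuousOn.integrableOn_Icc
    fun_prop
  rw [← ofReal_integral_eq_lintegral_ofReal hint]
  · apply ENNReal.ofReal_le_ofReal
    rw [integral_Icc_eq_integral_Ioc, ← intervalIntegral.integral_of_le hst]
    have h3 : ∫ y in s..t, (p - (a + b) * y) = p * (t - s) - (a + b) * (t ^ 2 - s ^ 2) / 2 := by
      rw [intervalIntegral.integral_sub (Continuous.intervalIntegrable (by fun_prop) _ _)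
        (Continuous.intervalIntegrable (by fun_prop) _ _)]
      rw [intervalIntegral.integral_const_mul, integral_id, intervalIntegral.integral_const]
      simp only [smul_eq_mul]
      ring
    exact h3.le
  · rw [Filter.EventuallyLE, ae_restrict_iff' measurableSet_Icc]
    refine Filter.Eventually.of_forall ?_
    intro y hy
    show (0 : ℝ) ≤ p - (a + b) * y
    have := mul_le_mul_of_nonneg_left hy.2 hab
    nlinarith

private lemma geoa_g1 {c s a x y : ℝ} (hc : 0 < c) (hca : c * a ≤ s) (hy : 0 ≤ y)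
    (h : -c * x + s * y ≤ 0) : a * y ≤ x := by
  have h1 := mul_le_mul_of_nonneg_right hca hy
  by_contra hcon
  push Not at hcon
  have h2 := mul_lt_mul_of_pos_left hcon hc
  nlinarith

private lemma geoa_g2 {c s A b u x y : ℝ} (hc : 0 < c) (hA : 1 ≤ c * A) (hb : c * b ≤ s)
    (hu : 0 ≤ u) (hy : 0 ≤ y) (h : c * x + s * y ≤ u) : x ≤ u * A - b * y := by
  have h1 := mul_le_mul_of_nonneg_right hb hy
  have h3 := mul_le_mul_of_nonneg_right hA hu
  by_contra hcon
  push Not at hcon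
  have h2 := mul_lt_mul_of_pos_left hcon hc
  nlinarith

/-- the numbers of the enclosing polygon: its left side is `x = a y`, its upper sides are
`x = p - b y` and `x = p' - b' y`, it is cut at the heights `s` and `t` -/
private lemma geoa_numbers : ∃ a p b p' b' s t : ℝ,
    (∀ x y : ℝ, 0 ≤ y → (dir 730).re * x + (dir 730).im * y ≤ 0 → a * y ≤ x) ∧
    (∀ x y : ℝ, 0 ≤ y → (dir 263).re * x + (dir 263).im * y ≤ H 0 → x ≤ p - b * y) ∧
    (∀ x y : ℝ, 0 ≤ y → (dir 386).re * x + (dir 386).im * y ≤ H 1 → x ≤ p' - b' * y) ∧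
    0 ≤ s ∧ s ≤ t ∧ 0 ≤ a + b ∧ 0 < a + b' ∧ p' = (a + b') * t ∧ 0 ≤ p - b * s - a * s ∧
    (p * (s - 0) - (a + b) * (s ^ 2 - 0 ^ 2) / 2) +
      (p' * (t - s) - (a + b') * (t ^ 2 - s ^ 2) / 2) ≤ 2556 / 10000 := by
  have h1 := dir_730
  have h2 := dir_263
  have h3 := dir_386
  obtain ⟨⟨u1, u2⟩, ⟨u3, u4⟩⟩ := And.intro (abs_le.1 h1.1) (abs_le.1 h1.2)
  obtain ⟨⟨v1, v2⟩, ⟨v3, v4⟩⟩ := And.intro (abs_le.1 h2.1) (abs_le.1 h2.2)
  obtain ⟨⟨w1, w2⟩, ⟨w3, w4⟩⟩ := And.intro (abs_le.1 h3.1) (abs_le.1 h3.2)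
  refine ⟨1.0928515, H 0 * 1.4864775, 1.099825, H 1 * 2.9294695, 2.7535052, 0.38489,
    H 1 * 2.9294695 / (1.0928515 + 2.7535052), ?_, ?_, ?_, ?_, ?_, ?_, ?_, ?_, ?_, ?_⟩
  · intro x y hy h
    refine geoa_g1 (c := -(dir 730).re) (s := (dir 730).im) ?_ ?_ hy (by rw [neg_neg]; exact h)
    · norm_num at u2 ⊢; linarith
    · norm_num at u1 u3 ⊢; linarith
  · intro x y hy h
    refine geoa_g2 (c := (dir 263).re) (s := (dir 263).im) ?_ ?_ ?_ ?_ hy h
    · norm_num at v1 ⊢; linarith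
    · norm_num at v1 ⊢; linarith
    · norm_num at v2 v3 ⊢; linarith
    · norm_num [H]
  · intro x y hy h
    refine geoa_g2 (c := (dir 386).re) (s := (dir 386).im) ?_ ?_ ?_ ?_ hy h
    · norm_num at w1 ⊢; linarith
    · norm_num at w1 ⊢; linarith
    · norm_num at w2 w3 ⊢; linarith
    · norm_num [H]
  all_goals norm_num [H]

theorem KE_area : volume KE ≤ ENNReal.ofReal (2556 / 10000) := by
  obtain ⟨a, p, b, p', b', s, t, ha, hb, hb', hs, hst, hab, hab', hp', hpos, harea⟩ := geoa_numbers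
  rw [← geoa_crd_volume]
  have hsub : geoa_crd KE ⊆ geoa_trap 0 s a p b ∪ geoa_trap s t a p' b' := by
    intro q hq
    have hq' : !₂[q.1, q.2] ∈ KE := hq
    rw [geoa_mem] at hq'
    have e0 : (!₂[q.1, q.2] : EuclideanSpace ℝ (Fin 2)) 0 = q.1 := rfl
    have e1 : (!₂[q.1, q.2] : EuclideanSpace ℝ (Fin 2)) 1 = q.2 := rfl
    rw [e0, e1] at hq'
    obtain ⟨q0, q1, q2, q3⟩ := hq'
    have g1 := ha _ _ q0 q1
    have g2 := hb _ _ q0 q2
    have g3 := hb' _ _ q0 q3
    have g4 : q.2 ≤ t := by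
      by_contra hcon
      push Not at hcon
      have := mul_lt_mul_of_pos_left hcon hab'
      nlinarith
    rcases le_total q.2 s with h | h
    · exact Or.inl ⟨⟨q0, h⟩, g1, g2⟩
    · exact Or.inr ⟨⟨h, g4⟩, g1, g3⟩
  refine (measure_mono hsub).trans ((measure_union_le _ _).trans ?_)
  refine (add_le_add (geoa_trap_volume hs hpos hab)
    (geoa_trap_volume hst (by nlinarith) hab'.le)).trans ?_
  rw [← ENNReal.ofReal_add]
  · exact ENNReal.ofReal_le_ofReal harea
  · nlinarith [mul_nonneg hs hab, mul_nonneg hs hpos]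
  · have : p' * (t - s) - (a + b') * (t ^ 2 - s ^ 2) / 2 = (a + b') * (t - s) ^ 2 / 2 := by
      rw [hp']; ring
    rw [this]; positivity

end Pool.Agent.Worm78
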