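import Pool.Agent.Worm78.Trig

/-!
# The three linear inequalities of the quadrilateral
-/

set_option autoImplicit false

namespace Pool.Agent.Worm78

/-! ### auxiliary facts -/

lemma re_1488 : (dir 1488).re = 0 := by rw [dir_1488]; simp

lemma im_1488 : (dir 1488).im = -1 := by rw [dir_1488]; simp

lemma cr_1488 (c : ℕ) : cr 1488 c = (dir c).re := by
  unfold cr; rw [re_1488, im_1488]; ring

lemma cr_730_1488 : cr 730 1488 = -(dir 730).re := by
  unfold cr; rw [re_1488, im_1488]; ring

lemma H_zero : H 0 = 71911 / 100000 := by unfold H; norm_num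

lemma H_one : H 1 = 58216 / 100000 := by unfold H; norm_num

lemma H_two : H 2 = 64610 / 100000 := by unfold H; norm_num

lemma H_pos {τ : ℕ} (hτ : τ < 3) : 0 < H τ := by
  interval_cases τ
  · rw [H_zero]; norm_num
  · rw [H_one]; norm_num
  · rw [H_two]; norm_num

lemma cdir_zero : cdir 0 = 263 := by unfold cdir; norm_num

lemma cdir_one : cdir 1 = 386 := by unfold cdir; norm_num

lemma cdir_two : cdir 2 = 291 := by unfold cdir; norm_num

lemma x263 : (0.672731380 : ℝ) ≤ (dir 263).re ∧ (dir 263).re ≤ 0.672731384 := by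
  have h := (abs_le.1 dir_263.1)
  constructor <;> linarith [h.1, h.2]

lemma y263 : (0.739886805 : ℝ) ≤ (dir 263).im ∧ (dir 263).im ≤ 0.739886809 := by
  have h := (abs_le.1 dir_263.2)
  constructor <;> linarith [h.1, h.2]

lemma x386 : (0.341358737 : ℝ) ≤ (dir 386).re ∧ (dir 386).re ≤ 0.341358741 := by
  have h := (abs_le.1 dir_386.1)
  constructor <;> linarith [h.1, h.2]

lemma y386 : (0.939933087 : ℝ) ≤ (dir 386).im ∧ (dir 386).im ≤ 0.939933091 := by
  have h := (abs_le.1 dir_386.2)
  constructor <;> linarith [h.1, h.2]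

lemma x291 : (0.604565478 : ℝ) ≤ (dir 291).re ∧ (dir 291).re ≤ 0.604565482 := by
  have h := (abs_le.1 dir_291.1)
  constructor <;> linarith [h.1, h.2]

lemma y291 : (0.796555445 : ℝ) ≤ (dir 291).im ∧ (dir 291).im ≤ 0.796555449 := by
  have h := (abs_le.1 dir_291.2)
  constructor <;> linarith [h.1, h.2]

lemma x730 : (0.675071171 : ℝ) ≤ -(dir 730).re ∧ -(dir 730).re ≤ 0.675071175 := by
  have h := (abs_le.1 dir_730.1)
  constructor <;> linarith [h.1, h.2]

lemma y730 : (0.737752607 : ℝ) ≤ (dir 730).im ∧ (dir 730).im ≤ 0.737752611 := by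
  have h := (abs_le.1 dir_730.2)
  constructor <;> linarith [h.1, h.2]

lemma xc_pos {τ : ℕ} (hτ : τ < 3) : 0 < (dir (cdir τ)).re := by
  interval_cases τ
  · rw [cdir_zero]; linarith [x263.1]
  · rw [cdir_one]; linarith [x386.1]
  · rw [cdir_two]; linarith [x291.1]

lemma yc_pos {τ : ℕ} (hτ : τ < 3) : 0 < (dir (cdir τ)).im := by
  interval_cases τ
  · rw [cdir_zero]; linarith [y263.1]
  · rw [cdir_one]; linarith [y386.1]
  · rw [cdir_two]; linarith [y291.1]

lemma w_pos : 0 < -(dir 730).re := by linarith [x730.1]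

lemma v_pos : 0 < (dir 730).im := by linarith [y730.1]

lemma L0_n_zero (τ : ℕ) : L0.n τ 0 = cdir τ := by unfold L0; norm_num

lemma L0_n_one (τ : ℕ) : L0.n τ 1 = 730 := by unfold L0; norm_num

lemma L0_n_two (τ : ℕ) : L0.n τ 2 = 1488 := by unfold L0; norm_num

lemma L0_lam_zero (τ : ℕ) : L0.lam τ 0 = 1 / H τ := by unfold L0; norm_num

lemma L0_lam_one (τ : ℕ) : L0.lam τ 1 = (dir (cdir τ)).re / (H τ * -(dir 730).re) := by
  unfold L0; norm_num; rw [cr_1488, cr_730_1488]; ring

lemma L0_lam_two (τ : ℕ) : L0.lam τ 2 =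
    ((dir (cdir τ)).re * (dir 730).im + (dir (cdir τ)).im * -(dir 730).re) /
      (H τ * -(dir 730).re) := by
  unfold L0; norm_num; rw [cr_730_1488]; unfold cr; ring

/-- the relation between the three directions of a triangle -/
lemma rel {τ : ℕ} (hτ : τ < 3) :
    (L0.lam τ 0 * (dir (cdir τ)).re + L0.lam τ 1 * (dir 730).re + L0.lam τ 2 * (dir 1488).re = 0) ∧
    (L0.lam τ 0 * (dir (cdir τ)).im + L0.lam τ 1 * (dir 730).im +
      L0.lam τ 2 * (dir 1488).im = 0) := by
  have hH := (H_pos hτ).ne'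
  have hw := w_pos.ne'
  have hw' : (dir 730).re ≠ 0 := by intro h; rw [h] at hw; simp at hw
  rw [L0_lam_zero, L0_lam_one, L0_lam_two, re_1488, im_1488]
  constructor <;> field_simp <;> ring

theorem L0_zero {τ : ℕ} (hτ : τ < 3) :
    ∑ q ∈ Finset.range 3, ((L0.lam τ q : ℝ) : ℂ) * dir (L0.n τ q) = 0 := by
  have h := rel hτ
  simp only [Finset.sum_range_succ, Finset.sum_range_zero, zero_add, L0_n_zero, L0_n_one,
    L0_n_two]
  apply Complex.ext
  · simpa using h.1
  · simpa using h.2

theorem L0_pos {τ q : ℕ} (hτ : τ < 3) (hq : q < 3) : 0 < L0.lam τ q := by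
  have hH := H_pos hτ
  have hx := xc_pos hτ
  have hy := yc_pos hτ
  have hw := w_pos
  have hv := v_pos
  interval_cases q
  · rw [L0_lam_zero]; positivity
  · rw [L0_lam_one]; exact div_pos hx (mul_pos hH hw)
  · rw [L0_lam_two]
    exact div_pos (add_pos (mul_pos hx hv) (mul_pos hy hw)) (mul_pos hH hw)

theorem L0_n_lt (τ q : ℕ) : L0.n τ q < NN := by
  unfold L0 NN cdir
  dsimp only
  split_ifs <;> norm_num

/-- the inner product with a sum of multiples of directions -/
lemma ip_dir_add (a b : ℝ) (u v z : ℂ) :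
    ip ((a : ℂ) * u + (b : ℂ) * v) z = a * ip u z + b * ip v z := by
  unfold ip; simp; ring

lemma ip_mul (a : ℝ) (u z : ℂ) : ip ((a : ℂ) * u) z = a * ip u z := by
  unfold ip; simp; ring

lemma dir_shift {θ k : ℕ} : dir ((θ + k) % NN) = dir θ * dir k := by
  rw [dir_mod, dir_add]

/-- support values: if a direction is a combination of two others with nonnegative coefficients
then so for the support values -/
lemma supp_comb {P : ℕ → ℂ} (hs : ∀ i < NN, ∀ j < NN, ip (dir i) (P j) ≤ ip (dir i) (P i))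
    {θ i j k : ℕ} {a b : ℝ} (ha : 0 ≤ a) (hb : 0 ≤ b)
    (h : dir i = (a : ℂ) * dir j + (b : ℂ) * dir k) :
    ip (dir ((θ + i) % NN)) (P ((θ + i) % NN)) ≤
      a * ip (dir ((θ + j) % NN)) (P ((θ + j) % NN)) +
      b * ip (dir ((θ + k) % NN)) (P ((θ + k) % NN)) := by
  have hN : 0 < NN := by unfold NN; norm_num
  have h1 : dir ((θ + i) % NN) = (a : ℂ) * dir ((θ + j) % NN) + (b : ℂ) * dir ((θ + k) % NN) := by
    rw [dir_shift, dir_shift, dir_shift, h]; ring
  rw [h1, ip_dir_add]
  have e1 := hs ((θ + j) % NN) (Nat.mod_lt _ hN) ((θ + i) % NN) (Nat.mod_lt _ hN)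
  have e2 := hs ((θ + k) % NN) (Nat.mod_lt _ hN) ((θ + i) % NN) (Nat.mod_lt _ hN)
  exact add_le_add (mul_le_mul_of_nonneg_left e1 ha) (mul_le_mul_of_nonneg_left e2 hb)

lemma Phi_eq (τ θ : ℕ) (P : ℕ → ℂ) : Phi L0 τ θ P =
    L0.lam τ 0 * ip (dir ((θ + cdir τ) % NN)) (P ((θ + cdir τ) % NN)) +
    L0.lam τ 1 * ip (dir ((θ + 730) % NN)) (P ((θ + 730) % NN)) +
    L0.lam τ 2 * ip (dir ((θ + 1488) % NN)) (P ((θ + 1488) % NN)) := by
  unfold Phi
  simp only [Finset.sum_range_succ, Finset.sum_range_zero, zero_add, L0_n_zero, L0_n_one,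
    L0_n_two]

lemma Phi_nonneg {P : ℕ → ℂ} (hs : ∀ i < NN, ∀ j < NN, ip (dir i) (P j) ≤ ip (dir i) (P i))
    {τ θ : ℕ} (hτ : τ < 3) : 0 ≤ Phi L0 τ θ P := by
  have hN : 0 < NN := by unfold NN; norm_num
  rw [Phi_eq]
  have e0 := hs ((θ + cdir τ) % NN) (Nat.mod_lt _ hN) 0 hN
  have e1 := hs ((θ + 730) % NN) (Nat.mod_lt _ hN) 0 hN
  have e2 := hs ((θ + 1488) % NN) (Nat.mod_lt _ hN) 0 hN
  have p0 := L0_pos hτ (q := 0) (by norm_num)
  have p1 := L0_pos hτ (q := 1) (by norm_num)
  have p2 := L0_pos hτ (q := 2) (by norm_num)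
  have h : L0.lam τ 0 * ip (dir ((θ + cdir τ) % NN)) (P 0) +
      L0.lam τ 1 * ip (dir ((θ + 730) % NN)) (P 0) +
      L0.lam τ 2 * ip (dir ((θ + 1488) % NN)) (P 0) = 0 := by
    have h1 := rel hτ
    rw [dir_shift, dir_shift, dir_shift]
    unfold ip
    simp only [Complex.mul_re, Complex.mul_im]
    linear_combination ((dir θ).re * (P 0).re + (dir θ).im * (P 0).im) * h1.1 +
      ((dir θ).re * (P 0).im - (dir θ).im * (P 0).re) * h1.2
  linarith [mul_le_mul_of_nonneg_left e0 p0.le, mul_le_mul_of_nonneg_left e1 p1.le,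
    mul_le_mul_of_nonneg_left e2 p2.le]

/-- the first triangle against the free triangle -/
lemma fac_zero : (dir 263).re * H 2 ≤ H 0 * (dir 291).re := by
  rw [H_zero, H_two]
  linarith [x263.2, x291.1]

/-- the second triangle against the free triangle -/
lemma fac_one : ((dir 386).re * (dir 730).im + (dir 386).im * -(dir 730).re) * H 2 ≤
    H 1 * ((dir 291).re * (dir 730).im + (dir 291).im * -(dir 730).re) := by
  have e1 : (dir 386).re * (dir 730).im ≤ 0.341358741 * 0.737752611 :=
    mul_le_mul x386.2 y730.2 v_pos.le (by norm_num)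
  have e2 : (dir 386).im * -(dir 730).re ≤ 0.939933091 * 0.675071175 :=
    mul_le_mul y386.2 x730.2 w_pos.le (by norm_num)
  have e3 : (0.604565478 * 0.737752607 : ℝ) ≤ (dir 291).re * (dir 730).im :=
    mul_le_mul x291.1 y730.1 (by norm_num) (by linarith [x291.1])
  have e4 : (0.796555445 * 0.675071171 : ℝ) ≤ (dir 291).im * -(dir 730).re :=
    mul_le_mul y291.1 x730.1 (by norm_num) (by linarith [y291.1])
  rw [H_one, H_two]
  norm_num at e1 e2 e3 e4 ⊢
  linarith

/-- the triangle `2` is contained in the triangles `0` and `1` -/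
theorem free_ge {P : ℕ → ℂ} (hs : ∀ i < NN, ∀ j < NN, ip (dir i) (P j) ≤ ip (dir i) (P i))
    {θ : ℕ} (hθ : θ < NN) : Phi L0 0 θ P ≤ Phi L0 2 θ P ∧ Phi L0 1 θ P ≤ Phi L0 2 θ P := by
  have hx2 : 0 < (dir 291).re := by have := xc_pos (τ := 2) (by norm_num); rwa [cdir_two] at this
  have hx1 : 0 < (dir 386).re := by have := xc_pos (τ := 1) (by norm_num); rwa [cdir_one] at this
  have hx0 : 0 < (dir 263).re := by have := xc_pos (τ := 0) (by norm_num); rwa [cdir_zero] at this
  have hy2 : 0 < (dir 291).im := by have := yc_pos (τ := 2) (by norm_num); rwa [cdir_two] at this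
  have hy1 : 0 < (dir 386).im := by have := yc_pos (τ := 1) (by norm_num); rwa [cdir_one] at this
  have hH0 := H_pos (τ := 0) (by norm_num)
  have hH1 := H_pos (τ := 1) (by norm_num)
  have hH2 := H_pos (τ := 2) (by norm_num)
  have hw := w_pos
  have hv := v_pos
  have hP2 := Phi_nonneg hs (τ := 2) (θ := θ) (by norm_num)
  have hw0 : (dir 730).re ≠ 0 := by intro h; rw [h] at hw; simp at hw
  set h291 := ip (dir ((θ + 291) % NN)) (P ((θ + 291) % NN)) with hh291
  set h730 := ip (dir ((θ + 730) % NN)) (P ((θ + 730) % NN)) with hh730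
  set h1488 := ip (dir ((θ + 1488) % NN)) (P ((θ + 1488) % NN)) with hh1488
  have hPhi2 : Phi L0 2 θ P = 1 / H 2 * h291 + (dir 291).re / (H 2 * -(dir 730).re) * h730 +
      ((dir 291).re * (dir 730).im + (dir 291).im * -(dir 730).re) /
      (H 2 * -(dir 730).re) * h1488 := by
    rw [Phi_eq, L0_lam_zero, L0_lam_one, L0_lam_two, cdir_two]
  constructor
  · -- the first triangle
    set a : ℝ := (dir 263).re / (dir 291).re with ha
    set b : ℝ := ((dir 263).re * (dir 291).im - (dir 263).im * (dir 291).re) / (dir 291).re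
      with hb
    have hb0 : 0 ≤ b := by
      rw [hb]
      apply div_nonneg _ hx2.le
      have e1 : (0.672731380 * 0.796555445 : ℝ) ≤ (dir 263).re * (dir 291).im :=
        mul_le_mul x263.1 y291.1 (by norm_num) hx0.le
      have e2 : (dir 263).im * (dir 291).re ≤ 0.739886809 * 0.604565482 :=
        mul_le_mul y263.2 x291.2 hx2.le (by norm_num)
      norm_num at e1 e2 ⊢
      linarith
    have ha0 : 0 ≤ a := div_nonneg hx0.le hx2.le
    have hcomb : dir 263 = (a : ℂ) * dir 291 + (b : ℂ) * dir 1488 := by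
      apply Complex.ext
      · simp only [Complex.add_re, Complex.mul_re, Complex.ofReal_re, Complex.ofReal_im,
          re_1488]
        rw [ha]; field_simp; ring
      · simp only [Complex.add_im, Complex.mul_im, Complex.ofReal_re, Complex.ofReal_im,
          im_1488]
        rw [ha, hb]; field_simp; ring
    have hle := supp_comb (θ := θ) hs ha0 hb0 hcomb
    have hPhi : Phi L0 0 θ P = 1 / H 0 * ip (dir ((θ + 263) % NN)) (P ((θ + 263) % NN)) +
        (dir 263).re / (H 0 * -(dir 730).re) * h730 +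
        ((dir 263).re * (dir 730).im + (dir 263).im * -(dir 730).re) /
        (H 0 * -(dir 730).re) * h1488 := by
      rw [Phi_eq, L0_lam_zero, L0_lam_one, L0_lam_two, cdir_zero]
    have hkey : Phi L0 0 θ P ≤ a * H 2 / H 0 * Phi L0 2 θ P := by
      have h1 : Phi L0 0 θ P ≤ 1 / H 0 * (a * h291 + b * h1488) +
        (dir 263).re / (H 0 * -(dir 730).re) * h730 +
        ((dir 263).re * (dir 730).im + (dir 263).im * -(dir 730).re) /
        (H 0 * -(dir 730).re) * h1488 := by
        rw [hPhi]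
        have := mul_le_mul_of_nonneg_left hle (show (0 : ℝ) ≤ 1 / H 0 by positivity)
        linarith
      refine h1.trans (le_of_eq ?_)
      rw [hPhi2, ha, hb]
      have := hH0.ne'
      have := hH2.ne'
      field_simp
      ring
    refine hkey.trans ?_
    have hfac : a * H 2 / H 0 ≤ 1 := by
      rw [div_le_one hH0, ha, div_mul_eq_mul_div, div_le_iff₀ hx2]
      exact fac_zero
    calc a * H 2 / H 0 * Phi L0 2 θ P ≤ 1 * Phi L0 2 θ P := mul_le_mul_of_nonneg_right hfac hP2
      _ = Phi L0 2 θ P := one_mul _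
  · -- the second triangle
    set D : ℝ := (dir 291).re * (dir 730).im + (dir 291).im * -(dir 730).re with hD
    have hD0 : 0 < D := by rw [hD]; positivity
    set a : ℝ := ((dir 386).re * (dir 730).im + (dir 386).im * -(dir 730).re) / D with ha
    set b : ℝ := ((dir 291).re * (dir 386).im - (dir 291).im * (dir 386).re) / D with hb
    have hb0 : 0 ≤ b := by
      rw [hb]
      apply div_nonneg _ hD0.le
      have e1 : (0.604565478 * 0.939933087 : ℝ) ≤ (dir 291).re * (dir 386).im :=
        mul_le_mul x291.1 y386.1 (by norm_num) hx2.le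
      have e2 : (dir 291).im * (dir 386).re ≤ 0.796555449 * 0.341358741 :=
        mul_le_mul y291.2 x386.2 hx1.le (by norm_num)
      norm_num at e1 e2 ⊢
      linarith
    have ha0 : 0 ≤ a := div_nonneg (by positivity) hD0.le
    have hcomb : dir 386 = (a : ℂ) * dir 291 + (b : ℂ) * dir 730 := by
      have hDne := hD0.ne'
      apply Complex.ext
      · simp only [Complex.add_re, Complex.mul_re, Complex.ofReal_re, Complex.ofReal_im]
        rw [ha, hb]; field_simp; rw [hD]; ring
      · simp only [Complex.add_im, Complex.mul_im, Complex.ofReal_re, Complex.ofReal_im]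
        rw [ha, hb]; field_simp; rw [hD]; ring
    have hle := supp_comb (θ := θ) hs ha0 hb0 hcomb
    have hPhi : Phi L0 1 θ P = 1 / H 1 * ip (dir ((θ + 386) % NN)) (P ((θ + 386) % NN)) +
        (dir 386).re / (H 1 * -(dir 730).re) * h730 +
        ((dir 386).re * (dir 730).im + (dir 386).im * -(dir 730).re) /
        (H 1 * -(dir 730).re) * h1488 := by
      rw [Phi_eq, L0_lam_zero, L0_lam_one, L0_lam_two, cdir_one]
    have hkey : Phi L0 1 θ P ≤ a * H 2 / H 1 * Phi L0 2 θ P := by
      have h1 : Phi L0 1 θ P ≤ 1 / H 1 * (a * h291 + b * h730) +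
        (dir 386).re / (H 1 * -(dir 730).re) * h730 +
        ((dir 386).re * (dir 730).im + (dir 386).im * -(dir 730).re) /
        (H 1 * -(dir 730).re) * h1488 := by
        rw [hPhi]
        have := mul_le_mul_of_nonneg_left hle (show (0 : ℝ) ≤ 1 / H 1 by positivity)
        linarith
      refine h1.trans (le_of_eq ?_)
      rw [hPhi2, ha, hb]
      have := hH1.ne'
      have := hH2.ne'
      have := hD0.ne'
      field_simp
      rw [hD]
      ring
    refine hkey.trans ?_
    have hfac : a * H 2 / H 1 ≤ 1 := by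
      rw [div_le_one hH1, ha, div_mul_eq_mul_div, div_le_iff₀ hD0]
      exact fac_one
    calc a * H 2 / H 1 * Phi L0 2 θ P ≤ 1 * Phi L0 2 θ P := mul_le_mul_of_nonneg_right hfac hP2
      _ = Phi L0 2 θ P := one_mul _

/-- a set which fits into the triangles `0` and `1` fits into the quadrilateral -/
theorem fit {h : ℕ → ℝ} (w : Set ℂ)
    (hw : ∀ τ < 2, ∀ q < 3, ∀ z ∈ w, ip (dir (L0.n τ q)) z ≤ h (L0.n τ q))
    (hf : ∀ τ < 2, ∑ q ∈ Finset.range 3, L0.lam τ q * h (L0.n τ q) ≤ 1) :
    ∃ v : ℂ, ∀ z ∈ w, z + v ∈ K := by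
  have hwp := w_pos
  have hw0 : (dir 730).re ≠ 0 := by intro h; rw [h] at hwp; simp at hwp
  set v : ℂ := ⟨(-h 730 - (dir 730).im * h 1488) / (dir 730).re, h 1488⟩ with hv
  have hv1 : ip (dir 730) v = -h 730 := by
    unfold ip; rw [hv]; field_simp; ring
  have hv2 : ip (dir 1488) v = -h 1488 := by
    unfold ip; rw [hv, re_1488, im_1488]; ring
  have key : ∀ τ < 2, ip (dir (cdir τ)) v ≤ H τ - h (cdir τ) := by
    intro τ hτ
    have hτ3 : τ < 3 := by omega
    have hH := H_pos hτ3
    have hr := rel hτ3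
    have hs := hf τ hτ
    simp only [Finset.sum_range_succ, Finset.sum_range_zero, zero_add, L0_n_zero, L0_n_one,
      L0_n_two] at hs
    have e : L0.lam τ 0 * ip (dir (cdir τ)) v + L0.lam τ 1 * ip (dir 730) v +
        L0.lam τ 2 * ip (dir 1488) v = 0 := by
      unfold ip
      linear_combination v.re * hr.1 + v.im * hr.2
    rw [hv1, hv2] at e
    have e2 : L0.lam τ 0 * (ip (dir (cdir τ)) v + h (cdir τ)) ≤ 1 := by linarith
    rw [L0_lam_zero, one_div, inv_mul_le_iff₀ hH] at e2
    linarith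
  have ip_add : ∀ u z z' : ℂ, ip u (z + z') = ip u z + ip u z' := by
    intro u z z'; unfold ip; simp; ring
  refine ⟨v, fun z hz => ⟨?_, ?_, ?_, ?_⟩⟩
  · have h1 := hw 0 (by norm_num) 2 (by norm_num) z hz
    rw [L0_n_two] at h1
    have h2 : ip (dir 1488) (z + v) ≤ 0 := by rw [ip_add, hv2]; linarith
    unfold ip at h2
    rw [re_1488, im_1488] at h2
    linarith
  · have h1 := hw 0 (by norm_num) 1 (by norm_num) z hz
    rw [L0_n_one] at h1
    rw [ip_add, hv1]; linarith
  · have h1 := hw 0 (by norm_num) 0 (by norm_num) z hz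
    have h2 := key 0 (by norm_num)
    rw [L0_n_zero, cdir_zero] at h1
    rw [cdir_zero] at h2
    rw [ip_add]; linarith
  · have h1 := hw 1 (by norm_num) 0 (by norm_num) z hz
    have h2 := key 1 (by norm_num)
    rw [L0_n_zero, cdir_one] at h1
    rw [cdir_one] at h2
    rw [ip_add]; linarith

/-- the coefficients times `2 ^ 20`, up to an error of `1` -/
def lamhat (τ q : ℕ) : ℕ :=
  if τ = 0 then (if q = 0 then 1458158 else if q = 1 then 1453104 else 2150903)
  else if τ = 1 then (if q = 0 then 1801182 else if q = 1 then 910792 else 2364929)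
  else (if q = 0 then 1622931 else if q = 1 then 1453429 else 2365026)

/-- bounds for a quotient -/
lemma quot_close {A B M : ℝ} (hB : 0 < B) (h1 : (M - 1) * B ≤ 2 ^ 20 * A)
    (h2 : 2 ^ 20 * A ≤ (M + 1) * B) : |2 ^ 20 * (A / B) - M| ≤ 1 := by
  have e : (2 : ℝ) ^ 20 * (A / B) = 2 ^ 20 * A / B := by ring
  rw [abs_le, e]
  constructor
  · have : (M - 1) ≤ 2 ^ 20 * A / B := by rw [le_div_iff₀ hB]; exact h1
    linarith
  · have : 2 ^ 20 * A / B ≤ M + 1 := by rw [div_le_iff₀ hB]; exact h2
    linarith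

/-- bounds for a product -/
lemma prod_bounds {a b x y u v : ℝ} (ha : 0 ≤ a) (hx : 0 ≤ x) (h1 : a ≤ u ∧ u ≤ b)
    (h2 : x ≤ v ∧ v ≤ y) : a * x ≤ u * v ∧ u * v ≤ b * y :=
  ⟨mul_le_mul h1.1 h2.1 hx (ha.trans h1.1),
    mul_le_mul h1.2 h2.2 (hx.trans h2.1) (ha.trans (h1.1.trans h1.2))⟩

theorem lam_close {τ q : ℕ} (hτ : τ < 3) (hq : q < 3) :
    |2 ^ 20 * L0.lam τ q - lamhat τ q| ≤ 1 := by
  have hw := w_pos
  have w1 := x730
  interval_cases τ
  · have hH := H_pos (τ := 0) (by norm_num)
    interval_cases q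
    · rw [L0_lam_zero, H_zero]
      unfold lamhat
      norm_num [abs_le]
    · rw [L0_lam_one, cdir_zero]
      refine quot_close (mul_pos hH hw) ?_ ?_
      · rw [H_zero]; unfold lamhat; norm_num; linarith [x263.1]
      · rw [H_zero]; unfold lamhat; norm_num; linarith [x263.2]
    · rw [L0_lam_two, cdir_zero]
      have e1 := prod_bounds (by norm_num) (by norm_num) x263 y730
      have e2 := prod_bounds (by norm_num) (by norm_num) y263 x730
      norm_num at e1 e2
      refine quot_close (mul_pos hH hw) ?_ ?_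
      · rw [H_zero]; unfold lamhat; norm_num; linarith [e1.1, e2.1]
      · rw [H_zero]; unfold lamhat; norm_num; linarith [e1.2, e2.2]
  · have hH := H_pos (τ := 1) (by norm_num)
    interval_cases q
    · rw [L0_lam_zero, H_one]
      unfold lamhat
      norm_num [abs_le]
    · rw [L0_lam_one, cdir_one]
      refine quot_close (mul_pos hH hw) ?_ ?_
      · rw [H_one]; unfold lamhat; norm_num; linarith [x386.1]
      · rw [H_one]; unfold lamhat; norm_num; linarith [x386.2]
    · rw [L0_lam_two, cdir_one]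
      have e1 := prod_bounds (by norm_num) (by norm_num) x386 y730
      have e2 := prod_bounds (by norm_num) (by norm_num) y386 x730
      norm_num at e1 e2
      refine quot_close (mul_pos hH hw) ?_ ?_
      · rw [H_one]; unfold lamhat; norm_num; linarith [e1.1, e2.1]
      · rw [H_one]; unfold lamhat; norm_num; linarith [e1.2, e2.2]
  · have hH := H_pos (τ := 2) (by norm_num)
    interval_cases q
    · rw [L0_lam_zero, H_two]
      unfold lamhat
      norm_num [abs_le]
    · rw [L0_lam_one, cdir_two]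
      refine quot_close (mul_pos hH hw) ?_ ?_
      · rw [H_two]; unfold lamhat; norm_num; linarith [x291.1]
      · rw [H_two]; unfold lamhat; norm_num; linarith [x291.2]
    · rw [L0_lam_two, cdir_two]
      have e1 := prod_bounds (by norm_num) (by norm_num) x291 y730
      have e2 := prod_bounds (by norm_num) (by norm_num) y291 x730
      norm_num at e1 e2
      refine quot_close (mul_pos hH hw) ?_ ?_
      · rw [H_two]; unfold lamhat; norm_num; linarith [e1.1, e2.1]
      · rw [H_two]; unfold lamhat; norm_num; linarith [e1.2, e2.2]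

end Pool.Agent.Worm78
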