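import Pool.Agent.Worm78.Uncross
import Pool.Agent.Worm78.GeoL
import Pool.Agent.Worm78.GeoA

/-!
# The quadrilateral is a worm cover
-/

set_option autoImplicit false

namespace Pool.Agent.Worm78

open MeasureTheory

namespace GeoC

/-- turning by `dir k` -/
theorem ip_conj (a b z : ℂ) : ip a ((starRingEnd ℂ) b * z) = ip (a * b) z := by
  simp only [ip, Complex.mul_re, Complex.mul_im, Complex.conj_re, Complex.conj_im]
  ring

theorem ip_dir_conj (i k : ℕ) (z : ℂ) :
    ip (dir i) ((starRingEnd ℂ) (dir k) * z) = ip (dir (i + k)) z := by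
  rw [ip_conj, dir_add]

theorem dir_mul_conj (k : ℕ) : dir k * (starRingEnd ℂ) (dir k) = 1 := by
  rw [Complex.mul_conj, Complex.normSq_eq_norm_sq, norm_dir]
  norm_num

/-- the length of a path whose points are visited in the order of time -/
theorem plen_le (P : ℕ → ℂ) (t : ℕ → ℝ) (h1 : ∀ i, t i ≤ 1)
    (hP : ∀ i j, ‖P i - P j‖ ≤ |t i - t j|) (l : List ℕ) (a : ℕ)
    (hs : (a :: l).Pairwise (fun i j => t i ≤ t j)) : plen P (a :: l) ≤ 1 - t a := by
  induction l generalizing a with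
  | nil => simp only [plen]; linarith [h1 a]
  | cons b l ih =>
    rw [List.pairwise_cons] at hs
    have h2 := ih b hs.2
    have h3 : t a ≤ t b := hs.1 b (by simp)
    have h4 := hP a b
    rw [abs_of_nonpos (by linarith)] at h4
    simp only [plen]
    linarith

theorem exists_order (P : ℕ → ℂ) (t : ℕ → ℝ) (h0 : ∀ i, 0 ≤ t i) (h1 : ∀ i, t i ≤ 1)
    (hP : ∀ i j, ‖P i - P j‖ ≤ |t i - t j|) :
    ∃ ord : List ℕ, ord.Perm (List.range NN) ∧ plen P ord ≤ 1 := by
  classical
  refine ⟨(List.range NN).insertionSort (fun i j => t i ≤ t j), List.perm_insertionSort _ _, ?_⟩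
  have hsort : ((List.range NN).insertionSort (fun i j => t i ≤ t j)).Pairwise
      (fun i j => t i ≤ t j) := by
    have : Std.Total (fun i j : ℕ => t i ≤ t j) := ⟨fun i j => le_total (t i) (t j)⟩
    have : IsTrans ℕ (fun i j : ℕ => t i ≤ t j) := ⟨fun _ _ _ h h' => le_trans h h'⟩
    exact List.pairwise_insertionSort _ _
  cases hl : (List.range NN).insertionSort (fun i j => t i ≤ t j) with
  | nil => simp [plen]
  | cons a l =>
    rw [hl] at hsort
    have := plen_le P t h1 hP l a hsort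
    linarith [h0 a]

end GeoC

open GeoC in
/-- if a bad configuration is impossible, then the quadrilateral is a worm cover -/
theorem KE_cover (hno : ∀ (P : ℕ → ℂ) (ord : List ℕ) (s : ℝ) (t0 : ℕ), t0 < 2 →
    ¬ Bad L0 P ord s t0) : IsWormCover KE := by
  classical
  refine ⟨KE_meas.nullMeasurableSet, ?_⟩
  rintro w ⟨f, hf, rfl⟩
  by_contra hcon
  -- the worm in the complex plane
  set g : unitInterval → ℂ := fun t => ⟨f t 0, f t 1⟩ with hg
  have hdist : ∀ s t, ‖g s - g t‖ ≤ |(s : ℝ) - t| := by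
    intro s t
    have h1 := hf.dist_le_mul s t
    rw [NNReal.coe_one, one_mul, EuclideanSpace.dist_eq, Fin.sum_univ_two, Real.dist_eq,
      Real.dist_eq, sq_abs, sq_abs] at h1
    have h2 : ‖g s - g t‖ = √((f s 0 - f t 0) ^ 2 + (f s 1 - f t 1) ^ 2) := by
      rw [Complex.norm_eq_sqrt_sq_add_sq]
      simp [hg]
    rw [h2]
    refine h1.trans ?_
    rw [Subtype.dist_eq, Real.dist_eq]
  have hgc : Continuous g := by
    have : LipschitzWith 1 g := LipschitzWith.of_dist_le_mul (fun s t => by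
      rw [NNReal.coe_one, one_mul, dist_eq_norm, Subtype.dist_eq, Real.dist_eq]
      exact hdist s t)
    exact this.continuous
  -- the extreme points
  have hex : ∀ k : ℕ, ∃ t : unitInterval, ∀ s, ip (dir k) (g s) ≤ ip (dir k) (g t) := by
    intro k
    have hc : Continuous (fun s => ip (dir k) (g s)) := by
      unfold ip
      exact (continuous_const.mul (Complex.continuous_re.comp hgc)).add
        (continuous_const.mul (Complex.continuous_im.comp hgc))
    obtain ⟨t, -, ht⟩ := isCompact_univ.exists_isMaxOn Set.univ_nonempty hc.continuousOn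
    exact ⟨t, fun s => ht (Set.mem_univ s)⟩
  choose t₀ ht₀ using hex
  set P : ℕ → ℂ := fun k => g (t₀ (k % NN)) with hPdef
  have hPmod : ∀ k, P (k % NN) = P k := by
    intro k; simp only [hPdef, Nat.mod_mod]
  have hmax : ∀ k s, ip (dir k) (g s) ≤ ip (dir k) (P k) := by
    intro k s
    have := ht₀ (k % NN) s
    rwa [dir_mod] at this
  set h : ℕ → ℝ := fun k => ip (dir k) (P k) with hh
  have hhmod : ∀ k, h (k % NN) = h k := by
    intro k; simp only [hh, hPmod, dir_mod]
  -- the inequality for each rotation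
  have hPhi : ∀ τ θ : ℕ, Phi L0 τ θ P = ∑ q ∈ Finset.range 3, L0.lam τ q * h (θ + L0.n τ q) := by
    intro τ θ
    unfold Phi
    refine Finset.sum_congr rfl fun q _ => ?_
    rw [dir_mod, hPmod]
  have hrot : ∀ θ : ℕ, ∃ τ < 2, 1 < Phi L0 τ θ P := by
    intro θ
    by_contra hno'
    push Not at hno'
    obtain ⟨v, hv⟩ := fit (h := fun j => h (θ + j))
      (Set.range fun s => (starRingEnd ℂ) (dir θ) * g s) (by
        rintro τ - q - _ ⟨s, rfl⟩
        simp only [ip_dir_conj]
        rw [add_comm]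
        exact hmax _ s) (by
        intro τ hτ
        rw [← hPhi]
        exact hno' τ hτ)
    apply hcon
    have hn : (dir θ).re ^ 2 + (dir θ).im ^ 2 = 1 := by
      have h1 := norm_dir θ
      rw [Complex.norm_eq_sqrt_sq_add_sq, Real.sqrt_eq_one] at h1
      exact h1
    obtain ⟨A, hA⟩ : ∃ A : ℝ, A = (dir θ * v).re := ⟨_, rfl⟩
    obtain ⟨B, hB⟩ : ∃ B : ℝ, B = (dir θ * v).im := ⟨_, rfl⟩
    refine ⟨!![(dir θ).re, -(dir θ).im; (dir θ).im, (dir θ).re], ?_, !₂[-A, -B], ?_⟩
    · rw [Matrix.of_mem_specialOrthogonalGroup_fin_two_iff]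
      refine ⟨rfl, by ring, by simpa using hn⟩
    · rintro _ ⟨s, rfl⟩
      have h1 := hv _ ⟨s, rfl⟩
      obtain ⟨z, hz⟩ : ∃ z : ℂ, z = (starRingEnd ℂ) (dir θ) * g s + v := ⟨_, rfl⟩
      rw [← hz] at h1
      have h2 : dir θ * z = g s + dir θ * v := by
        rw [hz, mul_add, ← mul_assoc, dir_mul_conj, one_mul]
      refine ⟨!₂[z.re, z.im], ?_, ?_⟩
      · change (⟨_, _⟩ : ℂ) ∈ K
        simpa using h1
      · have h3 := congrArg Complex.re h2
        have h4 := congrArg Complex.im h2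
        rw [Complex.mul_re, Complex.add_re, ← hA] at h3
        rw [Complex.mul_im, Complex.add_im, ← hB] at h4
        simp only [hg] at h3 h4
        clear_value g
        ext i
        fin_cases i
        · simp only [Matrix.toEuclideanLin, Matrix.toLpLin]
          simp
          linarith
        · simp only [Matrix.toEuclideanLin, Matrix.toLpLin]
          simp
          linarith
  -- the best rotation
  obtain ⟨k0, hk0, hmin⟩ := Finset.exists_min_image (Finset.range NN)
    (fun θ => max (Phi L0 0 θ P) (Phi L0 1 θ P)) ⟨0, by simp [NN]⟩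
  rw [Finset.mem_range] at hk0
  obtain ⟨t0, ht0, hs0⟩ : ∃ t0 < 2, Phi L0 t0 k0 P = max (Phi L0 0 k0 P) (Phi L0 1 k0 P) := by
    rcases le_total (Phi L0 0 k0 P) (Phi L0 1 k0 P) with h1 | h1
    · exact ⟨1, by norm_num, (max_eq_right h1).symm⟩
    · exact ⟨0, by norm_num, (max_eq_left h1).symm⟩
  set P' : ℕ → ℂ := fun k => (starRingEnd ℂ) (dir k0) * P ((k + k0) % NN) with hP'
  have hPhi' : ∀ τ θ : ℕ, Phi L0 τ θ P' = Phi L0 τ ((θ + k0) % NN) P := by
    intro τ θ
    rw [hPhi]
    unfold Phi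
    refine Finset.sum_congr rfl fun q _ => ?_
    simp only [hP', ip_dir_conj, hPmod]
    have e1 : (((θ + k0) % NN + L0.n τ q) : ℕ) % NN = ((θ + L0.n τ q) % NN + k0) % NN := by
      rw [Nat.mod_add_mod, Nat.mod_add_mod]
      congr 1
      ring
    rw [← hhmod ((θ + k0) % NN + L0.n τ q), e1, hhmod]
  have hsupp : ∀ i < NN, ∀ j < NN, ip (dir i) (P' j) ≤ ip (dir i) (P' i) := by
    intro i _ j _
    simp only [hP', ip_dir_conj, hPmod]
    exact hmax _ _
  obtain ⟨ord₀, hperm, hlen⟩ := exists_order P' (fun k => (t₀ ((k + k0) % NN) : ℝ))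
    (fun k => (t₀ ((k + k0) % NN)).2.1) (fun k => (t₀ ((k + k0) % NN)).2.2) (by
      intro i j
      have h1 : P' i - P' j = (starRingEnd ℂ) (dir k0) *
          (g (t₀ ((i + k0) % NN)) - g (t₀ ((j + k0) % NN))) := by
        simp only [hP', hPdef, Nat.mod_mod]
        ring
      rw [h1, norm_mul, RCLike.norm_conj, norm_dir, one_mul]
      exact hdist _ _)
  obtain ⟨ord, htouch⟩ := exists_touch P' hsupp ord₀ hperm hlen
  have h0k : (0 + k0) % NN = k0 := by rw [zero_add, Nat.mod_eq_of_lt hk0]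
  refine hno P' ord (max (Phi L0 0 k0 P) (Phi L0 1 k0 P)) t0 ht0 ⟨htouch, ?_, ?_, ?_, ?_⟩
  · obtain ⟨τ, hτ, h1⟩ := hrot k0
    have h2 : τ = 0 ∨ τ = 1 := by omega
    rcases h2 with rfl | rfl
    · exact lt_of_lt_of_le h1 (le_max_left _ _)
    · exact lt_of_lt_of_le h1 (le_max_right _ _)
  · rw [hPhi', h0k, hs0]
  · intro θ hθ
    rw [hPhi', hPhi', ← le_max_iff]
    exact hmin _ (Finset.mem_range.2 (Nat.mod_lt _ (by norm_num [NN])))
  · intro θ hθ
    have h1 := free_ge hsupp hθ
    refine le_trans ?_ (max_le h1.1 h1.2)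
    rw [hPhi', hPhi']
    exact hmin _ (Finset.mem_range.2 (Nat.mod_lt _ (by norm_num [NN])))

theorem leastArea_le (hno : ∀ (P : ℕ → ℂ) (ord : List ℕ) (s : ℝ) (t0 : ℕ), t0 < 2 →
    ¬ Bad L0 P ord s t0) : leastArea ≤ ENNReal.ofReal (2556 / 10000) := by
  refine (sInf_le ?_).trans KE_area
  exact ⟨KE, KE_convex, KE_cover hno, rfl⟩

end Pool.Agent.Worm78
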