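import Mathlib

/-!
# Worms and convex covers: basic definitions for the upper bound

The plane is `ℂ`.  There are `NN = 1984` directions `dir k`.  A worm of length `≤ 1` gives points
`P k` (the point of the worm which is extreme in direction `dir k`) and an order of the indices
in which the points are visited; the order can be chosen so that the initial segments are intervals of the
circle.
-/

set_option autoImplicit false

namespace Pool.Agent.Worm78

/-- the number of directions -/
def NN : ℕ := 1984

/-- the `k`-th direction -/
noncomputable def dir (k : ℕ) : ℂ :=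
  Complex.exp (((2 * Real.pi * k / NN : ℝ) : ℂ) * Complex.I)

/-- the inner product of the plane -/
def ip (z w : ℂ) : ℝ := z.re * w.re + z.im * w.im

/-- the length of the path through the points `P k`, where `k` runs through the list -/
noncomputable def plen (P : ℕ → ℂ) : List ℕ → ℝ
  | a :: b :: t => ‖P a - P b‖ + plen P (b :: t)
  | _ => 0

/-- the indices below `NN` in `X` form an interval of the circle: there are no four indices in
this order around the circle which are alternately in `X` and not in `X` -/
def CycInt (X : List ℕ) : Prop :=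
  ∀ p q r s : ℕ, p < q → q < r → r < s → s < NN →
    ¬ (p ∈ X ∧ q ∉ X ∧ r ∈ X ∧ s ∉ X) ∧ ¬ (p ∉ X ∧ q ∈ X ∧ r ∉ X ∧ s ∈ X)

/-- the points `P k` are extreme in direction `dir k` among all these points, and they can be
visited in the order `ord` by a path of length at most `1`; all initial segments of the order are
intervals of the circle -/
structure Touch (P : ℕ → ℂ) (ord : List ℕ) : Prop where
  supp : ∀ i < NN, ∀ j < NN, ip (dir i) (P j) ≤ ip (dir i) (P i)
  perm : ord.Perm (List.range NN)
  len : plen P ord ≤ 1
  cyc : ∀ X Y : List ℕ, ord = X ++ Y → CycInt X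

/-- `a` comes before `b` (in every initial segment which contains `b`, there is `a`) -/
def Before (ord : List ℕ) (a b : ℕ) : Prop := ∀ X Y : List ℕ, ord = X ++ Y → b ∈ X → a ∈ X

/-- three linear inequalities (`τ = 0, 1, 2`), each for three directions (`q = 0, 1, 2`) -/
structure Lin where
  /-- the directions -/
  n : ℕ → ℕ → ℕ
  /-- the coefficients -/
  lam : ℕ → ℕ → ℝ

/-- the value of the linear inequality `τ` for the rotation `θ` -/
noncomputable def Phi (L : Lin) (τ θ : ℕ) (P : ℕ → ℂ) : ℝ :=
  ∑ q ∈ Finset.range 3, L.lam τ q *
    ip (dir ((θ + L.n τ q) % NN)) (P ((θ + L.n τ q) % NN))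

/-- The situation of a worm of length `≤ 1` which is not contained in a rotated and translated copy
of the quadrilateral.  `s` is the least factor for which a grid rotation of the `s`-fold
quadrilateral contains the worm, and it belongs to the rotation `0`, where the inequality `t0` is
the critical one. -/
structure Bad (L : Lin) (P : ℕ → ℂ) (ord : List ℕ) (s : ℝ) (t0 : ℕ) : Prop where
  touch : Touch P ord
  one_lt : 1 < s
  base : Phi L t0 0 P = s
  typ : ∀ θ < NN, s ≤ Phi L 0 θ P ∨ s ≤ Phi L 1 θ P
  free : ∀ θ < NN, s ≤ Phi L 2 θ P

/-! ### the quadrilateral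

`K` consists of the points `z` with `0 ≤ im z`, `ip (dir 730) z ≤ 0`, `ip (dir 263) z ≤ H 0`,
`ip (dir 386) z ≤ H 1`.  The triangle with `0 ≤ im z`, `ip (dir 730) z ≤ 0`, `ip (dir 291) z ≤ H 2`
is contained in it.  (`dir 1488 = -i`.)  -/

/-- the direction of the third side of the triangle `τ` -/
def cdir (τ : ℕ) : ℕ := if τ = 0 then 263 else if τ = 1 then 386 else 291

/-- the height of the third side -/
noncomputable def H (τ : ℕ) : ℝ :=
  if τ = 0 then 71911 / 100000 else if τ = 1 then 58216 / 100000 else 64610 / 100000

/-- the cross product of two directions -/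
noncomputable def cr (a b : ℕ) : ℝ := (dir a).re * (dir b).im - (dir a).im * (dir b).re

/-- the three linear inequalities -/
noncomputable def L0 : Lin where
  n τ q := if q = 0 then cdir τ else if q = 1 then 730 else 1488
  lam τ q := if q = 0 then 1 / H τ else
    if q = 1 then cr 1488 (cdir τ) / (H τ * cr 730 1488) else
      cr (cdir τ) 730 / (H τ * cr 730 1488)

/-- the quadrilateral -/
def K : Set ℂ := {z | 0 ≤ z.im ∧ ip (dir 730) z ≤ 0 ∧ ip (dir 263) z ≤ H 0 ∧ ip (dir 386) z ≤ H 1}

end Pool.Agent.Worm78
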