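import Pool.Agent.Worm78.Trig

/-!
# The certificate checker

Only operations of `ℕ` which are fast in the kernel are used.  A leaf of the search tree is one
natural number.  Vectors of numbers are packed: the entry `j` is at the bits `144 * j, ...`.
-/

set_option autoImplicit false

namespace Pool.Agent.Worm78

/-- the search tree -/
inductive Tr where
  /-- leaf with its certificate -/
  | L (n : ℕ) : Tr
  /-- `a` before `b` (left) or `b` before `a` (right) -/
  | O (a b : ℕ) (l r : Tr) : Tr
  /-- for the rotation `θ` the inequality `0` (left) or `1` (right) -/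
  | T (θ : ℕ) (l r : Tr) : Tr

/-- `2 ^ 144` -/
def K2 : ℕ := 22300745198530623141535718272648361505980416

/-- `∑ j < 64, 2 ^ (144 * j)` -/
def ONEB : ℕ := Nat.div (Nat.sub (Nat.pow 2 9216) 1) (Nat.sub K2 1)

/-- `∑ j < i, 2 ^ (144 * j)` -/
def one (i : ℕ) : ℕ := Nat.mod ONEB (Nat.pow K2 i)

/-- the `w` low bits -/
def low (n w : ℕ) : ℕ := Nat.mod n (Nat.pow 2 w)

/-- entry `i` of the list of directions (packed with `11` bits each) -/
def dget (D i : ℕ) : ℕ := Nat.land (Nat.shiftRight D (Nat.mul 11 i)) 2047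

/-- `a + b` modulo `1984` -/
def addm (a b : ℕ) : ℕ := Nat.mod (Nat.add a b) 1984

/-- the direction of the inequality `τ` -/
def cdk (τ : ℕ) : ℕ := cond (Nat.beq τ 0) 263 (cond (Nat.beq τ 1) 386 291)

/-- coefficients of the inequality `τ` -/
def lam0 (τ : ℕ) : ℕ := cond (Nat.beq τ 0) 1458158 (cond (Nat.beq τ 1) 1801182 1622931)

def lam1 (τ : ℕ) : ℕ := cond (Nat.beq τ 0) 1453104 (cond (Nat.beq τ 1) 910792 1453429)

def lam2 (τ : ℕ) : ℕ := cond (Nat.beq τ 0) 2150903 (cond (Nat.beq τ 1) 2364929 2365026)

/-- the accumulators: packed sums for the two coordinates, packed sum of the coefficients, sum of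
the coefficients -/
structure Acc where
  /-- first coordinate -/
  x : ℕ
  /-- second coordinate -/
  y : ℕ
  /-- coefficients -/
  c : ℕ
  /-- total -/
  s : ℕ

/-- add `c` times the direction `k` at all places from `p` on (`p < r`) -/
def addp (r c k p : ℕ) (A : Acc) : Acc :=
  ⟨Nat.add A.x (Nat.mul (Nat.mul c (Nat.land (Nat.shiftRight tab (Nat.mul 48 k)) 16777215))
      (Nat.sub (one r) (one p))),
   Nat.add A.y (Nat.mul (Nat.mul c (Nat.land (Nat.shiftRight tab (Nat.add (Nat.mul 48 k) 24))
      16777215)) (Nat.sub (one r) (one p))),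
   Nat.add A.c (Nat.mul c (Nat.sub (one r) (one p))),
   Nat.add A.s c⟩

/-- subtract `c` times the direction `k` at all places from `p` on -/
def subp (r c k p : ℕ) (A : Acc) : Acc :=
  ⟨Nat.add A.x (Nat.mul (Nat.mul c (Nat.sub 4194304 (Nat.land (Nat.shiftRight tab (Nat.mul 48 k))
      16777215))) (Nat.sub (one r) (one p))),
   Nat.add A.y (Nat.mul (Nat.mul c (Nat.sub 4194304 (Nat.land (Nat.shiftRight tab
      (Nat.add (Nat.mul 48 k) 24)) 16777215))) (Nat.sub (one r) (one p))),
   Nat.add A.c (Nat.mul c (Nat.sub (one r) (one p))),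
   Nat.add A.s c⟩

/-- The columns of the inequalities, `m` of them; `n` holds `θ` (11 bits), `τ` (2 bits), `x` (21
bits), three places (6 bits each).  The continuation gets the rest of the data, the accumulators
and the sum of the `x`. -/
def typ (Ty r D : ℕ) (k : ℕ → Acc → ℕ → Bool) (m : ℕ) : ℕ → Acc → ℕ → Bool :=
  @Nat.rec (fun _ => ℕ → Acc → ℕ → Bool) k
    (fun _ ih n A sx =>
      (fun θ τ x p0 p1 p2 =>
        cond (Nat.beq (dget D p0) (addm θ (cdk τ)))
        (cond (Nat.beq (dget D p1) (addm θ 730))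
        (cond (Nat.beq (dget D p2) (addm θ 1488))
        (cond (Nat.blt p0 r) (cond (Nat.blt p1 r) (cond (Nat.blt p2 r)
        (cond (Nat.blt θ 1984)
        (cond (Nat.ble τ 2)
        (cond (or (Nat.beq τ 2) (Nat.beq (Nat.land (Nat.shiftRight Ty (Nat.add (Nat.mul 2 θ) τ)) 1) 1))
          (ih (Nat.shiftRight n 52)
            (addp r (Nat.mul x (lam2 τ)) (dget D p2) p2
              (addp r (Nat.mul x (lam1 τ)) (dget D p1) p1
                (addp r (Nat.mul x (lam0 τ)) (dget D p0) p0 A)))
            (Nat.add sx x)) false) false) false) false) false) false) false) false) false)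
      (low n 11) (low (Nat.shiftRight n 11) 2) (low (Nat.shiftRight n 13) 21)
      (low (Nat.shiftRight n 34) 6) (low (Nat.shiftRight n 40) 6) (low (Nat.shiftRight n 46) 6))
    m

/-- The columns of the supports, `m` of them; `n` holds two places `i`, `q` (6 bits each) and `x`
(23 bits): `x` times the direction `i` is added at `i` and subtracted at `q`. -/
def kap (r D : ℕ) (k : ℕ → Acc → ℕ → Bool) (m : ℕ) : ℕ → Acc → ℕ → Bool :=
  @Nat.rec (fun _ => ℕ → Acc → ℕ → Bool) k
    (fun _ ih n A sk =>
      (fun i q x =>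
        cond (Nat.blt i r) (cond (Nat.blt q r)
          (ih (Nat.shiftRight n 35)
            (subp r (Nat.mul x 1048576) (dget D i) q
              (addp r (Nat.mul x 1048576) (dget D i) i A))
            (Nat.add sk x)) false) false)
      (low n 6) (low (Nat.shiftRight n 6) 6) (low (Nat.shiftRight n 12) 23))
    m

/-- The used order facts, `m` of them; `n` holds the number of the fact (6 bits) and the places of
the two directions (6 bits each).  The continuation gets the rest of the data and the packed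
places (12 bits for each fact, the last one first). -/
def fct (F r D : ℕ) (k : ℕ → ℕ → Bool) (m : ℕ) : ℕ → ℕ → Bool :=
  @Nat.rec (fun _ => ℕ → ℕ → Bool) k
    (fun _ ih n G =>
      (fun f pa pb =>
        cond (Nat.blt pa r) (cond (Nat.blt pb r)
        (cond (Nat.beq (Nat.add (dget D pa) (Nat.mul 2048 (dget D pb)))
            (Nat.land (Nat.shiftRight F (Nat.mul 22 f)) 4194303))
          (ih (Nat.shiftRight n 18) (Nat.add (Nat.mul 4096 G) (Nat.add pa (Nat.mul 64 pb))))
          false) false) false)
      (low n 6) (low (Nat.shiftRight n 6) 6) (low (Nat.shiftRight n 12) 6))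
    m

/-- the directions are increasing and below `1984` -/
def inc (D : ℕ) (m : ℕ) : ℕ → Bool :=
  @Nat.rec (fun _ => ℕ → Bool) (fun i => Nat.blt (dget D i) 1984)
    (fun _ ih i => cond (Nat.blt (dget D i) (dget D (Nat.succ i))) (ih (Nat.succ i)) false)
    m

/-- packed squares -/
def squ (PX PY : ℕ) (m : ℕ) : ℕ → ℕ :=
  @Nat.rec (fun _ => ℕ → ℕ) (fun _ => 0)
    (fun _ ih i =>
      (fun x y => Nat.add (Nat.mul (Nat.add (Nat.mul x x) (Nat.mul y y)) (Nat.pow K2 i))
        (ih (Nat.succ i)))
      (Nat.mod (Nat.shiftRight PX (Nat.mul 144 i)) K2)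
      (Nat.mod (Nat.shiftRight PY (Nat.mul 144 i)) K2))
    m

/-- all the entries from `s` to `e - 1` have their highest bit -/
def seg (R s e : ℕ) : Bool :=
  Nat.beq (Nat.land R (Nat.mul 11150372599265311570767859136324180752990208
      (Nat.sub (one e) (one s))))
    (Nat.mul 11150372599265311570767859136324180752990208 (Nat.sub (one e) (one s)))

/-- `f = (a, b)`: for all `j` with `j1 ≤ j < j2`, `b` is in `(i, j]` and `a` is not -/
def exi (i j1 j2 a b : ℕ) : Bool :=
  and (and (Nat.blt i b) (Nat.ble b j1)) (or (Nat.ble a i) (Nat.ble j2 a))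

/-- The exclusions in the row `i`, `m` of them; `n` holds `j1`, `j2` (6 bits each) and the numbers
of two facts (6 bits each). -/
def row (R r G i : ℕ) (k : ℕ → Bool) (m : ℕ) : ℕ → ℕ → Bool :=
  @Nat.rec (fun _ => ℕ → ℕ → Bool)
    (fun n cur => cond (seg R cur r) (k n) false)
    (fun _ ih n cur =>
      (fun j1 j2 f g =>
        cond (Nat.ble cur j1) (cond (Nat.ble j1 j2) (cond (Nat.ble j2 r)
        (cond (seg R cur j1)
        (cond (exi i j1 j2 (low (Nat.shiftRight G (Nat.mul 12 f)) 6)
          (low (Nat.shiftRight G (Nat.add (Nat.mul 12 f) 6)) 6))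
        (cond (exi i j1 j2 (low (Nat.shiftRight G (Nat.add (Nat.mul 12 g) 6)) 6)
          (low (Nat.shiftRight G (Nat.mul 12 g)) 6))
          (ih (Nat.shiftRight n 24) j2) false) false) false) false) false) false)
      (low n 6) (low (Nat.shiftRight n 6) 6) (low (Nat.shiftRight n 12) 6)
      (low (Nat.shiftRight n 18) 6))
    m

/-- the rows from `i` on, `m` of them; `n` holds the number of exclusions (3 bits), then the
exclusions -/
def rows (PX PY PQ B r G : ℕ) (m : ℕ) : ℕ → ℕ → Bool :=
  @Nat.rec (fun _ => ℕ → ℕ → Bool) (fun _ _ => true)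
    (fun _ ih i n =>
      (fun x y =>
        row (Nat.sub (Nat.add (Nat.mul 2 (Nat.add (Nat.mul x PX) (Nat.mul y PY)))
            (Nat.mul (Nat.sub (Nat.add B 11150372599265311570767859136324180752990208)
              (Nat.add (Nat.mul x x) (Nat.mul y y))) (one r))) PQ)
          r G i (ih (Nat.succ i)) (low n 3) (Nat.shiftRight n 3) (Nat.succ i))
      (Nat.mod (Nat.shiftRight PX (Nat.mul 144 i)) K2)
      (Nat.mod (Nat.shiftRight PY (Nat.mul 144 i)) K2))
    m

/-- the end of the check: `A` are the accumulators, `sx` the sum of the `x`, `sk` the sum for the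
supports -/
def fin (r G : ℕ) (A : Acc) (e n : ℕ) : Bool :=
  cond (Nat.ble A.s 281474976710656)
    ((fun PX PY => rows PX PY (squ PX PY r 0)
        (Nat.mul (Nat.sub 288230376151711744 e) (Nat.sub 288230376151711744 e)) r G r 0 n)
      (Nat.sub (Nat.add A.x (Nat.mul (Nat.mul 2097152 A.s) (one r))) (Nat.mul 2097152 A.c))
      (Nat.sub (Nat.add A.y (Nat.mul (Nat.mul 2097152 A.s) (one r))) (Nat.mul 2097152 A.c)))
    false

/-- the error bound: `2 ^ 20 * 11` for each unit of the `x` and of the base coefficient,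
`2 ^ 20 * 3` for each unit of the coefficients of the supports -/
def err (sx y sk : ℕ) : ℕ :=
  Nat.add (Nat.mul 11534336 (Nat.add sx y)) (Nat.mul 3145728 sk)

/-- the leaf check -/
def leaf (t0 F Ty n : ℕ) : Bool :=
  (fun r m mk mf p0 p1 p2 D n1 =>
    cond (Nat.ble r 63)
    (cond (inc D (Nat.sub r 1) 0)
    (cond (Nat.blt p0 r) (cond (Nat.blt p1 r) (cond (Nat.blt p2 r)
    (cond (Nat.beq (dget D p0) (cdk t0)) (cond (Nat.beq (dget D p1) 730)
    (cond (Nat.beq (dget D p2) 1488)
      (typ Ty r D (fun n2 A sx =>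
        kap r D (fun n3 A' sk =>
          fct F r D (fun n4 G =>
            cond (Nat.ble sx 262144)
              ((fun y => fin r G
                (addp r (Nat.mul y (lam2 t0)) 1488 p2 (addp r (Nat.mul y (lam1 t0)) 730 p1
                  (addp r (Nat.mul y (lam0 t0)) (cdk t0) p0 A')))
                (err sx y sk) n4) (Nat.sub 262144 sx))
              ((fun y => fin r G
                (subp r (Nat.mul y (lam2 t0)) 1488 p2 (subp r (Nat.mul y (lam1 t0)) 730 p1
                  (subp r (Nat.mul y (lam0 t0)) (cdk t0) p0 A')))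
                (err sx y sk) n4) (Nat.sub sx 262144)))
            mf n3 0)
          mk n2 A 0)
        m n1 ⟨0, 0, 0, 0⟩ 0)
      false) false) false) false) false) false) false) false)
  (low n 6) (low (Nat.shiftRight n 6) 6) (low (Nat.shiftRight n 12) 6)
  (low (Nat.shiftRight n 18) 6) (low (Nat.shiftRight n 24) 6) (low (Nat.shiftRight n 30) 6)
  (low (Nat.shiftRight n 36) 6)
  (low (Nat.shiftRight n 42) (Nat.mul 11 (low n 6)))
  (Nat.shiftRight n (Nat.add 42 (Nat.mul 11 (low n 6))))

/-- the check of a tree; `F` holds the order facts (`22` bits for each, the last one first), `Ty`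
the facts for the rotations (bit `2 θ + τ`) -/
noncomputable def check (t0 : ℕ) (t : Tr) : ℕ → ℕ → Bool :=
  @Tr.rec (fun _ => ℕ → ℕ → Bool)
    (fun n F Ty => leaf t0 F Ty n)
    (fun a b _ _ il ir F Ty =>
      cond (Nat.blt a 2048) (cond (Nat.blt b 2048)
        (cond (il (Nat.add (Nat.mul 4194304 F) (Nat.add a (Nat.mul 2048 b))) Ty)
          (ir (Nat.add (Nat.mul 4194304 F) (Nat.add b (Nat.mul 2048 a))) Ty) false) false) false)
    (fun θ _ _ il ir F Ty =>
      cond (il F (Nat.lor Ty (Nat.pow 2 (Nat.mul 2 θ))))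
        (ir F (Nat.lor Ty (Nat.pow 2 (Nat.succ (Nat.mul 2 θ))))) false)
    t

end Pool.Agent.Worm78
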