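import Pool.Agent.Worm78.Base

/-!
# The contradiction in a leaf of the search tree

`D 0 < D 1 < ... < D (r - 1)` are the active directions, `W j` is the weight at the direction
`D j`.  The sum of the weights is `0`.  If each sum over an interval of the circle which can be a
initial segment of the order has a norm of at most `X`, then `∑ ⟨W j, P (D j)⟩ ≤ X`.
-/

set_option autoImplicit false

namespace Pool.Agent.Worm78

open Finset

/-- the inner product is additive in the first argument -/
private lemma core_ip_add (a b z : ℂ) : ip (a + b) z = ip a z + ip b z := by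
  simp only [ip, Complex.add_re, Complex.add_im]; ring

private lemma core_ip_sub (a z w : ℂ) : ip a (z - w) = ip a z - ip a w := by
  simp only [ip, Complex.sub_re, Complex.sub_im]; ring

private lemma core_ip_zero (z : ℂ) : ip 0 z = 0 := by simp [ip]

private lemma core_ip_sum {ι : Type*} (s : Finset ι) (f : ι → ℂ) (z : ℂ) :
    ip (∑ i ∈ s, f i) z = ∑ i ∈ s, ip (f i) z := by
  classical
  induction s using Finset.induction_on with
  | empty => simp [core_ip_zero]
  | insert a s ha ih => rw [Finset.sum_insert ha, Finset.sum_insert ha, core_ip_add, ih]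

/-- Cauchy-Schwarz in the plane -/
private lemma core_ip_le (a z : ℂ) : ip a z ≤ ‖a‖ * ‖z‖ := by
  have h1 : ip a z ^ 2 ≤ (‖a‖ * ‖z‖) ^ 2 := by
    have ha : ‖a‖ ^ 2 = a.re * a.re + a.im * a.im := by
      rw [Complex.sq_norm, Complex.normSq_apply]
    have hz : ‖z‖ ^ 2 = z.re * z.re + z.im * z.im := by
      rw [Complex.sq_norm, Complex.normSq_apply]
    rw [mul_pow, ha, hz]
    unfold ip
    nlinarith [sq_nonneg (a.re * z.im - a.im * z.re)]
  exact le_trans (le_abs_self _) (abs_le_of_sq_le_sq h1 (by positivity))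

/-- the weight at the index `k` -/
private noncomputable def core_w (r : ℕ) (D : ℕ → ℕ) (W : ℕ → ℂ) (k : ℕ) : ℂ :=
  ∑ j ∈ (range r).filter (fun j => D j = k), W j

/-- the positions which are in the list -/
private def core_T (r : ℕ) (D : ℕ → ℕ) (l : List ℕ) : Finset ℕ :=
  (range r).filter (fun j => D j ∈ l)

/-- the sum of the weights at the indices in the list -/
private noncomputable def core_S (r : ℕ) (D : ℕ → ℕ) (W : ℕ → ℂ) (l : List ℕ) : ℂ :=
  ∑ j ∈ core_T r D l, W j

private lemma core_S_append (r : ℕ) (D : ℕ → ℕ) (W : ℕ → ℂ) (l : List ℕ) (a : ℕ) (ha : a ∉ l) :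
    core_S r D W (l ++ [a]) = core_S r D W l + core_w r D W a := by
  classical
  unfold core_S core_w core_T
  rw [← Finset.sum_union]
  · congr 1
    ext j
    simp only [mem_filter, mem_union, List.mem_append, List.mem_singleton]
    tauto
  · rw [Finset.disjoint_left]
    intro j hj hj'
    simp only [mem_filter] at hj hj'
    exact ha (hj'.2 ▸ hj.2)

/-- a set of positions without alternation and without `0` is an interval -/
private lemma core_Ioc (r : ℕ) (U : Finset ℕ) (hU : U ⊆ range r) (hne : U.Nonempty)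
    (h0 : 0 ∉ U)
    (halt : ∀ q m s : ℕ, 0 < q → q < m → m < s → s < r → q ∈ U → m ∉ U → s ∈ U → False) :
    ∃ i j, i < j ∧ j < r ∧ U = Ioc i j := by
  have hminU := U.min'_mem hne
  have hmaxU := U.max'_mem hne
  set p := U.min' hne with hp
  set q := U.max' hne with hq
  have hp0 : 0 < p := by
    rcases Nat.eq_zero_or_pos p with h | h
    · rw [h] at hminU; exact absurd hminU h0
    · exact h
  have hpq : p ≤ q := U.min'_le _ hmaxU
  have hqr : q < r := mem_range.1 (hU hmaxU)
  refine ⟨p - 1, q, by omega, hqr, ?_⟩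
  ext m
  rw [mem_Ioc]
  constructor
  · intro hm
    have h1 : p ≤ m := U.min'_le _ hm
    have h2 : m ≤ q := U.le_max' _ hm
    omega
  · intro hm
    by_contra hmU
    have h1 : p ≠ m := fun h => hmU (h ▸ hminU)
    have h2 : q ≠ m := fun h => hmU (h ▸ hmaxU)
    exact halt p m q hp0 (by omega) (by omega) hqr hminU hmU hmaxU

private lemma core_norm {P : ℕ → ℂ} {ord : List ℕ} (h : Touch P ord) (r : ℕ) (D : ℕ → ℕ)
    (hD : ∀ i j, i < j → j < r → D i < D j) (hD' : ∀ i < r, D i < NN) (W : ℕ → ℂ)
    (hsum : ∑ j ∈ range r, W j = 0) (X : ℝ) (hX : 0 ≤ X)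
    (hch : ∀ i j, i < j → j < r → ‖∑ m ∈ Ioc i j, W m‖ ≤ X ∨
      ((∃ a b, a < r ∧ b < r ∧ Before ord (D a) (D b) ∧ (i < b ∧ b ≤ j) ∧ ¬ (i < a ∧ a ≤ j)) ∧
       (∃ a b, a < r ∧ b < r ∧ Before ord (D a) (D b) ∧ (i < a ∧ a ≤ j) ∧ ¬ (i < b ∧ b ≤ j))))
    (pre suf : List ℕ) (hps : ord = pre ++ suf) : ‖core_S r D W pre‖ ≤ X := by
  classical
  have hcyc := h.cyc pre suf hps
  have hTr : core_T r D pre ⊆ range r := filter_subset _ _
  have hmem : ∀ j < r, (j ∈ core_T r D pre ↔ D j ∈ pre) := by
    intro j hj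
    simp [core_T, hj]
  by_cases hT0 : core_T r D pre = ∅
  · simp [core_S, hT0, hX]
  by_cases hTa : core_T r D pre = range r
  · simp [core_S, hTa, hsum, hX]
  by_cases hz : 0 ∈ core_T r D pre
  · -- the complement is an interval
    have hr0 : 0 < r := mem_range.1 (hTr hz)
    have hne : (range r \ core_T r D pre).Nonempty := by
      rw [Finset.sdiff_nonempty]
      intro hsub
      exact hTa (Finset.Subset.antisymm hTr hsub)
    obtain ⟨i, j, hij, hjr, hU⟩ := core_Ioc r (range r \ core_T r D pre) sdiff_subset hne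
      (by simp [hz]) (by
        intro q m s hq hqm hms hsr hqU hmU hsU
        have hqp : D q ∉ pre := by
          have := (mem_sdiff.1 hqU).2
          rwa [hmem q (by omega)] at this
        have hsp : D s ∉ pre := by
          have := (mem_sdiff.1 hsU).2
          rwa [hmem s hsr] at this
        have hmp : D m ∈ pre := by
          rw [mem_sdiff, not_and, not_not, hmem m (by omega)] at hmU
          exact hmU (mem_range.2 (by omega))
        have h0p : D 0 ∈ pre := (hmem 0 hr0).1 hz
        exact (hcyc (D 0) (D q) (D m) (D s) (hD _ _ hq (by omega)) (hD _ _ hqm (by omega))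
          (hD _ _ hms hsr) (hD' s hsr)).1 ⟨h0p, hqp, hmp, hsp⟩)
    have hsplit : core_S r D W pre = - ∑ m ∈ Ioc i j, W m := by
      have h1 : ∑ m ∈ range r \ core_T r D pre, W m + ∑ m ∈ core_T r D pre, W m = 0 := by
        rw [Finset.sum_sdiff hTr, hsum]
      rw [← hU]
      unfold core_S
      linear_combination h1
    rcases hch i j hij hjr with h1 | ⟨-, a, b, har, hbr, hab, ha, hb⟩
    · rw [hsplit, norm_neg]; exact h1
    · exfalso
      have hb' : b ∉ Ioc i j := by rw [mem_Ioc]; exact hb
      rw [← hU, mem_sdiff, not_and, not_not] at hb'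
      have hbp : D b ∈ pre := (hmem b hbr).1 (hb' (mem_range.2 hbr))
      have hap : D a ∈ pre := hab pre suf hps hbp
      have ha' : a ∈ Ioc i j := mem_Ioc.2 ha
      rw [← hU, mem_sdiff] at ha'
      exact ha'.2 ((hmem a har).2 hap)
  · have hne : (core_T r D pre).Nonempty := Finset.nonempty_iff_ne_empty.2 hT0
    have hr0 : 0 < r := by
      obtain ⟨t, ht⟩ := hne
      exact lt_of_le_of_lt (Nat.zero_le _) (mem_range.1 (hTr ht))
    obtain ⟨i, j, hij, hjr, hU⟩ := core_Ioc r (core_T r D pre) hTr hne hz (by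
        intro q m s hq hqm hms hsr hqU hmU hsU
        have hqp : D q ∈ pre := (hmem q (by omega)).1 hqU
        have hsp : D s ∈ pre := (hmem s hsr).1 hsU
        have hmp : D m ∉ pre := fun hh => hmU ((hmem m (by omega)).2 hh)
        have h0p : D 0 ∉ pre := fun hh => hz ((hmem 0 hr0).2 hh)
        exact (hcyc (D 0) (D q) (D m) (D s) (hD _ _ hq (by omega)) (hD _ _ hqm (by omega))
          (hD _ _ hms hsr) (hD' s hsr)).2 ⟨h0p, hqp, hmp, hsp⟩)
    rcases hch i j hij hjr with h1 | ⟨⟨a, b, har, hbr, hab, hb, ha⟩, -⟩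
    · unfold core_S; rw [hU]; exact h1
    · exfalso
      have hb' : b ∈ Ioc i j := mem_Ioc.2 hb
      rw [← hU] at hb'
      have hbp : D b ∈ pre := (hmem b hbr).1 hb'
      have hap : D a ∈ pre := hab pre suf hps hbp
      have ha' : a ∈ Ioc i j := by rw [← hU]; exact (hmem a har).2 hap
      exact ha (mem_Ioc.1 ha')

private lemma core_abel {P : ℕ → ℂ} {ord : List ℕ} (r : ℕ) (D : ℕ → ℕ) (W : ℕ → ℂ) (X : ℝ)
    (hnd : ord.Nodup) (htot : core_S r D W ord = 0)
    (hS : ∀ pre suf : List ℕ, ord = pre ++ suf → ‖core_S r D W pre‖ ≤ X) :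
    ∀ (t pre : List ℕ) (a : ℕ), ord = pre ++ (a :: t) →
      ip (core_S r D W pre) (P a) + ((a :: t).map (fun k => ip (core_w r D W k) (P k))).sum ≤
        X * plen P (a :: t) := by
  intro t
  induction t with
  | nil =>
      intro pre a h
      have hap : a ∉ pre := by
        rw [h, List.nodup_append] at hnd
        intro hh
        exact hnd.2.2 a hh a (by simp) rfl
      have h1 := core_S_append r D W pre a hap
      rw [← h, htot] at h1
      simp only [List.map_cons, List.map_nil, List.sum_cons, List.sum_nil, add_zero, plen,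
        mul_zero]
      rw [← core_ip_add, ← h1, core_ip_zero]
  | cons b t ih =>
      intro pre a h
      have hap : a ∉ pre := by
        rw [h, List.nodup_append] at hnd
        intro hh
        exact hnd.2.2 a hh a (by simp) rfl
      have h1 := core_S_append r D W pre a hap
      have h2 : ord = (pre ++ [a]) ++ (b :: t) := by simp [h]
      have h3 := ih (pre ++ [a]) b h2
      have h4 := hS (pre ++ [a]) (b :: t) h2
      have h5 : ip (core_S r D W (pre ++ [a])) (P a - P b) ≤ X * ‖P a - P b‖ :=
        le_trans (core_ip_le _ _) (mul_le_mul_of_nonneg_right h4 (norm_nonneg _))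
      rw [core_ip_sub] at h5
      have h6 : ip (core_S r D W (pre ++ [a])) (P a) =
          ip (core_S r D W pre) (P a) + ip (core_w r D W a) (P a) := by
        rw [h1, core_ip_add]
      have h7 : plen P (a :: b :: t) = ‖P a - P b‖ + plen P (b :: t) := rfl
      rw [h7, mul_add, List.map_cons, List.sum_cons]
      linarith

/-- Abel summation: the sum is at most `X` times the length of the path. -/
theorem leaf_le {P : ℕ → ℂ} {ord : List ℕ} (h : Touch P ord) (r : ℕ) (D : ℕ → ℕ)
    (hD : ∀ i j, i < j → j < r → D i < D j) (hD' : ∀ i < r, D i < NN) (W : ℕ → ℂ)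
    (hsum : ∑ j ∈ range r, W j = 0) (X : ℝ) (hX : 0 ≤ X)
    (hch : ∀ i j, i < j → j < r → ‖∑ m ∈ Ioc i j, W m‖ ≤ X ∨
      ((∃ a b, a < r ∧ b < r ∧ Before ord (D a) (D b) ∧ (i < b ∧ b ≤ j) ∧ ¬ (i < a ∧ a ≤ j)) ∧
       (∃ a b, a < r ∧ b < r ∧ Before ord (D a) (D b) ∧ (i < a ∧ a ≤ j) ∧ ¬ (i < b ∧ b ≤ j)))) :
    ∑ j ∈ range r, ip (W j) (P (D j)) ≤ X := by
  classical
  have hnd : ord.Nodup := h.perm.nodup_iff.2 List.nodup_range
  have hall : core_T r D ord = range r := by
    unfold core_T
    apply Finset.filter_true_of_mem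
    intro j hj
    rw [h.perm.mem_iff, List.mem_range]
    exact hD' j (mem_range.1 hj)
  have htot : core_S r D W ord = 0 := by unfold core_S; rw [hall, hsum]
  have hS := core_norm h r D hD hD' W hsum X hX hch
  have hne : ord ≠ [] := by
    intro h0
    have := h.perm.length_eq
    rw [h0, List.length_range] at this
    simp [NN] at this
  obtain ⟨a, t, hat⟩ := List.exists_cons_of_ne_nil hne
  have h1 := core_abel (P := P) r D W X hnd htot hS t [] a (by simp [hat])
  rw [← hat] at h1
  have h2 : core_S r D W [] = 0 := by simp [core_S, core_T]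
  rw [h2, core_ip_zero, zero_add] at h1
  have h3 : (ord.map (fun k => ip (core_w r D W k) (P k))).sum =
      ∑ j ∈ range r, ip (W j) (P (D j)) := by
    rw [(h.perm.map _).sum_eq]
    have h4 : ((List.range NN).map (fun k => ip (core_w r D W k) (P k))).sum =
        ∑ k ∈ range NN, ip (core_w r D W k) (P k) := by
      rw [← List.sum_toFinset _ List.nodup_range, List.toFinset_range]
    rw [h4]
    have h5 : ∀ k ∈ range NN, ip (core_w r D W k) (P k) =
        ∑ j ∈ (range r).filter (fun j => D j = k), ip (W j) (P (D j)) := by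
      intro k _
      unfold core_w
      rw [core_ip_sum]
      apply Finset.sum_congr rfl
      intro j hj
      rw [(mem_filter.1 hj).2]
    rw [Finset.sum_congr rfl h5]
    exact Finset.sum_fiberwise_of_maps_to (fun j hj => mem_range.2 (hD' j (mem_range.1 hj))) _
  rw [h3] at h1
  calc ∑ j ∈ range r, ip (W j) (P (D j)) ≤ X * plen P ord := h1
    _ ≤ X * 1 := mul_le_mul_of_nonneg_left h.len hX
    _ = X := mul_one X

end Pool.Agent.Worm78
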