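import Pool.Agent.Worm78.Chk

/-!
# Packed vectors and the rows of the check
-/

set_option autoImplicit false

namespace Pool.Agent.Worm78

open Finset

/-- packed vector: entry `j` is at the bits from `144 * j` on -/
def pack (r : ℕ) (v : ℕ → ℕ) : ℕ := ∑ j ∈ range r, v j * K2 ^ j

theorem K2_eq : K2 = 2 ^ 144 := by norm_num [K2]

theorem cond_iff (c a : Bool) : (cond c a false = true) ↔ (c = true ∧ a = true) := by
  cases c <;> simp

namespace LA

/-- entry `j` of a packed number -/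
def ent (Z j : ℕ) : ℕ := (Z >>> (144 * j)) % K2

theorem K2_pos : 0 < K2 := by norm_num [K2]

theorem K2_pow (j : ℕ) : K2 ^ j = 2 ^ (144 * j) := by rw [K2_eq, ← pow_mul]

theorem ent_eq (Z j : ℕ) : ent Z j = Z / K2 ^ j % K2 := by
  unfold ent
  rw [Nat.shiftRight_eq_div_pow, K2_pow]

/-- the geometric sum -/
def geo (n : ℕ) : ℕ := ∑ j ∈ range n, K2 ^ j

theorem geo_succ (n : ℕ) : geo (n + 1) = geo n + K2 ^ n := by
  unfold geo; rw [sum_range_succ]

theorem geo_lt (n : ℕ) : geo n < K2 ^ n := by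
  induction n with
  | zero => simp [geo]
  | succ n ih =>
    rw [geo_succ, pow_succ]
    have h2 : 2 ≤ K2 := by norm_num [K2]
    have h3 : K2 ^ n * 2 ≤ K2 ^ n * K2 := Nat.mul_le_mul_left _ h2
    omega

theorem geo_add (m n : ℕ) : geo (m + n) = geo m + K2 ^ m * geo n := by
  induction n with
  | zero => simp [geo]
  | succ n ih =>
    rw [← add_assoc, geo_succ, ih, geo_succ, pow_add]; ring

theorem geo_mul_aux (q n : ℕ) (hq : 0 < q) : (∑ j ∈ range n, q ^ j) * (q - 1) + 1 = q ^ n := by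
  induction n with
  | zero => simp
  | succ n ih =>
    have h1 : q - 1 + 1 = q := Nat.sub_add_cancel hq
    rw [sum_range_succ, pow_succ, add_mul]
    calc (∑ j ∈ range n, q ^ j) * (q - 1) + q ^ n * (q - 1) + 1
        = ((∑ j ∈ range n, q ^ j) * (q - 1) + 1) + q ^ n * (q - 1) := by ring
      _ = q ^ n * 1 + q ^ n * (q - 1) := by rw [ih, mul_one]
      _ = q ^ n * (1 + (q - 1)) := by ring
      _ = q ^ n * q := by rw [add_comm 1, h1]

theorem geo_div_aux {q n Q : ℕ} (hq : 1 < q) (h : q ^ n = Q) :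
    Nat.div (Nat.sub Q 1) (Nat.sub q 1) = ∑ j ∈ range n, q ^ j := by
  have h1 := geo_mul_aux q n (by omega)
  rw [h] at h1
  have h3 : Q - 1 = (∑ j ∈ range n, q ^ j) * (q - 1) := by omega
  have h4 : 0 < q - 1 := by omega
  change (Q - 1) / (q - 1) = _
  rw [h3]
  exact Nat.mul_div_cancel _ h4

theorem pow_aux (a m n e : ℕ) (h : m * n = e) : (a ^ m) ^ n = Nat.pow a e := by
  subst h; exact (pow_mul a m n).symm

set_option exponentiation.threshold 10000 in
theorem ONEB_eq : ONEB = geo 64 := by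
  have h : K2 ^ 64 = Nat.pow 2 9216 := by
    rw [K2_eq]; exact pow_aux 2 144 64 9216 (by norm_num)
  unfold ONEB geo
  exact geo_div_aux (by norm_num [K2]) h

theorem one_geo {i : ℕ} (hi : i ≤ 64) : one i = geo i := by
  change ONEB % K2 ^ i = geo i
  rw [ONEB_eq, show 64 = i + (64 - i) by omega, geo_add, Nat.add_mul_mod_self_left,
    Nat.mod_eq_of_lt (geo_lt i)]

/-- the digits determine the number -/
theorem mod_eq_sum (Z r : ℕ) : Z % K2 ^ r = ∑ j ∈ range r, ent Z j * K2 ^ j := by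
  induction r with
  | zero => simp [Nat.mod_one]
  | succ r ih =>
    rw [Nat.mod_pow_succ, ih, sum_range_succ, ent_eq, mul_comm (K2 ^ r)]

theorem eq_sum {Z r : ℕ} (h : Z < K2 ^ r) : Z = ∑ j ∈ range r, ent Z j * K2 ^ j := by
  rw [← mod_eq_sum, Nat.mod_eq_of_lt h]

theorem sum_lt (c : ℕ → ℕ) (r : ℕ) (hc : ∀ j < r, c j < K2) :
    ∑ j ∈ range r, c j * K2 ^ j < K2 ^ r := by
  induction r with
  | zero => simp
  | succ r ih =>
    rw [sum_range_succ]
    have h1 := ih (fun j hj => hc j (by omega))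
    have h2 : c r + 1 ≤ K2 := hc r (by omega)
    have h3 : (c r + 1) * K2 ^ r ≤ K2 * K2 ^ r := Nat.mul_le_mul_right _ h2
    calc ∑ j ∈ range r, c j * K2 ^ j + c r * K2 ^ r < K2 ^ r + c r * K2 ^ r := by omega
      _ = (c r + 1) * K2 ^ r := by ring
      _ ≤ K2 * K2 ^ r := h3
      _ = K2 ^ (r + 1) := by rw [pow_succ]; ring

theorem ent_sum (c : ℕ → ℕ) (r : ℕ) (hc : ∀ j < r, c j < K2) :
    ∀ j < r, ent (∑ i ∈ range r, c i * K2 ^ i) j = c j := by
  induction r with
  | zero => intro j hj; omega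
  | succ r ih =>
    intro j hj
    have hc' : ∀ j < r, c j < K2 := fun j hj => hc j (by omega)
    rw [sum_range_succ, ent_eq]
    rcases Nat.lt_succ_iff_lt_or_eq.1 hj with h | h
    · have h1 := ih hc' j h
      rw [ent_eq] at h1
      have h2 : c r * K2 ^ r = K2 ^ j * (K2 * (c r * K2 ^ (r - j - 1))) := by
        have h3 : r = j + (1 + (r - j - 1)) := by omega
        calc c r * K2 ^ r = c r * K2 ^ (j + (1 + (r - j - 1))) := by rw [← h3]
          _ = K2 ^ j * (K2 * (c r * K2 ^ (r - j - 1))) := by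
            rw [pow_add, pow_add, pow_one]; ring
      rw [h2, Nat.add_mul_div_left _ _ (pow_pos K2_pos j), Nat.add_mul_mod_self_left, h1]
    · subst h
      have h1 := sum_lt c j hc'
      rw [Nat.add_mul_div_right _ _ (pow_pos K2_pos j), Nat.div_eq_of_lt h1, zero_add,
        Nat.mod_eq_of_lt (hc j (by omega))]

theorem testBit_ent (Z j : ℕ) : Z.testBit (144 * j + 143) = (ent Z j).testBit 143 := by
  unfold ent
  rw [K2_eq, Nat.testBit_mod_two_pow, Nat.testBit_shiftRight]
  simp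

theorem bit_large {c : ℕ} (h : c.testBit 143 = true) : 2 ^ 143 ≤ c := by
  by_contra hn
  rw [Nat.testBit_lt_two_pow (not_le.1 hn)] at h
  exact absurd h (by decide)

theorem K143 : (11150372599265311570767859136324180752990208 : ℕ) = 2 ^ 143 := by norm_num

/-- all the entries from `s` to `e - 1` have their highest bit -/
theorem seg_bit {R s e : ℕ} (hse : s ≤ e) (he : e ≤ 64) (h : seg R s e = true) {j : ℕ}
    (h1 : s ≤ j) (h2 : j < e) : R.testBit (144 * j + 143) = true := by
  have h3 : Nat.land R (2 ^ 143 * (one e - one s)) = 2 ^ 143 * (one e - one s) := by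
    have := Nat.eq_of_beq_eq_true h
    rw [← K143]; exact this
  have h4 : (2 ^ 143 * (one e - one s)).testBit (144 * j + 143) = true := by
    rw [one_geo he, one_geo (hse.trans he)]
    have h5 : geo e = geo s + K2 ^ s * geo (e - s) := by
      rw [← geo_add]; congr 1; omega
    have h6 : geo e - geo s = K2 ^ s * geo (e - s) := by omega
    have h7 : geo (e - s) = geo (j - s) + K2 ^ (j - s) * (1 + K2 * geo (e - j - 1)) := by
      have h8 : e - s = (j - s) + (1 + (e - j - 1)) := by omega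
      rw [h8, geo_add, geo_add 1]
      simp [geo]
    have h9 : K2 ^ s * geo (e - s) =
        K2 ^ s * geo (j - s) + K2 ^ j * (1 + K2 * geo (e - j - 1)) := by
      rw [h7]
      have : K2 ^ j = K2 ^ s * K2 ^ (j - s) := by rw [← pow_add]; congr 1; omega
      rw [this]; ring
    have h10 : K2 ^ s * geo (j - s) < K2 ^ j := by
      have : K2 ^ j = K2 ^ s * K2 ^ (j - s) := by rw [← pow_add]; congr 1; omega
      rw [this]
      exact Nat.mul_lt_mul_of_pos_left (geo_lt _) (pow_pos K2_pos s)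
    rw [h6, h9, Nat.testBit_eq_decide_div_mod_eq]
    have h11 : 2 ^ (144 * j + 143) = 2 ^ 143 * K2 ^ j := by
      rw [K2_pow, pow_add]; ring
    rw [h11, Nat.mul_div_mul_left _ _ (by positivity), Nat.add_mul_div_left _ _
      (pow_pos K2_pos j), Nat.div_eq_of_lt h10, zero_add]
    have h12 : K2 = 2 * 2 ^ 143 := by norm_num [K2]
    have h13 : (1 + K2 * geo (e - j - 1)) % 2 = 1 := by
      rw [h12, mul_assoc]; omega
    rw [h13]; rfl
  have h5 : (Nat.land R (2 ^ 143 * (one e - one s))).testBit (144 * j + 143) = true := by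
    rw [h3]; exact h4
  change (R &&& (2 ^ 143 * (one e - one s))).testBit (144 * j + 143) = true at h5
  rw [Nat.testBit_and, Bool.and_eq_true] at h5
  exact h5.1


end LA

theorem one_eq {i : ℕ} (h : i ≤ 64) : one i = ∑ j ∈ range i, K2 ^ j := LA.one_geo h

theorem one_sub {p r : ℕ} (h : p ≤ r) (hr : r ≤ 64) :
    Nat.sub (one r) (one p) = ∑ j ∈ Ico p r, K2 ^ j := by
  rw [one_eq hr, one_eq (h.trans hr)]
  have h1 := Finset.sum_range_add_sum_Ico (fun j => K2 ^ j) h
  change (∑ j ∈ range r, K2 ^ j) - (∑ j ∈ range p, K2 ^ j) = _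
  rw [← h1]
  exact Nat.add_sub_cancel_left _ _

theorem one_sub' {p r : ℕ} (h : r < p) (hp : p ≤ 64) : Nat.sub (one r) (one p) = 0 := by
  rw [one_eq hp, one_eq (h.le.trans hp)]
  have h1 := Finset.sum_range_add_sum_Ico (fun j => K2 ^ j) h.le
  change (∑ j ∈ range r, K2 ^ j) - (∑ j ∈ range p, K2 ^ j) = _
  omega

theorem pack_digit {r : ℕ} {v : ℕ → ℕ} (hv : ∀ j < r, v j < K2) {i : ℕ} (hi : i < r) :
    Nat.mod (Nat.shiftRight (pack r v) (Nat.mul 144 i)) K2 = v i :=
  LA.ent_sum v r hv i hi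

theorem pack_testBit {r : ℕ} {v : ℕ → ℕ} (hv : ∀ j < r, v j < K2) {i : ℕ} (hi : i < r) :
    (pack r v).testBit (144 * i + 143) = true ↔ 2 ^ 143 ≤ v i := by
  have h1 : LA.ent (pack r v) i = v i := LA.ent_sum v r hv i hi
  rw [LA.testBit_ent, h1]
  constructor
  · exact LA.bit_large
  · intro h
    have h2 := hv i hi
    have h3 : K2 = 2 ^ 144 := K2_eq
    rw [h3] at h2
    rw [Nat.testBit_eq_decide_div_mod_eq]
    have h4 : v i / 2 ^ 143 = 1 := by
      apply Nat.div_eq_of_lt_le
      · omega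
      · omega
    rw [h4]
    rfl

/-- entries from `s` to `e - 1` have the highest bit -/
theorem seg_sound {r : ℕ} {v : ℕ → ℕ} (hv : ∀ j < r, v j < K2) (hr : r ≤ 63) {s e : ℕ}
    (he : e ≤ r) (h : seg (pack r v) s e = true) : ∀ j, s ≤ j → j < e → 2 ^ 143 ≤ v j := by
  intro j h1 h2
  exact (pack_testBit hv (h2.trans_le he)).mp
    (LA.seg_bit (h1.trans h2.le) (by omega) h h1 h2)

end Pool.Agent.Worm78
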