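import Pool.Agent.Worm78.LeafA1

/-!
# The rows of the check
-/

set_option autoImplicit false

namespace Pool.Agent.Worm78

open Finset

/-- the places of the fact `f` -/
def pa (G f : ℕ) : ℕ := low (Nat.shiftRight G (Nat.mul 12 f)) 6

/-- the places of the fact `f` -/
def pb (G f : ℕ) : ℕ := low (Nat.shiftRight G (Nat.add (Nat.mul 12 f) 6)) 6

/-- the interval `(i, j]` is excluded by two facts -/
def Exc (G i j : ℕ) : Prop :=
  (∃ f, (i < pb G f ∧ pb G f ≤ j) ∧ ¬ (i < pa G f ∧ pa G f ≤ j)) ∧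
  (∃ f, (i < pa G f ∧ pa G f ≤ j) ∧ ¬ (i < pb G f ∧ pb G f ≤ j))

private lemma exi_sound {i j1 j2 a b : ℕ} (h : exi i j1 j2 a b = true) {j : ℕ} (h1 : j1 ≤ j)
    (h2 : j < j2) : (i < b ∧ b ≤ j) ∧ ¬ (i < a ∧ a ≤ j) := by
  unfold exi at h
  simp only [Bool.and_eq_true, Bool.or_eq_true, Nat.blt_eq, Nat.ble_eq] at h
  omega

theorem row_sound {r : ℕ} {v : ℕ → ℕ} (hv : ∀ j < r, v j < K2) (hr : r ≤ 63) {G i : ℕ}
    {k : ℕ → Bool} (m : ℕ) : ∀ (n cur : ℕ), row (pack r v) r G i k m n cur = true →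
      (∀ j, cur ≤ j → j < r → 2 ^ 143 ≤ v j ∨ Exc G i j) ∧ ∃ n', k n' = true := by
  induction m with
  | zero =>
    intro n cur h
    have h' : cond (seg (pack r v) cur r) (k n) false = true := h
    rw [cond_iff] at h'
    exact ⟨fun j h1 h2 => Or.inl (seg_sound hv hr le_rfl h'.1 j h1 h2), n, h'.2⟩
  | succ m ih =>
    intro n cur h
    have h' : cond (Nat.ble cur (low n 6)) (cond (Nat.ble (low n 6) (low (Nat.shiftRight n 6) 6))
        (cond (Nat.ble (low (Nat.shiftRight n 6) 6) r)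
        (cond (seg (pack r v) cur (low n 6))
        (cond (exi i (low n 6) (low (Nat.shiftRight n 6) 6)
          (pa G (low (Nat.shiftRight n 12) 6)) (pb G (low (Nat.shiftRight n 12) 6)))
        (cond (exi i (low n 6) (low (Nat.shiftRight n 6) 6)
          (pb G (low (Nat.shiftRight n 18) 6)) (pa G (low (Nat.shiftRight n 18) 6)))
          (row (pack r v) r G i k m (Nat.shiftRight n 24) (low (Nat.shiftRight n 6) 6))
          false) false) false) false) false) false = true := h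
    simp only [cond_iff] at h'
    obtain ⟨h1, h2, h3, h4, h5, h6, h7⟩ := h'
    obtain ⟨h8, h9⟩ := ih _ _ h7
    rw [Nat.ble_eq] at h1 h2 h3
    refine ⟨fun j hj1 hj2 => ?_, h9⟩
    by_cases c1 : j < low n 6
    · exact Or.inl (seg_sound hv hr (h2.trans h3) h4 j hj1 c1)
    · by_cases c2 : j < low (Nat.shiftRight n 6) 6
      · right
        exact ⟨⟨_, exi_sound h5 (not_lt.1 c1) c2⟩, ⟨_, exi_sound h6 (not_lt.1 c1) c2⟩⟩
      · exact h8 j (not_lt.1 c2) hj2

private lemma squ_aux {r : ℕ} {x y : ℕ → ℕ} (hx : ∀ j < r, x j < K2) (hy : ∀ j < r, y j < K2)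
    (m : ℕ) : ∀ i, i + m ≤ r → squ (pack r x) (pack r y) m i =
      ∑ j ∈ range m, (x (i + j) * x (i + j) + y (i + j) * y (i + j)) * K2 ^ (i + j) := by
  induction m with
  | zero => intro i _; rfl
  | succ m ih =>
    intro i him
    have h : squ (pack r x) (pack r y) (m + 1) i =
      (Nat.mod (Nat.shiftRight (pack r x) (Nat.mul 144 i)) K2 *
        Nat.mod (Nat.shiftRight (pack r x) (Nat.mul 144 i)) K2 +
        Nat.mod (Nat.shiftRight (pack r y) (Nat.mul 144 i)) K2 *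
        Nat.mod (Nat.shiftRight (pack r y) (Nat.mul 144 i)) K2) * K2 ^ i +
        squ (pack r x) (pack r y) m (i + 1) := rfl
    rw [h, pack_digit hx (by omega), pack_digit hy (by omega), ih (i + 1) (by omega),
      sum_range_succ', add_comm]
    congr 1
    refine sum_congr rfl fun j _ => ?_
    rw [show i + 1 + j = i + (j + 1) by ring]

theorem squ_eq {r : ℕ} {x y : ℕ → ℕ} (hx : ∀ j < r, x j < K2) (hy : ∀ j < r, y j < K2) (hr : r ≤ 63) :
    squ (pack r x) (pack r y) r 0 = pack r (fun j => x j * x j + y j * y j) := by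
  rw [squ_aux hx hy r 0 (by omega)]
  unfold pack
  refine sum_congr rfl fun j _ => ?_
  rw [zero_add]

private lemma K143 : (11150372599265311570767859136324180752990208 : ℕ) = 2 ^ 143 := by norm_num

/-- the row vector -/
private def rv (x y : ℕ → ℕ) (B i j : ℕ) : ℕ :=
  2 * (x i * x j + y i * y j) + (B + 2 ^ 143 - (x i * x i + y i * y i)) -
    (x j * x j + y j * y j)

private lemma rv_cast {x y : ℕ → ℕ} {B i j : ℕ} (hxi : x i ≤ 2 ^ 70) (hyi : y i ≤ 2 ^ 70)
    (hxj : x j ≤ 2 ^ 70) (hyj : y j ≤ 2 ^ 70) :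
    x j * x j + y j * y j ≤ 2 * (x i * x j + y i * y j) +
      (B + 2 ^ 143 - (x i * x i + y i * y i)) ∧
    (rv x y B i j : ℤ) = 2 ^ 143 + B - (((x i : ℤ) - x j) ^ 2 + ((y i : ℤ) - y j) ^ 2) := by
  have h1 : x i * x i ≤ 2 ^ 70 * 2 ^ 70 := Nat.mul_le_mul hxi hxi
  have h2 : y i * y i ≤ 2 ^ 70 * 2 ^ 70 := Nat.mul_le_mul hyi hyi
  have h3 : x i * x i + y i * y i ≤ B + 2 ^ 143 := by
    have : (2 : ℕ) ^ 70 * 2 ^ 70 + 2 ^ 70 * 2 ^ 70 ≤ 2 ^ 143 := by norm_num
    omega
  have e1 : (((x i : ℤ) - x j) ^ 2 + ((y i : ℤ) - y j) ^ 2) ≤ 2 ^ 143 := by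
    have a1 : (0 : ℤ) ≤ x i := by positivity
    have a2 : (0 : ℤ) ≤ y i := by positivity
    have a3 : (0 : ℤ) ≤ x j := by positivity
    have a4 : (0 : ℤ) ≤ y j := by positivity
    have b1 : (x i : ℤ) ≤ 2 ^ 70 := by exact_mod_cast hxi
    have b2 : (y i : ℤ) ≤ 2 ^ 70 := by exact_mod_cast hyi
    have b3 : (x j : ℤ) ≤ 2 ^ 70 := by exact_mod_cast hxj
    have b4 : (y j : ℤ) ≤ 2 ^ 70 := by exact_mod_cast hyj
    have c1 : ((x i : ℤ) - x j) ^ 2 ≤ (2 ^ 70) ^ 2 := by
      apply sq_le_sq'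
      · linarith
      · linarith
    have c2 : ((y i : ℤ) - y j) ^ 2 ≤ (2 ^ 70) ^ 2 := by
      apply sq_le_sq'
      · linarith
      · linarith
    have : ((2 : ℤ) ^ 70) ^ 2 + (2 ^ 70) ^ 2 ≤ 2 ^ 143 := by norm_num
    linarith
  have hc : ((B + 2 ^ 143 - (x i * x i + y i * y i) : ℕ) : ℤ) =
      B + 2 ^ 143 - (x i * x i + y i * y i) := by
    rw [Nat.cast_sub h3]; push_cast; ring
  have h4 : x j * x j + y j * y j ≤ 2 * (x i * x j + y i * y j) +
      (B + 2 ^ 143 - (x i * x i + y i * y i)) := by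
    zify
    rw [hc]
    have hB0 : (0 : ℤ) ≤ B := by positivity
    nlinarith [e1]
  refine ⟨h4, ?_⟩
  unfold rv
  rw [Nat.cast_sub h4, Nat.cast_add, hc]
  push_cast
  ring

private lemma rv_pack {r : ℕ} {x y : ℕ → ℕ} (hr : r ≤ 63) (hx : ∀ j < r, x j ≤ 2 ^ 70)
    (hy : ∀ j < r, y j ≤ 2 ^ 70) {B i : ℕ} (hi : i < r) :
    (2 * (x i * pack r x + y i * pack r y) +
      (B + 2 ^ 143 - (x i * x i + y i * y i)) * one r) -
      pack r (fun j => x j * x j + y j * y j) = pack r (rv x y B i) := by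
  have h : pack r (rv x y B i) + pack r (fun j => x j * x j + y j * y j) =
      2 * (x i * pack r x + y i * pack r y) +
      (B + 2 ^ 143 - (x i * x i + y i * y i)) * one r := by
    rw [one_eq (by omega)]
    unfold pack
    rw [← sum_add_distrib, mul_sum, mul_sum, mul_sum, ← sum_add_distrib, mul_sum,
      ← sum_add_distrib]
    refine sum_congr rfl fun j hj => ?_
    have hj' := mem_range.1 hj
    have h4 := (rv_cast (B := B) (hx i hi) (hy i hi) (hx j hj') (hy j hj')).1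
    have h5 : rv x y B i j + (x j * x j + y j * y j) = 2 * (x i * x j + y i * y j) +
        (B + 2 ^ 143 - (x i * x i + y i * y i)) := Nat.sub_add_cancel h4
    rw [← add_mul, h5]
    ring
  omega

private lemma rows_aux {r : ℕ} (hr : r ≤ 63) {x y : ℕ → ℕ} (hx : ∀ j < r, x j ≤ 2 ^ 70)
    (hy : ∀ j < r, y j ≤ 2 ^ 70) {B G : ℕ} (hB : B ≤ 2 ^ 116) (m : ℕ) : ∀ (i0 n : ℕ), i0 + m ≤ r →
    rows (pack r x) (pack r y) (pack r (fun j => x j * x j + y j * y j)) B r G m i0 n = true →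
    ∀ i j, i0 ≤ i → i < i0 + m → i < j → j < r →
      ((x i : ℤ) - x j) ^ 2 + ((y i : ℤ) - y j) ^ 2 ≤ B ∨ Exc G i j := by
  have hxK : ∀ j < r, x j < K2 := fun j hj =>
    lt_of_le_of_lt (hx j hj) (by norm_num [K2])
  have hyK : ∀ j < r, y j < K2 := fun j hj =>
    lt_of_le_of_lt (hy j hj) (by norm_num [K2])
  induction m with
  | zero => intro i0 n _ _ i j h1 h2; omega
  | succ m ih =>
    intro i0 n him h
    have h' : row ((2 * (Nat.mod (Nat.shiftRight (pack r x) (Nat.mul 144 i0)) K2 * pack r x +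
          Nat.mod (Nat.shiftRight (pack r y) (Nat.mul 144 i0)) K2 * pack r y) +
        (B + 11150372599265311570767859136324180752990208 -
          (Nat.mod (Nat.shiftRight (pack r x) (Nat.mul 144 i0)) K2 *
            Nat.mod (Nat.shiftRight (pack r x) (Nat.mul 144 i0)) K2 +
            Nat.mod (Nat.shiftRight (pack r y) (Nat.mul 144 i0)) K2 *
            Nat.mod (Nat.shiftRight (pack r y) (Nat.mul 144 i0)) K2)) * one r) -
        pack r (fun j => x j * x j + y j * y j)) r G i0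
        (rows (pack r x) (pack r y) (pack r (fun j => x j * x j + y j * y j)) B r G m (i0 + 1))
        (low n 3) (Nat.shiftRight n 3) (i0 + 1) = true := h
    rw [pack_digit hxK (by omega), pack_digit hyK (by omega), K143,
      rv_pack hr hx hy (by omega : i0 < r)] at h'
    have hi0 : i0 < r := by omega
    have hv : ∀ j < r, rv x y B i0 j < K2 := by
      intro j hj
      have h1 := (rv_cast (B := B) (hx i0 hi0) (hy i0 hi0) (hx j hj) (hy j hj)).2
      have h2 : (rv x y B i0 j : ℤ) < (K2 : ℕ) := by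
        rw [h1]
        have h3 : (B : ℤ) ≤ 2 ^ 116 := by exact_mod_cast hB
        have h4 : ((K2 : ℕ) : ℤ) = 2 ^ 144 := by rw [K2_eq]; norm_num
        rw [h4]
        have h5 := sq_nonneg ((x i0 : ℤ) - x j)
        have h6 := sq_nonneg ((y i0 : ℤ) - y j)
        have h7 : (2 : ℤ) ^ 143 + 2 ^ 116 < 2 ^ 144 := by norm_num
        linarith
      exact_mod_cast h2
    obtain ⟨h1, n', h2⟩ := row_sound hv hr _ _ _ h'
    intro i j hi1 hi2 hij hj
    rcases Nat.eq_or_lt_of_le hi1 with he | hlt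
    · subst he
      rcases h1 j hij hj with h3 | h3
      · left
        have h4 := (rv_cast (B := B) (hx i0 hi0) (hy i0 hi0) (hx j hj) (hy j hj)).2
        have h5 : (2 : ℤ) ^ 143 ≤ rv x y B i0 j := by exact_mod_cast h3
        rw [h4] at h5
        linarith
      · exact Or.inr h3
    · exact ih (i0 + 1) n' (by omega) h2 i j hlt (by omega) hij hj

/-- the integer distances of the packed points are small or excluded -/
theorem rows_sound {r : ℕ} (hr : r ≤ 63) {x y : ℕ → ℕ} (hx : ∀ j < r, x j ≤ 2 ^ 70)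
    (hy : ∀ j < r, y j ≤ 2 ^ 70) {B G n : ℕ} (hB : B ≤ 2 ^ 116)
    (h : rows (pack r x) (pack r y) (squ (pack r x) (pack r y) r 0) B r G r 0 n = true) :
    ∀ i j, i < j → j < r →
      ((x i : ℤ) - x j) ^ 2 + ((y i : ℤ) - y j) ^ 2 ≤ B ∨ Exc G i j := by
  rw [squ_eq (fun j hj => lt_of_le_of_lt (hx j hj) (by norm_num [K2]))
    (fun j hj => lt_of_le_of_lt (hy j hj) (by norm_num [K2])) hr] at h
  intro i j hij hj
  exact rows_aux hr hx hy hB r 0 n (by omega) h i j (Nat.zero_le _) (by omega) hij hj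

end Pool.Agent.Worm78
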