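import Pool.Agent.Worm78.LeafA1
import Pool.Agent.Worm78.GeoL

/-!
# The accumulators
-/

set_option autoImplicit false

namespace Pool.Agent.Worm78

open Finset

/-- packed vector with integer entries -/
def packZ (r : ℕ) (v : ℕ → ℤ) : ℤ := ∑ j ∈ range r, v j * (K2 : ℤ) ^ j

/-- the accumulators contain the integer weights `(wx, wy)` with coefficients `cc` -/
structure Rep (r : ℕ) (A : Acc) (wx wy : ℕ → ℤ) (cc : ℕ → ℕ) : Prop where
  x : (A.x : ℤ) = packZ r (fun j => ∑ p ∈ range (j + 1), (wx p + 2 ^ 21 * cc p))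
  y : (A.y : ℤ) = packZ r (fun j => ∑ p ∈ range (j + 1), (wy p + 2 ^ 21 * cc p))
  c : (A.c : ℤ) = packZ r (fun j => ∑ p ∈ range (j + 1), (cc p : ℤ))
  s : A.s = ∑ p ∈ range r, cc p
  bx : ∀ p, |wx p| ≤ 2 ^ 21 * cc p
  by' : ∀ p, |wy p| ≤ 2 ^ 21 * cc p

theorem Rep.zero (r : ℕ) : Rep r ⟨0, 0, 0, 0⟩ (fun _ => 0) (fun _ => 0) (fun _ => 0) := by
  constructor <;> simp [packZ]

namespace LB

theorem packZ_add (r : ℕ) (u v : ℕ → ℤ) :
    packZ r u + packZ r v = packZ r (fun j => u j + v j) := by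
  unfold packZ
  rw [← sum_add_distrib]
  exact sum_congr rfl (fun j _ => by ring)

theorem packZ_mul (r : ℕ) (a : ℤ) (v : ℕ → ℤ) :
    a * packZ r v = packZ r (fun j => a * v j) := by
  unfold packZ
  rw [mul_sum]
  exact sum_congr rfl (fun j _ => by ring)

theorem packZ_congr {r : ℕ} {u v : ℕ → ℤ} (h : ∀ j < r, u j = v j) : packZ r u = packZ r v := by
  unfold packZ
  exact sum_congr rfl (fun j hj => by rw [h j (mem_range.1 hj)])

theorem one_Z {r : ℕ} (hr : r ≤ 63) : ((one r : ℕ) : ℤ) = packZ r (fun _ => 1) := by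
  rw [LA.one_geo (by omega)]
  unfold LA.geo packZ
  push_cast
  exact sum_congr rfl (fun j _ => by ring)

theorem geo_mono {p r : ℕ} (h : p ≤ r) : LA.geo p ≤ LA.geo r := by
  unfold LA.geo
  exact sum_le_sum_of_subset (range_mono h)

theorem one_sub_Z {p r : ℕ} (hr : r ≤ 63) (hp : p < r) :
    ((Nat.sub (one r) (one p) : ℕ) : ℤ) = packZ r (fun j => if p ≤ j then 1 else 0) := by
  show ((one r - one p : ℕ) : ℤ) = _
  rw [LA.one_geo (by omega), LA.one_geo (by omega), Nat.cast_sub (geo_mono hp.le)]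
  have h1 : LA.geo r = LA.geo p + ∑ j ∈ Ico p r, K2 ^ j := by
    unfold LA.geo
    rw [sum_range_add_sum_Ico _ hp.le]
  rw [h1]
  unfold packZ
  rw [← sum_range_add_sum_Ico _ hp.le]
  have h2 : ∑ j ∈ range p, (if p ≤ j then (1 : ℤ) else 0) * (K2 : ℤ) ^ j = 0 := by
    refine sum_eq_zero (fun j hj => ?_)
    rw [if_neg (by have := mem_range.1 hj; omega)]
    ring
  have h3 : ∑ j ∈ Ico p r, (if p ≤ j then (1 : ℤ) else 0) * (K2 : ℤ) ^ j
      = ∑ j ∈ Ico p r, (K2 : ℤ) ^ j := by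
    refine sum_congr rfl (fun j hj => ?_)
    rw [if_pos (mem_Ico.1 hj).1]
    ring
  rw [h2, h3]
  push_cast
  ring

/-- the sum of a single entry -/
theorem sum_ite (j p : ℕ) (a : ℤ) :
    ∑ q ∈ range (j + 1), (if q = p then a else 0) = if p ≤ j then a else 0 := by
  rw [sum_ite_eq']
  by_cases h : p ≤ j
  · rw [if_pos h, if_pos (mem_range.2 (by omega))]
  · rw [if_neg h, if_neg (by rw [mem_range]; omega)]

theorem tre_cast (k : ℕ) :
    ((Nat.land (Nat.shiftRight tab (Nat.mul 48 k)) 16777215 : ℕ) : ℤ) = tre k + 2 ^ 21 := by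
  have h : Nat.land (Nat.shiftRight tab (Nat.mul 48 k)) 16777215
      = (tab >>> (48 * k)) &&& (2 ^ 24 - 1) := rfl
  rw [h]
  unfold tre
  ring

theorem tim_cast (k : ℕ) :
    ((Nat.land (Nat.shiftRight tab (Nat.add (Nat.mul 48 k) 24)) 16777215 : ℕ) : ℤ)
      = tim k + 2 ^ 21 := by
  have h : Nat.land (Nat.shiftRight tab (Nat.add (Nat.mul 48 k) 24)) 16777215
      = (tab >>> (48 * k + 24)) &&& (2 ^ 24 - 1) := rfl
  rw [h]
  unfold tim
  ring

theorem int_bound {a : ℝ} {t : ℤ} (ha : |a| ≤ 1) (h : |2 ^ 20 * a - t| ≤ 1) :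
    |t| ≤ 2 ^ 20 + 1 := by
  have h1 := abs_le.1 ha
  have h2 := abs_le.1 h
  have h3 : (t : ℝ) ≤ 2 ^ 20 + 1 := by nlinarith [h1.1, h1.2, h2.1, h2.2]
  have h4 : -(2 ^ 20 + 1) ≤ (t : ℝ) := by nlinarith [h1.1, h1.2, h2.1, h2.2]
  rw [abs_le]
  constructor
  · exact_mod_cast h4
  · exact_mod_cast h3

theorem tre_bound' {k : ℕ} (hk : k < NN) : |tre k| ≤ 2 ^ 20 + 1 ∧ |tim k| ≤ 2 ^ 20 + 1 := by
  obtain ⟨h1, h2⟩ := tab_close k hk
  have hn := norm_dir k
  refine ⟨int_bound ?_ h1, int_bound ?_ h2⟩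
  · rw [← hn]; exact Complex.abs_re_le_norm _
  · rw [← hn]; exact Complex.abs_im_le_norm _

theorem coord {r : ℕ} (hr : r ≤ 63) {X : ℕ} {wx : ℕ → ℤ} {cc : ℕ → ℕ}
    (h : (X : ℤ) = packZ r (fun j => ∑ p ∈ range (j + 1), (wx p + 2 ^ 21 * cc p))) {p : ℕ}
    (hp : p < r) (c L : ℕ) (t : ℤ) (hL : (L : ℤ) = t + 2 ^ 21) :
    ((Nat.add X (Nat.mul (Nat.mul c L) (Nat.sub (one r) (one p))) : ℕ) : ℤ)
      = packZ r (fun j => ∑ q ∈ range (j + 1), ((wx q + if q = p then c * t else 0)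
        + 2 ^ 21 * ((cc q + if q = p then c else 0 : ℕ) : ℤ))) := by
  have e1 : ((Nat.add X (Nat.mul (Nat.mul c L) (Nat.sub (one r) (one p))) : ℕ) : ℤ)
      = (X : ℤ) + (c * L) * ((Nat.sub (one r) (one p) : ℕ) : ℤ) := by
    show ((X + c * L * (Nat.sub (one r) (one p)) : ℕ) : ℤ) = _
    push_cast
    ring
  rw [e1, h, one_sub_Z hr hp, packZ_mul, packZ_add, hL]
  refine packZ_congr (fun j _ => ?_)
  have e2 : ∑ q ∈ range (j + 1), ((wx q + if q = p then (c : ℤ) * t else 0)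
        + 2 ^ 21 * ((cc q + if q = p then c else 0 : ℕ) : ℤ))
      = ∑ q ∈ range (j + 1), (wx q + 2 ^ 21 * (cc q : ℤ))
        + ∑ q ∈ range (j + 1), (if q = p then (c : ℤ) * t + 2 ^ 21 * c else 0) := by
    rw [← sum_add_distrib]
    refine sum_congr rfl (fun q _ => ?_)
    by_cases hq : q = p
    · simp only [if_pos hq]; push_cast; ring
    · simp only [if_neg hq]; push_cast; ring
  rw [e2, sum_ite]
  by_cases hpj : p ≤ j
  · simp only [if_pos hpj]; ring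
  · simp only [if_neg hpj]; ring

theorem coordc {r : ℕ} (hr : r ≤ 63) {X : ℕ} {cc : ℕ → ℕ}
    (h : (X : ℤ) = packZ r (fun j => ∑ p ∈ range (j + 1), (cc p : ℤ))) {p : ℕ}
    (hp : p < r) (c : ℕ) :
    ((Nat.add X (Nat.mul c (Nat.sub (one r) (one p))) : ℕ) : ℤ)
      = packZ r (fun j => ∑ q ∈ range (j + 1), ((cc q + if q = p then c else 0 : ℕ) : ℤ)) := by
  have e1 : ((Nat.add X (Nat.mul c (Nat.sub (one r) (one p))) : ℕ) : ℤ)
      = (X : ℤ) + c * ((Nat.sub (one r) (one p) : ℕ) : ℤ) := by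
    show ((X + c * (Nat.sub (one r) (one p)) : ℕ) : ℤ) = _
    push_cast
    ring
  rw [e1, h, one_sub_Z hr hp, packZ_mul, packZ_add]
  refine packZ_congr (fun j _ => ?_)
  have e2 : ∑ q ∈ range (j + 1), ((cc q + if q = p then c else 0 : ℕ) : ℤ)
      = ∑ q ∈ range (j + 1), (cc q : ℤ)
        + ∑ q ∈ range (j + 1), (if q = p then (c : ℤ) else 0) := by
    rw [← sum_add_distrib]
    refine sum_congr rfl (fun q _ => ?_)
    by_cases hq : q = p
    · simp only [if_pos hq]; push_cast; ring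
    · simp only [if_neg hq]; push_cast; ring
  rw [e2, sum_ite]
  by_cases hpj : p ≤ j
  · simp only [if_pos hpj]; ring
  · simp only [if_neg hpj]; ring

theorem coords {r s : ℕ} {cc : ℕ → ℕ} (h : s = ∑ p ∈ range r, cc p) {p : ℕ} (hp : p < r)
    (c : ℕ) : Nat.add s c = ∑ q ∈ range r, (cc q + if q = p then c else 0) := by
  rw [sum_add_distrib, ← h, sum_ite_eq', if_pos (mem_range.2 hp)]
  rfl

theorem boundw {wx : ℕ → ℤ} {cc : ℕ → ℕ} (h : ∀ p, |wx p| ≤ 2 ^ 21 * cc p) (p c : ℕ) {t : ℤ}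
    (ht : |t| ≤ 2 ^ 21) (q : ℕ) :
    |wx q + if q = p then c * t else 0| ≤ 2 ^ 21 * ((cc q + if q = p then c else 0 : ℕ) : ℤ) := by
  have hc : (0 : ℤ) ≤ c := Int.natCast_nonneg c
  by_cases hq : q = p
  · simp only [if_pos hq]
    refine (abs_add_le _ _).trans ?_
    rw [abs_mul, abs_of_nonneg hc]
    push_cast
    have := h q
    nlinarith [mul_le_mul_of_nonneg_left ht hc]
  · simp only [if_neg hq, add_zero]
    exact h q

theorem fin_coord {r : ℕ} (hr : r ≤ 63) {X C s : ℕ} {wx : ℕ → ℤ} {cc : ℕ → ℕ}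
    (hx : (X : ℤ) = packZ r (fun j => ∑ p ∈ range (j + 1), (wx p + 2 ^ 21 * cc p)))
    (hc : (C : ℤ) = packZ r (fun j => ∑ p ∈ range (j + 1), (cc p : ℤ)))
    (hs : s = ∑ p ∈ range r, cc p) (hb : ∀ p, |wx p| ≤ 2 ^ 21 * cc p) (hs' : s ≤ 2 ^ 48) :
    ∃ x : ℕ → ℕ, (∀ j < r, x j ≤ 2 ^ 70) ∧
      (∀ j < r, (x j : ℤ) = ∑ p ∈ range (j + 1), wx p + 2 ^ 21 * s) ∧
      Nat.sub (Nat.add X (Nat.mul (Nat.mul 2097152 s) (one r))) (Nat.mul 2097152 C) =
        pack r x := by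
  have key : ∀ j < r, |∑ p ∈ range (j + 1), wx p| ≤ 2 ^ 21 * (s : ℤ) := by
    intro j hj
    refine (abs_sum_le_sum_abs _ _).trans ?_
    refine (sum_le_sum (fun p _ => hb p)).trans ?_
    rw [← mul_sum, hs]
    push_cast
    refine mul_le_mul_of_nonneg_left ?_ (by norm_num)
    exact sum_le_sum_of_subset_of_nonneg (range_mono (by omega))
      (fun p _ _ => Int.natCast_nonneg _)
  have hval : ∀ j < r, (((∑ p ∈ range (j + 1), wx p + 2 ^ 21 * (s : ℤ)).toNat : ℕ) : ℤ)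
      = ∑ p ∈ range (j + 1), wx p + 2 ^ 21 * s := by
    intro j hj
    rw [Int.toNat_of_nonneg]
    have := (abs_le.1 (key j hj)).1
    linarith
  refine ⟨fun j => (∑ p ∈ range (j + 1), wx p + 2 ^ 21 * (s : ℤ)).toNat, ?_, hval, ?_⟩
  · intro j hj
    have h1 := (abs_le.1 (key j hj)).2
    have h2 := hval j hj
    have h3 : (s : ℤ) ≤ 2 ^ 48 := by exact_mod_cast hs'
    have h4 : (((∑ p ∈ range (j + 1), wx p + 2 ^ 21 * (s : ℤ)).toNat : ℕ) : ℤ)
        ≤ ((2 ^ 70 : ℕ) : ℤ) := by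
      rw [h2]
      push_cast
      linarith
    exact_mod_cast h4
  · show X + 2097152 * s * one r - 2097152 * C = _
    have e : (X : ℤ) + 2097152 * s * (one r : ℕ)
        = 2097152 * C + (pack r (fun j => (∑ p ∈ range (j + 1), wx p + 2 ^ 21 * (s : ℤ)).toNat)
          : ℕ) := by
      have hp : ((pack r (fun j => (∑ p ∈ range (j + 1), wx p + 2 ^ 21 * (s : ℤ)).toNat) : ℕ) : ℤ)
          = packZ r (fun j => ∑ p ∈ range (j + 1), wx p + 2 ^ 21 * s) := by
        unfold pack packZ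
        rw [Nat.cast_sum]
        refine sum_congr rfl (fun j hj => ?_)
        rw [Nat.cast_mul, Nat.cast_pow, hval j (mem_range.1 hj)]
      rw [hp, hx, hc, one_Z hr, packZ_mul, packZ_mul, packZ_add, packZ_add]
      refine packZ_congr (fun j _ => ?_)
      rw [sum_add_distrib, ← mul_sum]
      ring
    have e' : X + 2097152 * s * one r
        = 2097152 * C + pack r (fun j => (∑ p ∈ range (j + 1), wx p + 2 ^ 21 * (s : ℤ)).toNat) := by
      exact_mod_cast e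
    rw [e', Nat.add_sub_cancel_left]

theorem addp_x (r c k p : ℕ) (A : Acc) : (addp r c k p A).x =
    Nat.add A.x (Nat.mul (Nat.mul c (Nat.land (Nat.shiftRight tab (Nat.mul 48 k)) 16777215))
      (Nat.sub (one r) (one p))) := by simp only [Worm78.addp]

theorem addp_y (r c k p : ℕ) (A : Acc) : (addp r c k p A).y =
    Nat.add A.y (Nat.mul (Nat.mul c (Nat.land (Nat.shiftRight tab (Nat.add (Nat.mul 48 k) 24))
      16777215)) (Nat.sub (one r) (one p))) := by simp only [Worm78.addp]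

theorem addp_c (r c k p : ℕ) (A : Acc) : (addp r c k p A).c =
    Nat.add A.c (Nat.mul c (Nat.sub (one r) (one p))) := by simp only [Worm78.addp]

theorem addp_s (r c k p : ℕ) (A : Acc) : (addp r c k p A).s = Nat.add A.s c := by
  simp only [Worm78.addp]

theorem subp_x (r c k p : ℕ) (A : Acc) : (subp r c k p A).x =
    Nat.add A.x (Nat.mul (Nat.mul c (Nat.sub 4194304 (Nat.land (Nat.shiftRight tab (Nat.mul 48 k))
      16777215))) (Nat.sub (one r) (one p))) := by simp only [Worm78.subp]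

theorem subp_y (r c k p : ℕ) (A : Acc) : (subp r c k p A).y =
    Nat.add A.y (Nat.mul (Nat.mul c (Nat.sub 4194304 (Nat.land (Nat.shiftRight tab
      (Nat.add (Nat.mul 48 k) 24)) 16777215))) (Nat.sub (one r) (one p))) := by
  simp only [Worm78.subp]

theorem subp_c (r c k p : ℕ) (A : Acc) : (subp r c k p A).c =
    Nat.add A.c (Nat.mul c (Nat.sub (one r) (one p))) := by simp only [Worm78.subp]

theorem subp_s (r c k p : ℕ) (A : Acc) : (subp r c k p A).s = Nat.add A.s c := by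
  simp only [Worm78.subp]

end LB

theorem tre_bound {k : ℕ} (hk : k < NN) : |tre k| ≤ 2 ^ 21 ∧ |tim k| ≤ 2 ^ 21 := by
  obtain ⟨h1, h2⟩ := LB.tre_bound' hk
  constructor <;> linarith

theorem Rep.addp {r : ℕ} (hr : r ≤ 63) {A : Acc} {wx wy : ℕ → ℤ} {cc : ℕ → ℕ}
    (h : Rep r A wx wy cc) {k p : ℕ} (hk : k < NN) (hp : p < r) (c : ℕ) :
    Rep r (addp r c k p A) (fun j => wx j + if j = p then c * tre k else 0)
      (fun j => wy j + if j = p then c * tim k else 0) (fun j => cc j + if j = p then c else 0) := by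
  obtain ⟨b1, b2⟩ := tre_bound hk
  have f1 := LB.coord (X := A.x) hr h.x hp c
    (Nat.land (Nat.shiftRight tab (Nat.mul 48 k)) 16777215) (tre k) (LB.tre_cast k)
  have f2 := LB.coord (X := A.y) hr h.y hp c
    (Nat.land (Nat.shiftRight tab (Nat.add (Nat.mul 48 k) 24)) 16777215) (tim k) (LB.tim_cast k)
  have f3 := LB.coordc (X := A.c) hr h.c hp c
  have f4 := LB.coords (s := A.s) h.s hp c
  constructor
  · rw [LB.addp_x]; exact f1
  · rw [LB.addp_y]; exact f2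
  · rw [LB.addp_c]; exact f3
  · rw [LB.addp_s]; exact f4
  · exact LB.boundw h.bx p c b1
  · exact LB.boundw h.by' p c b2

theorem Rep.subp {r : ℕ} (hr : r ≤ 63) {A : Acc} {wx wy : ℕ → ℤ} {cc : ℕ → ℕ}
    (h : Rep r A wx wy cc) {k p : ℕ} (hk : k < NN) (hp : p < r) (c : ℕ) :
    Rep r (subp r c k p A) (fun j => wx j + if j = p then -(c * tre k) else 0)
      (fun j => wy j + if j = p then -(c * tim k) else 0)
      (fun j => cc j + if j = p then c else 0) := by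
  obtain ⟨b1, b2⟩ := tre_bound hk
  obtain ⟨d1, d2⟩ := LB.tre_bound' hk
  have hL : ∀ (L : ℕ) (t : ℤ), (L : ℤ) = t + 2 ^ 21 → |t| ≤ 2 ^ 20 + 1 →
      ((Nat.sub 4194304 L : ℕ) : ℤ) = -t + 2 ^ 21 := by
    intro L t h1 h2
    have h3 := (abs_le.1 h2).2
    have h4 : L ≤ 4194304 := by
      have : (L : ℤ) ≤ 4194304 := by rw [h1]; linarith
      exact_mod_cast this
    show ((4194304 - L : ℕ) : ℤ) = _
    rw [Nat.cast_sub h4, h1]
    push_cast
    ring
  have e1 : ∀ (w : ℕ → ℤ) (t : ℤ), (fun j => w j + if j = p then -((c : ℤ) * t) else 0)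
      = (fun j => w j + if j = p then (c : ℤ) * (-t) else 0) := by
    intro w t
    funext j
    rw [mul_neg]
  rw [e1, e1]
  have f1 := LB.coord (X := A.x) hr h.x hp c
    (Nat.sub 4194304 (Nat.land (Nat.shiftRight tab (Nat.mul 48 k)) 16777215)) (-tre k)
    (hL _ _ (LB.tre_cast k) d1)
  have f2 := LB.coord (X := A.y) hr h.y hp c
    (Nat.sub 4194304 (Nat.land (Nat.shiftRight tab (Nat.add (Nat.mul 48 k) 24)) 16777215))
    (-tim k) (hL _ _ (LB.tim_cast k) d2)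
  have f3 := LB.coordc (X := A.c) hr h.c hp c
  have f4 := LB.coords (s := A.s) h.s hp c
  constructor
  · rw [LB.subp_x]; exact f1
  · rw [LB.subp_y]; exact f2
  · rw [LB.subp_c]; exact f3
  · rw [LB.subp_s]; exact f4
  · exact LB.boundw h.bx p c (by rw [abs_neg]; exact b1)
  · exact LB.boundw h.by' p c (by rw [abs_neg]; exact b2)

/-- the end: after removing the offsets, the packed points are the partial sums plus
`2 ^ 21 * A.s` -/
theorem Rep.fin {r : ℕ} (hr : r ≤ 63) {A : Acc} {wx wy : ℕ → ℤ} {cc : ℕ → ℕ}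
    (h : Rep r A wx wy cc) (hs : A.s ≤ 2 ^ 48) :
    ∃ x y : ℕ → ℕ, (∀ j < r, x j ≤ 2 ^ 70) ∧ (∀ j < r, y j ≤ 2 ^ 70) ∧
      (∀ j < r, (x j : ℤ) = ∑ p ∈ range (j + 1), wx p + 2 ^ 21 * A.s) ∧
      (∀ j < r, (y j : ℤ) = ∑ p ∈ range (j + 1), wy p + 2 ^ 21 * A.s) ∧
      Nat.sub (Nat.add A.x (Nat.mul (Nat.mul 2097152 A.s) (one r))) (Nat.mul 2097152 A.c) =
        pack r x ∧
      Nat.sub (Nat.add A.y (Nat.mul (Nat.mul 2097152 A.s) (one r))) (Nat.mul 2097152 A.c) =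
        pack r y := by
  obtain ⟨x, x1, x2, x3⟩ := LB.fin_coord hr h.x h.c h.s h.bx hs
  obtain ⟨y, y1, y2, y3⟩ := LB.fin_coord hr h.y h.c h.s h.by' hs
  exact ⟨x, y, x1, y1, x2, y2, x3, y3⟩

end Pool.Agent.Worm78
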