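import Pool.Agent.Worm78.LeafB1

/-!
# The state with real weights
-/

set_option autoImplicit false

namespace Pool.Agent.Worm78

open Finset

/-- the state with real weights: error `E`, total vector `T`, value `V` -/
def Sta (P : ℕ → ℂ) (D : ℕ → ℕ) (r : ℕ) (A : Acc) (E : ℝ) (T : ℂ) (V : ℝ) : Prop :=
  ∃ (W : ℕ → ℂ) (wx wy : ℕ → ℤ) (cc : ℕ → ℕ), Rep r A wx wy cc ∧
    ∑ p ∈ range r, ‖(2 : ℂ) ^ 40 * W p - ((wx p : ℂ) + (wy p : ℂ) * Complex.I)‖ ≤ E ∧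
    ∑ p ∈ range r, W p = T ∧ ∑ p ∈ range r, ip (W p) (P (D p)) = V

theorem Sta.zero (P : ℕ → ℂ) (D : ℕ → ℕ) (r : ℕ) : Sta P D r ⟨0, 0, 0, 0⟩ 0 0 0 := by
  refine ⟨fun _ => 0, fun _ => 0, fun _ => 0, fun _ => 0, Rep.zero r, ?_, ?_, ?_⟩
  · simp
  · simp
  · simp [ip]

theorem Sta.mono {P : ℕ → ℂ} {D : ℕ → ℕ} {r : ℕ} {A : Acc} {E E' : ℝ} {T : ℂ} {V : ℝ}
    (h : Sta P D r A E T V) (hE : E ≤ E') : Sta P D r A E' T V := by
  obtain ⟨W, wx, wy, cc, h1, h2, h3, h4⟩ := h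
  exact ⟨W, wx, wy, cc, h1, h2.trans hE, h3, h4⟩

private lemma b2_dir {k : ℕ} (hk : k < NN) :
    ‖(2 : ℂ) ^ 20 * dir k - ((tre k : ℂ) + (tim k : ℂ) * Complex.I)‖ ≤ 1.4143 := by
  obtain ⟨h1, h2⟩ := tab_close k hk
  rw [Complex.norm_eq_sqrt_sq_add_sq]
  have e1 : ((2 : ℂ) ^ 20 * dir k - ((tre k : ℂ) + (tim k : ℂ) * Complex.I)).re =
      2 ^ 20 * (dir k).re - tre k := by
    have : (2 : ℂ) ^ 20 = ((2 ^ 20 : ℝ) : ℂ) := by push_cast; ring
    rw [this, Complex.sub_re, Complex.re_ofReal_mul]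
    simp
  have e2 : ((2 : ℂ) ^ 20 * dir k - ((tre k : ℂ) + (tim k : ℂ) * Complex.I)).im =
      2 ^ 20 * (dir k).im - tim k := by
    have : (2 : ℂ) ^ 20 = ((2 ^ 20 : ℝ) : ℂ) := by push_cast; ring
    rw [this, Complex.sub_im, Complex.im_ofReal_mul]
    simp
  rw [e1, e2, Real.sqrt_le_iff]
  refine ⟨by norm_num, ?_⟩
  have h3 : (2 ^ 20 * (dir k).re - tre k) ^ 2 ≤ 1 := by
    rw [← sq_abs]; nlinarith [abs_nonneg (2 ^ 20 * (dir k).re - (tre k : ℝ))]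
  have h4 : (2 ^ 20 * (dir k).im - tim k) ^ 2 ≤ 1 := by
    rw [← sq_abs]; nlinarith [abs_nonneg (2 ^ 20 * (dir k).im - (tim k : ℝ))]
  norm_num
  linarith

/-- the error of one summand -/
private lemma b2_err {k : ℕ} (hk : k < NN) {c : ℕ} {ρ δ : ℝ} (hc : |2 ^ 20 * ρ - c| ≤ δ) :
    ‖(2 : ℂ) ^ 40 * ((ρ : ℂ) * dir k) - ((c : ℂ) * ((tre k : ℂ) + (tim k : ℂ) * Complex.I))‖ ≤
      2 ^ 20 * δ + 1.4143 * c := by
  have h1 : (2 : ℂ) ^ 40 * ((ρ : ℂ) * dir k) - ((c : ℂ) * ((tre k : ℂ) + (tim k : ℂ) * Complex.I)) =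
      ((2 ^ 20 * ρ - c : ℝ) : ℂ) * ((2 : ℂ) ^ 20 * dir k) +
      (c : ℂ) * ((2 : ℂ) ^ 20 * dir k - ((tre k : ℂ) + (tim k : ℂ) * Complex.I)) := by
    push_cast
    ring
  rw [h1]
  refine (norm_add_le _ _).trans ?_
  rw [norm_mul, norm_mul, norm_mul, norm_dir, mul_one, Complex.norm_real, Real.norm_eq_abs,
    norm_pow, Complex.norm_ofNat, Complex.norm_natCast]
  have h2 := b2_dir hk
  have h3 : (0 : ℝ) ≤ c := Nat.cast_nonneg c
  have h4 : |2 ^ 20 * ρ - c| * (2 : ℝ) ^ 20 ≤ δ * 2 ^ 20 :=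
    mul_le_mul_of_nonneg_right hc (by positivity)
  have h5 := mul_le_mul_of_nonneg_left h2 h3
  exact (add_le_add h4 h5).trans (le_of_eq (by ring))

private lemma b2_sum_ite {r p : ℕ} (hp : p < r) {M : Type*} [AddCommMonoid M] (a : M) :
    ∑ j ∈ range r, (if j = p then a else 0) = a := by
  rw [Finset.sum_ite_eq' (range r) p (fun _ => a)]
  simp [hp]

private lemma b2_step {P : ℕ → ℂ} {D : ℕ → ℕ} {r : ℕ} {E E' : ℝ} {T : ℂ} {V : ℝ} {W : ℕ → ℂ}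
    {wx wy : ℕ → ℤ}
    (h2 : ∑ p ∈ range r, ‖(2 : ℂ) ^ 40 * W p - ((wx p : ℂ) + (wy p : ℂ) * Complex.I)‖ ≤ E)
    (h3 : ∑ p ∈ range r, W p = T) (h4 : ∑ p ∈ range r, ip (W p) (P (D p)) = V) {p : ℕ}
    (hp : p < r) (z : ℂ) (a b : ℤ)
    (hz : ‖(2 : ℂ) ^ 40 * z - ((a : ℂ) + (b : ℂ) * Complex.I)‖ ≤ E') :
    ∑ j ∈ range r, ‖(2 : ℂ) ^ 40 * (W j + if j = p then z else 0) -
      (((wx j + if j = p then a else 0 : ℤ) : ℂ) +
        ((wy j + if j = p then b else 0 : ℤ) : ℂ) * Complex.I)‖ ≤ E + E' ∧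
    ∑ j ∈ range r, (W j + if j = p then z else 0) = T + z ∧
    ∑ j ∈ range r, ip (W j + if j = p then z else 0) (P (D j)) = V + ip z (P (D p)) := by
  refine ⟨?_, ?_, ?_⟩
  · calc _ ≤ ∑ j ∈ range r, (‖(2 : ℂ) ^ 40 * W j - ((wx j : ℂ) + (wy j : ℂ) * Complex.I)‖ +
          if j = p then ‖(2 : ℂ) ^ 40 * z - ((a : ℂ) + (b : ℂ) * Complex.I)‖ else 0) := by
          refine sum_le_sum fun j _ => ?_
          by_cases hj : j = p
          · simp only [hj, if_true]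
            have : (2 : ℂ) ^ 40 * (W p + z) - (((wx p + a : ℤ) : ℂ) +
                ((wy p + b : ℤ) : ℂ) * Complex.I) =
                ((2 : ℂ) ^ 40 * W p - ((wx p : ℂ) + (wy p : ℂ) * Complex.I)) +
                ((2 : ℂ) ^ 40 * z - ((a : ℂ) + (b : ℂ) * Complex.I)) := by
              push_cast; ring
            rw [this]
            exact norm_add_le _ _
          · simp [hj]
      _ = ∑ j ∈ range r, ‖(2 : ℂ) ^ 40 * W j - ((wx j : ℂ) + (wy j : ℂ) * Complex.I)‖ +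
          ‖(2 : ℂ) ^ 40 * z - ((a : ℂ) + (b : ℂ) * Complex.I)‖ := by
          rw [sum_add_distrib, b2_sum_ite hp]
      _ ≤ E + E' := add_le_add h2 hz
  · rw [sum_add_distrib, b2_sum_ite hp, h3]
  · have h5 : ∀ j ∈ range r, ip (W j + if j = p then z else 0) (P (D j)) =
        ip (W j) (P (D j)) + if j = p then ip z (P (D p)) else 0 := by
      intro j _
      by_cases hj : j = p
      · simp only [hj, if_true]
        unfold ip
        simp only [Complex.add_re, Complex.add_im]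
        ring
      · simp [hj]
    rw [sum_congr rfl h5, sum_add_distrib, b2_sum_ite hp, h4]

/-- add `ρ` times the direction `k` at the place `p`; `c` is `2 ^ 20 * ρ` up to `δ` -/
theorem Sta.addp {P : ℕ → ℂ} {D : ℕ → ℕ} {r : ℕ} (hr : r ≤ 63) {A : Acc} {E : ℝ} {T : ℂ} {V : ℝ}
    (h : Sta P D r A E T V) {k p : ℕ} (hk : k < NN) (hp : p < r) {c : ℕ} {ρ δ : ℝ}
    (hc : |2 ^ 20 * ρ - c| ≤ δ) :
    Sta P D r (addp r c k p A) (E + 2 ^ 20 * δ + 1.4143 * c) (T + (ρ : ℂ) * dir k)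
      (V + ρ * ip (dir k) (P (D p))) := by
  obtain ⟨W, wx, wy, cc, h1, h2, h3, h4⟩ := h
  have h5 := b2_step h2 h3 h4 hp ((ρ : ℂ) * dir k) (c * tre k) (c * tim k)
    (E' := 2 ^ 20 * δ + 1.4143 * c) (by
      have := b2_err hk hc
      push_cast
      rw [mul_add] at this
      rw [show (c : ℂ) * (tim k : ℂ) * Complex.I = (c : ℂ) * ((tim k : ℂ) * Complex.I) by ring]
      exact this)
  refine ⟨fun j => W j + if j = p then (ρ : ℂ) * dir k else 0, _, _, _, h1.addp hr hk hp c, ?_,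
    h5.2.1, ?_⟩
  · rw [add_assoc]; exact h5.1
  · rw [h5.2.2]
    congr 1
    unfold ip
    simp only [Complex.mul_re, Complex.mul_im, Complex.ofReal_re, Complex.ofReal_im]
    ring

theorem Sta.subp {P : ℕ → ℂ} {D : ℕ → ℕ} {r : ℕ} (hr : r ≤ 63) {A : Acc} {E : ℝ} {T : ℂ} {V : ℝ}
    (h : Sta P D r A E T V) {k p : ℕ} (hk : k < NN) (hp : p < r) {c : ℕ} {ρ δ : ℝ}
    (hc : |2 ^ 20 * ρ - c| ≤ δ) :
    Sta P D r (subp r c k p A) (E + 2 ^ 20 * δ + 1.4143 * c) (T - (ρ : ℂ) * dir k)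
      (V - ρ * ip (dir k) (P (D p))) := by
  obtain ⟨W, wx, wy, cc, h1, h2, h3, h4⟩ := h
  have h5 := b2_step h2 h3 h4 hp (-((ρ : ℂ) * dir k)) (-(c * tre k)) (-(c * tim k))
    (E' := 2 ^ 20 * δ + 1.4143 * c) (by
      have := b2_err hk hc
      rw [← norm_neg] at this
      refine le_trans (le_of_eq ?_) this
      congr 1
      push_cast
      ring)
  refine ⟨fun j => W j + if j = p then -((ρ : ℂ) * dir k) else 0, _, _, _, h1.subp hr hk hp c,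
    ?_, ?_, ?_⟩
  · rw [add_assoc]; exact h5.1
  · rw [h5.2.1]; ring
  · rw [h5.2.2, sub_eq_add_neg]
    congr 1
    unfold ip
    simp only [Complex.neg_re, Complex.neg_im, Complex.mul_re, Complex.mul_im,
      Complex.ofReal_re, Complex.ofReal_im]
    ring

end Pool.Agent.Worm78
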