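import Pool.Agent.Worm78.Base

/-!
# The order of the extreme points can be chosen without crossings: combinatorial part
-/

set_option autoImplicit false

namespace Pool.Agent.Worm78

open List

/-- the sum of `f` over the consecutive pairs of a list -/
def chn {α : Type*} [Zero α] [Add α] (f : ℕ → ℕ → α) : List ℕ → α
  | a :: b :: t => f a b + chn f (b :: t)
  | _ => 0

theorem plen_eq_chn (P : ℕ → ℂ) (l : List ℕ) : plen P l = chn (fun a b => ‖P a - P b‖) l := by
  induction l with
  | nil => rfl
  | cons a t ih =>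
    cases t with
    | nil => rfl
    | cons b t => simp only [plen, chn, ih]

theorem chn_split {α : Type*} [AddCommMonoid α] (f : ℕ → ℕ → α) (l : List ℕ) (a : ℕ)
    (m : List ℕ) : chn f (l ++ a :: m) = chn f (l ++ [a]) + chn f (a :: m) := by
  induction l with
  | nil => simp [chn]
  | cons x t ih =>
    cases t with
    | nil => simp [chn]
    | cons y t =>
      simp only [List.cons_append, chn] at ih ⊢
      rw [ih, add_assoc]

theorem chn_reverse {α : Type*} [AddCommMonoid α] (f : ℕ → ℕ → α) (hf : ∀ a b, f a b = f b a)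
    (l : List ℕ) : chn f l.reverse = chn f l := by
  induction l with
  | nil => rfl
  | cons a t ih =>
    cases t with
    | nil => rfl
    | cons b t =>
      have h1 : (a :: b :: t).reverse = t.reverse ++ b :: [a] := by simp
      rw [h1, chn_split]
      have h2 : t.reverse ++ [b] = (b :: t).reverse := by simp
      rw [h2, ih]
      simp only [chn, add_zero]
      rw [hf b a, add_comm]

/-- exchange of two edges -/
theorem chn_two_opt {α : Type*} [AddCommMonoid α] (f : ℕ → ℕ → α) (hf : ∀ a b, f a b = f b a)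
    (A T B : List ℕ) (a b c d : ℕ) :
    ∃ R : α, chn f (A ++ a :: b :: (T ++ c :: d :: B)) = R + (f a b + f c d) ∧
      chn f (A ++ a :: c :: (T.reverse ++ b :: d :: B)) = R + (f a c + f b d) := by
  refine ⟨chn f (A ++ [a]) + chn f (b :: (T ++ [c])) + chn f (d :: B), ?_, ?_⟩
  · rw [chn_split f A a]
    have h1 : chn f (a :: b :: (T ++ c :: d :: B))
        = f a b + chn f ((b :: T) ++ c :: d :: B) := rfl
    rw [h1, chn_split f (b :: T) c]
    have h2 : chn f (c :: d :: B) = f c d + chn f (d :: B) := rfl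
    rw [h2]
    have h3 : (b :: T) ++ [c] = b :: (T ++ [c]) := rfl
    rw [h3]
    abel
  · rw [chn_split f A a]
    have h1 : chn f (a :: c :: (T.reverse ++ b :: d :: B))
        = f a c + chn f ((c :: T.reverse) ++ b :: d :: B) := rfl
    rw [h1, chn_split f (c :: T.reverse) b]
    have h2 : chn f (b :: d :: B) = f b d + chn f (d :: B) := rfl
    rw [h2]
    have h3 : (c :: T.reverse) ++ [b] = (b :: (T ++ [c])).reverse := by simp
    rw [h3, chn_reverse f hf]
    abel

theorem exists_change {L : List ℕ} (S : ℕ → Prop) [DecidablePred S] {u v : ℕ} (hu : u ∈ L)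
    (hv : v ∈ L) (h : S u ↔ ¬ S v) :
    ∃ A a b B, L = A ++ a :: b :: B ∧ (S a ↔ ¬ S b) := by
  by_contra hcon
  push Not at hcon
  have key : ∀ L' : List ℕ, (∀ A a b B, L' = A ++ a :: b :: B → ((S a ∧ S b) ∨ (¬ S a ∧ ¬ S b))) →
      ∀ x ∈ L', ∀ y ∈ L', (S x → S y) := by
    intro L'
    induction L' with
    | nil => intro _ x hx; simp at hx
    | cons a t ih =>
      intro hL x hx y hy hsx
      have ht := ih (fun A p q B hq => hL (a :: A) p q B (by rw [hq]; rfl))
      cases t with
      | nil =>
        simp only [List.mem_singleton] at hx hy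
        rw [hy]; rwa [hx] at hsx
      | cons b t =>
        have hab := hL [] a b t rfl
        have hba : S a ↔ S b := by tauto
        have hto : ∀ z ∈ a :: b :: t, S z → S b := by
          intro z hz hsz
          rcases List.mem_cons.1 hz with rfl | hz
          · exact hba.1 hsz
          · exact ht z hz b (List.mem_cons_self) hsz
        have hfrom : ∀ z ∈ a :: b :: t, S b → S z := by
          intro z hz hsz
          rcases List.mem_cons.1 hz with rfl | hz
          · exact hba.2 hsz
          · exact ht b (List.mem_cons_self) z hz hsz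
        exact hfrom y hy (hto x hx hsx)
  have hk := key L (by
    intro A a b B hL
    have := hcon A a b B hL
    by_cases h1 : S a <;> by_cases h2 : S b <;> simp_all)
  by_cases h1 : S u
  · exact (h.1 h1) (hk u hu v hv h1)
  · have h2 : S v := by tauto
    exact h1 (hk v hv u hu h2)

/-- the cost of a chord -/
def cstN (N i j : ℕ) : ℕ := (max i j - min i j) * (N - (max i j - min i j))

theorem cstN_comm (N i j : ℕ) : cstN N i j = cstN N j i := by
  simp only [cstN, max_comm i j, min_comm i j]

theorem cstN_of_lt {N i j : ℕ} (h : i < j) : cstN N i j = (j - i) * (N - (j - i)) := by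
  simp only [cstN, max_eq_right h.le, min_eq_left h.le]

theorem cstN_lt {N p q r s : ℕ} (hpq : p < q) (hqr : q < r) (hrs : r < s) (hs : s < N) :
    cstN N p q + cstN N r s < cstN N p r + cstN N q s ∧
      cstN N q r + cstN N p s < cstN N p r + cstN N q s := by
  rw [cstN_of_lt hpq, cstN_of_lt hrs, cstN_of_lt (hpq.trans hqr), cstN_of_lt (hqr.trans hrs),
    cstN_of_lt hqr, cstN_of_lt ((hpq.trans hqr).trans hrs)]
  obtain ⟨x, rfl⟩ : ∃ x, q = p + x := ⟨q - p, by omega⟩
  obtain ⟨y, rfl⟩ : ∃ y, r = p + x + y := ⟨r - (p + x), by omega⟩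
  obtain ⟨z, rfl⟩ : ∃ z, s = p + x + y + z := ⟨s - (p + x + y), by omega⟩
  obtain ⟨w, rfl⟩ : ∃ w, N = x + y + z + w := ⟨N - (x + y + z), by omega⟩
  have e1 : p + x - p = x := by omega
  have e2 : p + x + y + z - (p + x + y) = z := by omega
  have e3 : p + x + y - p = x + y := by omega
  have e4 : p + x + y + z - (p + x) = y + z := by omega
  have e5 : p + x + y - (p + x) = y := by omega
  have e6 : p + x + y + z - p = x + y + z := by omega
  rw [e1, e2, e3, e4, e5, e6]
  have f1 : x + y + z + w - x = y + z + w := by omega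
  have f2 : x + y + z + w - z = x + y + w := by omega
  have f3 : x + y + z + w - (x + y) = z + w := by omega
  have f4 : x + y + z + w - (y + z) = x + w := by omega
  have f5 : x + y + z + w - y = x + z + w := by omega
  have f6 : x + y + z + w - (x + y + z) = w := by omega
  rw [f1, f2, f3, f4, f5, f6]
  have hx : 0 < x := by omega
  have hy : 0 < y := by omega
  have hz : 0 < z := by omega
  have hw : 0 < w := by omega
  constructor
  · have e : (x + y) * (z + w) + (y + z) * (x + w)
        = x * (y + z + w) + z * (x + y + w) + 2 * (y * w) := by ring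
    rw [e]
    exact Nat.lt_add_of_pos_right (by positivity)
  · have e : (x + y) * (z + w) + (y + z) * (x + w)
        = y * (x + z + w) + (x + y + z) * w + 2 * (x * z) := by ring
    rw [e]
    exact Nat.lt_add_of_pos_right (by positivity)

/-- the cost of a chord -/
def cst (i j : ℕ) : ℕ := cstN NN i j

theorem cst_comm (i j : ℕ) : cst i j = cst j i := cstN_comm NN i j

theorem cst_lt {p q r s : ℕ} (hpq : p < q) (hqr : q < r) (hrs : r < s) (hs : s < NN) :
    cst p q + cst r s < cst p r + cst q s ∧ cst q r + cst p s < cst p r + cst q s :=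
  cstN_lt hpq hqr hrs hs

/-- the crossing inequalities -/
def CrossLe (P : ℕ → ℂ) : Prop := ∀ a b c d : ℕ, a < b → b < c → c < d → d < NN →
    ‖P a - P b‖ + ‖P c - P d‖ ≤ ‖P a - P c‖ + ‖P b - P d‖ ∧
    ‖P b - P c‖ + ‖P a - P d‖ ≤ ‖P a - P c‖ + ‖P b - P d‖

theorem swap_good {P : ℕ → ℂ} (hc : CrossLe P) {p q r s a b c d : ℕ} (hpq : p < q)
    (hqr : q < r) (hrs : r < s) (hs : s < NN)
    (h : (((a = p ∧ b = r) ∨ (a = r ∧ b = p)) ∧ ((c = q ∧ d = s) ∨ (c = s ∧ d = q))) ∨
      (((a = q ∧ b = s) ∨ (a = s ∧ b = q)) ∧ ((c = p ∧ d = r) ∨ (c = r ∧ d = p)))) :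
    ‖P a - P c‖ + ‖P b - P d‖ ≤ ‖P a - P b‖ + ‖P c - P d‖ ∧
      cst a c + cst b d < cst a b + cst c d := by
  obtain ⟨h1, h2⟩ := hc p q r s hpq hqr hrs hs
  obtain ⟨h3, h4⟩ := cst_lt hpq hqr hrs hs
  have n1 := norm_sub_rev (P p) (P q)
  have n2 := norm_sub_rev (P p) (P r)
  have n3 := norm_sub_rev (P p) (P s)
  have n4 := norm_sub_rev (P q) (P r)
  have n5 := norm_sub_rev (P q) (P s)
  have n6 := norm_sub_rev (P r) (P s)
  have m1 := cst_comm p q
  have m2 := cst_comm p r
  have m3 := cst_comm p s
  have m4 := cst_comm q r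
  have m5 := cst_comm q s
  have m6 := cst_comm r s
  rcases h with ⟨h | h, h' | h'⟩ | ⟨h | h, h' | h'⟩ <;> obtain ⟨rfl, rfl⟩ := h <;>
    obtain ⟨rfl, rfl⟩ := h' <;> constructor <;> linarith

/-- an order without crossings of consecutive pairs -/
theorem exists_min (P : ℕ → ℂ) (hc : CrossLe P) (ord₀ : List ℕ)
    (hp : ord₀.Perm (List.range NN)) (hl : plen P ord₀ ≤ 1) :
    ∃ ord : List ℕ, ord.Perm (List.range NN) ∧ plen P ord ≤ 1 ∧
      ∀ A a b T c d B, ord = A ++ a :: b :: (T ++ c :: d :: B) →
        ¬ (min a b < min c d ∧ min c d < max a b ∧ max a b < max c d) ∧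
        ¬ (min c d < min a b ∧ min a b < max c d ∧ max c d < max a b) := by
  classical
  obtain ⟨ord, ⟨h1, h2⟩, hmin⟩ := WellFounded.has_min (measure (chn cst)).wf
    {l : List ℕ | l.Perm (List.range NN) ∧ plen P l ≤ 1} ⟨ord₀, hp, hl⟩
  refine ⟨ord, h1, h2, ?_⟩
  intro A a b T c d B hord
  have hperm : (A ++ a :: c :: (T.reverse ++ b :: d :: B)).Perm ord := by
    rw [hord]
    refine List.Perm.append_left A ?_
    refine List.Perm.cons a ?_
    have e1 : c :: (T.reverse ++ b :: d :: B) = (b :: (T ++ [c])).reverse ++ d :: B := by simp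
    have e2 : b :: (T ++ c :: d :: B) = (b :: (T ++ [c])) ++ d :: B := by simp
    rw [e1, e2]
    exact List.Perm.append_right _ (List.reverse_perm _)
  have hlt : ∀ x ∈ ord, x < NN := fun x hx => List.mem_range.1 (h1.mem_iff.1 hx)
  have ha : a < NN := hlt a (by rw [hord]; simp)
  have hb : b < NN := hlt b (by rw [hord]; simp)
  have hc' : c < NN := hlt c (by rw [hord]; simp)
  have hd : d < NN := hlt d (by rw [hord]; simp)
  have final : (‖P a - P c‖ + ‖P b - P d‖ ≤ ‖P a - P b‖ + ‖P c - P d‖ ∧
      cst a c + cst b d < cst a b + cst c d) → False := by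
    rintro ⟨g1, g2⟩
    refine hmin (A ++ a :: c :: (T.reverse ++ b :: d :: B)) ⟨hperm.trans h1, ?_⟩ ?_
    · obtain ⟨R, r1, r2⟩ := chn_two_opt (fun a b => ‖P a - P b‖)
        (fun a b => norm_sub_rev _ _) A T B a b c d
      rw [hord, plen_eq_chn, r1] at h2
      rw [plen_eq_chn, r2]
      linarith
    · obtain ⟨R, r1, r2⟩ := chn_two_opt cst cst_comm A T B a b c d
      show chn cst _ < chn cst _
      rw [hord, r1, r2]
      omega
  constructor
  · rintro ⟨g1, g2, g3⟩
    refine final (swap_good hc g1 g2 g3 (max_lt hc' hd) (Or.inl ⟨?_, ?_⟩))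
    · rcases le_total a b with h | h
      · left; simp [h]
      · right; simp [h]
    · rcases le_total c d with h | h
      · left; simp [h]
      · right; simp [h]
  · rintro ⟨g1, g2, g3⟩
    refine final (swap_good hc g1 g2 g3 (max_lt ha hb) (Or.inr ⟨?_, ?_⟩))
    · rcases le_total a b with h | h
      · left; simp [h]
      · right; simp [h]
    · rcases le_total c d with h | h
      · left; simp [h]
      · right; simp [h]

/-- the uncrossing lemma -/
theorem exists_touch_of (P : ℕ → ℂ)
    (hs : ∀ i < NN, ∀ j < NN, ip (dir i) (P j) ≤ ip (dir i) (P i)) (hc : CrossLe P)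
    (ord₀ : List ℕ) (hp : ord₀.Perm (List.range NN)) (hl : plen P ord₀ ≤ 1) :
    ∃ ord, Touch P ord := by
  classical
  obtain ⟨ord, h1, h2, h3⟩ := exists_min P hc ord₀ hp hl
  refine ⟨ord, hs, h1, h2, ?_⟩
  intro X Y hXY
  have hnd : ord.Nodup := h1.nodup_iff.2 List.nodup_range
  have hmem : ∀ x < NN, x ∈ ord := fun x hx => h1.mem_iff.2 (List.mem_range.2 hx)
  have hdisj : ∀ x, x ∈ X → x ∈ Y → False := by
    intro x hx hy
    rw [hXY] at hnd
    exact (List.nodup_append.1 hnd).2.2 x hx x hy rfl
  have hY : ∀ x < NN, x ∉ X → x ∈ Y := by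
    intro x hx hxX
    have := hmem x hx
    rw [hXY, List.mem_append] at this
    exact this.resolve_left hxX
  -- main claim
  have main : ∀ u v x y : ℕ, u ∈ X → v ∈ X → x ∈ Y → y ∈ Y → x < y →
      (x < u ∧ u < y) → (v < x ∨ y < v) → False := by
    intro u v x y hu hv hx hy hxy hu2 hv2
    obtain ⟨A, a, b, B, hX, hab⟩ := exists_change (L := X) (fun z => x < z ∧ z < y) hu hv
      (by constructor
          · intro _; omega
          · intro _; exact hu2)
    have haX : a ∈ X := by rw [hX]; simp
    have hbX : b ∈ X := by rw [hX]; simp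
    have hax : a ≠ x := fun h => hdisj a haX (h ▸ hx)
    have hay : a ≠ y := fun h => hdisj a haX (h ▸ hy)
    have hbx : b ≠ x := fun h => hdisj b hbX (h ▸ hx)
    have hby : b ≠ y := fun h => hdisj b hbX (h ▸ hy)
    obtain ⟨C, c, d, D, hY', hcd⟩ := exists_change (L := Y)
      (fun z => min a b < z ∧ z < max a b) hx hy (by
        rcases le_total a b with h | h
        · simp only [min_eq_left h, max_eq_right h]
          omega
        · simp only [min_eq_right h, max_eq_left h]
          omega)
    have hcY : c ∈ Y := by rw [hY']; simp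
    have hdY : d ∈ Y := by rw [hY']; simp
    have n1 : a ≠ c := fun h => hdisj a haX (h ▸ hcY)
    have n2 : a ≠ d := fun h => hdisj a haX (h ▸ hdY)
    have n3 : b ≠ c := fun h => hdisj b hbX (h ▸ hcY)
    have n4 : b ≠ d := fun h => hdisj b hbX (h ▸ hdY)
    have hord : ord = A ++ a :: b :: ((B ++ C) ++ c :: d :: D) := by
      rw [hXY, hX, hY']; simp
    obtain ⟨k1, k2⟩ := h3 _ _ _ _ _ _ _ hord
    rcases le_total a b with h | h <;> rcases le_total c d with h' | h' <;>
      simp only [min_eq_left, min_eq_right, max_eq_left, max_eq_right, h, h'] at k1 k2 hcd <;>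
      omega
  intro p q r s hpq hqr hrs hsN
  refine ⟨?_, ?_⟩
  · rintro ⟨hp', hq', hr', hs'⟩
    exact main r p q s hr' hp' (hY q (by omega) hq') (hY s hsN hs') (by omega) ⟨hqr, hrs⟩
      (Or.inl hpq)
  · rintro ⟨hp', hq', hr', hs'⟩
    exact main q s p r hq' hs' (hY p (by omega) hp') (hY r (by omega) hr') (by omega)
      ⟨hpq, hqr⟩ (Or.inr hrs)

theorem Touch.nodup {P : ℕ → ℂ} {ord : List ℕ} (h : Touch P ord) : ord.Nodup :=
  h.perm.nodup_iff.2 List.nodup_range

theorem Touch.mem {P : ℕ → ℂ} {ord : List ℕ} (h : Touch P ord) {x : ℕ} (hx : x < NN) :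
    x ∈ ord := h.perm.mem_iff.2 (List.mem_range.2 hx)

theorem Touch.not_mem_both {P : ℕ → ℂ} {ord : List ℕ} (h : Touch P ord) {X Y : List ℕ}
    (hXY : ord = X ++ Y) {x : ℕ} (hx : x ∈ X) (hy : x ∈ Y) : False := by
  have hnd := h.nodup
  rw [hXY] at hnd
  exact (List.nodup_append.1 hnd).2.2 x hx x hy rfl

theorem Touch.mem_or {P : ℕ → ℂ} {ord : List ℕ} (h : Touch P ord) {X Y : List ℕ}
    (hXY : ord = X ++ Y) {x : ℕ} (hx : x < NN) : x ∈ X ∨ x ∈ Y := by
  have := h.mem hx
  rwa [hXY, List.mem_append] at this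

/-- the reversed order -/
theorem Touch.reverse' {P : ℕ → ℂ} {ord : List ℕ} (h : Touch P ord) : Touch P ord.reverse := by
  refine ⟨h.supp, (List.reverse_perm ord).trans h.perm, ?_, ?_⟩
  · rw [plen_eq_chn, chn_reverse _ (fun a b => norm_sub_rev _ _), ← plen_eq_chn]
    exact h.len
  · intro X Y hXY
    have hrev : ord = Y.reverse ++ X.reverse := by
      rw [← List.reverse_append, ← hXY, List.reverse_reverse]
    have hcy := h.cyc _ _ hrev
    have hiff : ∀ x < NN, (x ∈ X ↔ x ∉ Y.reverse) := by
      intro x hx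
      constructor
      · intro h1 h2
        exact h.not_mem_both hrev h2 (by simpa using h1)
      · intro h1
        rcases h.mem_or hrev hx with h2 | h2
        · exact absurd h2 h1
        · simpa using h2
    intro p q r s hpq hqr hrs hs
    obtain ⟨k1, k2⟩ := hcy p q r s hpq hqr hrs hs
    rw [hiff p (by omega), hiff q (by omega), hiff r (by omega), hiff s hs]
    simp only [not_not]
    exact ⟨k2, k1⟩

/-- of two indices, one comes before the other -/
theorem before_or_of (ord : List ℕ) (a b : ℕ) : Before ord a b ∨ Before ord b a := by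
  by_contra hcon
  simp only [Before] at hcon
  push Not at hcon
  obtain ⟨⟨X, Y, hXY, hbX, haX⟩, ⟨X', Y', hXY', haX', hbX'⟩⟩ := hcon
  -- one of the two prefixes is contained in the other one
  have hXX : X <+: ord := ⟨Y, hXY.symm⟩
  have hXX' : X' <+: ord := ⟨Y', hXY'.symm⟩
  rcases le_total X.length X'.length with hle | hle
  · have := List.prefix_of_prefix_length_le hXX hXX' hle
    exact hbX' (this.subset hbX)
  · have := List.prefix_of_prefix_length_le hXX' hXX hle
    exact haX (this.subset haX')

/-- order facts in the reversed order -/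
theorem Touch.before_reverse' {P : ℕ → ℂ} {ord : List ℕ} (h : Touch P ord) {a b : ℕ}
    (hb : b < NN) (hab : Before ord a b) : Before ord.reverse b a := by
  intro X Y hXY haX
  have hrev : ord = Y.reverse ++ X.reverse := by
    rw [← List.reverse_append, ← hXY, List.reverse_reverse]
  by_contra hbX
  have hbY : b ∈ Y.reverse := by
    rcases h.mem_or hrev hb with h2 | h2
    · exact h2
    · exact absurd (by simpa using h2) hbX
  have haY := hab _ _ hrev hbY
  exact h.not_mem_both hrev haY (by simpa using haX)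

end Pool.Agent.Worm78
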