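import Pool.Agent.Worm78.Base

/-!
# The reversed order, and comparison of two indices
-/

set_option autoImplicit false

namespace Pool.Agent.Worm78

namespace UC

theorem plen_append_cons (P : ℕ → ℂ) (L R : List ℕ) (a : ℕ) :
    plen P (L ++ a :: R) = plen P (L ++ [a]) + plen P (a :: R) := by
  induction L with
  | nil => simp [plen]
  | cons x t ih =>
    cases t with
    | nil => 
      simp [plen]
    | cons y t' =>
      simp only [List.cons_append, plen] at ih ⊢
      rw [ih]; ring

theorem plen_reverse (P : ℕ → ℂ) (L : List ℕ) : plen P L.reverse = plen P L := by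
  induction L with
  | nil => rfl
  | cons x t ih =>
    cases t with
    | nil => rfl
    | cons y t' =>
      rw [List.reverse_cons, List.reverse_cons, List.append_assoc]
      rw [List.reverse_cons] at ih
      change plen P (t'.reverse ++ (y :: [x])) = _
      rw [plen_append_cons, ih]
      simp only [plen]
      rw [norm_sub_rev]
      ring

theorem CycInt.compl {X Y : List ℕ} (h : (X ++ Y).Perm (List.range NN)) (hX : CycInt X) :
    CycInt Y := by
  have hnd : (X ++ Y).Nodup := h.nodup_iff.mpr List.nodup_range
  have hmem : ∀ k < NN, (k ∈ Y ↔ k ∉ X) := by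
    intro k hk
    have h1 : k ∈ X ++ Y := h.mem_iff.mpr (List.mem_range.mpr hk)
    constructor
    · intro hY hX'
      exact (List.disjoint_of_nodup_append hnd) hX' hY
    · intro hX'
      rcases List.mem_append.mp h1 with h2 | h2
      · exact absurd h2 hX'
      · exact h2
  intro p q r s hpq hqr hrs hs
  have hr : r < NN := hrs.trans hs
  have hq : q < NN := hqr.trans hr
  have hp : p < NN := hpq.trans hq
  obtain ⟨h1, h2⟩ := hX p q r s hpq hqr hrs hs
  rw [hmem p hp, hmem q hq, hmem r hr, hmem s hs]
  constructor
  · rintro ⟨a1, a2, a3, a4⟩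
    exact h2 ⟨a1, not_not.mp a2, a3, not_not.mp a4⟩
  · rintro ⟨a1, a2, a3, a4⟩
    exact h1 ⟨not_not.mp a1, a2, not_not.mp a3, a4⟩

theorem touch_reverse {P : ℕ → ℂ} {ord : List ℕ} (h : Touch P ord) : Touch P ord.reverse := by
  refine ⟨h.supp, (List.reverse_perm ord).trans h.perm, ?_, ?_⟩
  · rw [plen_reverse]; exact h.len
  · intro X Y hXY
    have e : ord = Y.reverse ++ X.reverse := by
      rw [← List.reverse_append, ← hXY, List.reverse_reverse]
    have h1 := h.cyc _ _ e
    have h2 : (Y.reverse ++ X.reverse).Perm (List.range NN) := by rw [← e]; exact h.perm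
    have h3 := CycInt.compl h2 h1
    intro p q r s hpq hqr hrs hs
    have := h3 p q r s hpq hqr hrs hs
    simpa only [List.mem_reverse] using this

theorem before_or (ord : List ℕ) (a b : ℕ) : Before ord a b ∨ Before ord b a := by
  by_contra hcon
  rw [not_or] at hcon
  obtain ⟨h1, h2⟩ := hcon
  unfold Before at h1 h2
  push Not at h1 h2
  obtain ⟨X, Y, e, hbX, haX⟩ := h1
  obtain ⟨X', Y', e', haX', hbX'⟩ := h2
  have hp : X <+: ord := ⟨Y, e.symm⟩
  have hp' : X' <+: ord := ⟨Y', e'.symm⟩
  rcases List.prefix_or_prefix_of_prefix hp hp' with g | g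
  · exact hbX' (g.subset hbX)
  · exact haX (g.subset haX')

theorem before_reverse {P : ℕ → ℂ} {ord : List ℕ} (h : Touch P ord) {a b : ℕ}
    (hb : b < NN) (hab : Before ord a b) : Before ord.reverse b a := by
  intro X Y e haX
  have e' : ord = Y.reverse ++ X.reverse := by
    rw [← List.reverse_append, ← e, List.reverse_reverse]
  by_contra hbX
  have hnd : ord.Nodup := h.perm.nodup_iff.mpr List.nodup_range
  have hb' : b ∈ ord := h.perm.mem_iff.mpr (List.mem_range.mpr hb)
  rw [e'] at hb' hnd
  have hbY : b ∈ Y.reverse := by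
    rcases List.mem_append.mp hb' with g | g
    · exact g
    · exact absurd (List.mem_reverse.mp g) hbX
  have haY := hab _ _ e' hbY
  exact (List.disjoint_of_nodup_append hnd) haY (List.mem_reverse.mpr haX)

end UC

end Pool.Agent.Worm78
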