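import Pool.Agent.Worm78.UncrossA
import Pool.Agent.Worm78.UncrossB
import Pool.Agent.Worm78.UncrossC

/-!
# The order of the extreme points can be chosen without crossings
-/

set_option autoImplicit false

namespace Pool.Agent.Worm78

/-- If the points `P a, P b, P c, P d` are extreme in four directions which are in this order
around the circle, then the diagonals are together at least as long as two opposite sides. -/
theorem cross_le (P : ℕ → ℂ)
    (hs : ∀ i < NN, ∀ j < NN, ip (dir i) (P j) ≤ ip (dir i) (P i)) {a b c d : ℕ}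
    (hab : a < b) (hbc : b < c) (hcd : c < d) (hd : d < NN) :
    ‖P a - P b‖ + ‖P c - P d‖ ≤ ‖P a - P c‖ + ‖P b - P d‖ ∧
    ‖P b - P c‖ + ‖P a - P d‖ ≤ ‖P a - P c‖ + ‖P b - P d‖ :=
  UA.cross_le P hs hab hbc hcd hd

/-- the uncrossing lemma -/
theorem exists_touch (P : ℕ → ℂ)
    (hs : ∀ i < NN, ∀ j < NN, ip (dir i) (P j) ≤ ip (dir i) (P i)) (ord₀ : List ℕ)
    (hp : ord₀.Perm (List.range NN)) (hl : plen P ord₀ ≤ 1) : ∃ ord, Touch P ord :=
  exists_touch_of P hs (fun _ _ _ _ hab hbc hcd hd => cross_le P hs hab hbc hcd hd) ord₀ hp hl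

/-- the reversed order -/
theorem Touch.reverse {P : ℕ → ℂ} {ord : List ℕ} (h : Touch P ord) : Touch P ord.reverse :=
  UC.touch_reverse h

theorem Bad.reverse {L : Lin} {P : ℕ → ℂ} {ord : List ℕ} {s : ℝ} {t0 : ℕ}
    (h : Bad L P ord s t0) : Bad L P ord.reverse s t0 :=
  ⟨h.touch.reverse, h.one_lt, h.base, h.typ, h.free⟩

/-- of two indices, one comes before the other -/
theorem Touch.before_or {P : ℕ → ℂ} {ord : List ℕ} (h : Touch P ord) {a b : ℕ} (ha : a < NN)
    (hb : b < NN) : Before ord a b ∨ Before ord b a :=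
  UC.before_or ord a b

/-- order facts in the reversed order -/
theorem Touch.before_reverse {P : ℕ → ℂ} {ord : List ℕ} (h : Touch P ord) {a b : ℕ}
    (ha : a < NN) (hb : b < NN) (hab : Before ord a b) : Before ord.reverse b a :=
  UC.before_reverse h hb hab

end Pool.Agent.Worm78
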