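import Pool.Agent.Worm78.Chk
import Pool.Agent.Worm78.Uncross

/-!
# Soundness of the checker: the tree
-/

set_option autoImplicit false

namespace Pool.Agent.Worm78

/-- the facts in the state of the checker hold -/
structure St (P : ℕ → ℂ) (ord : List ℕ) (s : ℝ) (F Ty : ℕ) : Prop where
  ordf : ∀ f : ℕ, Before ord ((F >>> (22 * f)) % 2048) ((F >>> (22 * f + 11)) % 2048)
  typf : ∀ θ < NN, ∀ τ < 2, (Ty >>> (2 * θ + τ)) % 2 = 1 → s ≤ Phi L0 τ θ P

/-- there is no bad configuration with these facts -/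
def NoBad (t0 F Ty : ℕ) : Prop :=
  ∀ (P : ℕ → ℂ) (ord : List ℕ) (s : ℝ), Bad L0 P ord s t0 → ¬ St P ord s F Ty

theorem before_self (ord : List ℕ) (a : ℕ) : Before ord a a := fun _ _ _ h => h

theorem before_of_ge {P : ℕ → ℂ} {ord : List ℕ} (h : Touch P ord) {a b : ℕ} (hb : NN ≤ b) :
    Before ord a b := by
  intro X Y hXY hbX
  exfalso
  have h1 : b ∈ ord := by rw [hXY]; exact List.mem_append_left _ hbX
  have h2 := List.mem_range.1 (h.perm.mem_iff.1 h1)
  omega

theorem fact_zero {F a b : ℕ} (ha : a < 2048) (hb : b < 2048) :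
    ((4194304 * F + (a + 2048 * b)) >>> (22 * 0)) % 2048 = a ∧
    ((4194304 * F + (a + 2048 * b)) >>> (22 * 0 + 11)) % 2048 = b := by
  simp only [Nat.shiftRight_eq_div_pow]
  norm_num
  omega

theorem fact_succ {F a b : ℕ} (ha : a < 2048) (hb : b < 2048) (f : ℕ) :
    (4194304 * F + (a + 2048 * b)) >>> (22 * (f + 1)) = F >>> (22 * f) ∧
    (4194304 * F + (a + 2048 * b)) >>> (22 * (f + 1) + 11) = F >>> (22 * f + 11) := by
  have h : (4194304 * F + (a + 2048 * b)) >>> 22 = F := by
    rw [Nat.shiftRight_eq_div_pow]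
    norm_num
    omega
  constructor
  · rw [show 22 * (f + 1) = 22 + 22 * f by ring, Nat.shiftRight_add, h]
  · rw [show 22 * (f + 1) + 11 = 22 + (22 * f + 11) by ring, Nat.shiftRight_add, h]

theorem St.add {P : ℕ → ℂ} {ord : List ℕ} {s : ℝ} {F Ty a b : ℕ} (h : St P ord s F Ty)
    (ha : a < 2048) (hb : b < 2048) (hab : Before ord a b) :
    St P ord s (4194304 * F + (a + 2048 * b)) Ty := by
  refine ⟨fun f => ?_, h.typf⟩
  rcases f with _ | f
  · rw [(fact_zero ha hb).1, (fact_zero ha hb).2]; exact hab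
  · rw [(fact_succ ha hb f).1, (fact_succ ha hb f).2]; exact h.ordf f

theorem NoBad.O {t0 F Ty : ℕ} (a b : ℕ) (ha : a < 2048) (hb : b < 2048)
    (h1 : NoBad t0 (4194304 * F + (a + 2048 * b)) Ty)
    (h2 : NoBad t0 (4194304 * F + (b + 2048 * a)) Ty) : NoBad t0 F Ty := by
  intro P ord s hbad hst
  have h : Before ord a b ∨ Before ord b a := by
    by_cases ha' : a < NN
    · by_cases hb' : b < NN
      · exact hbad.touch.before_or ha' hb'
      · exact Or.inl (before_of_ge hbad.touch (by omega))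
    · exact Or.inr (before_of_ge hbad.touch (by omega))
  rcases h with h | h
  · exact h1 P ord s hbad (hst.add ha hb h)
  · exact h2 P ord s hbad (hst.add hb ha h)

theorem bit_or {Ty i j : ℕ} (h : ((Ty ||| 2 ^ i) >>> j) % 2 = 1) : (Ty >>> j) % 2 = 1 ∨ i = j := by
  by_cases hij : i = j
  · exact Or.inr hij
  · left
    have h1 : (Ty ||| 2 ^ i).testBit j = true := by
      rw [Nat.testBit_eq_decide_div_mod_eq, ← Nat.shiftRight_eq_div_pow, h]; rfl
    rw [Nat.testBit_or, Nat.testBit_two_pow_of_ne hij, Bool.or_false,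
      Nat.testBit_eq_decide_div_mod_eq, ← Nat.shiftRight_eq_div_pow] at h1
    exact of_decide_eq_true h1

theorem NoBad.T {t0 F Ty : ℕ} (θ : ℕ) (h1 : NoBad t0 F (Ty ||| 2 ^ (2 * θ)))
    (h2 : NoBad t0 F (Ty ||| 2 ^ (2 * θ + 1))) : NoBad t0 F Ty := by
  intro P ord s hbad hst
  by_cases hθ : θ < NN
  · rcases hbad.typ θ hθ with h | h
    · refine h1 P ord s hbad ⟨hst.ordf, fun θ' hθ' τ hτ hb => ?_⟩
      rcases bit_or hb with h3 | h3
      · exact hst.typf θ' hθ' τ hτ h3
      · have h4 : τ = 0 := by omega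
        have h5 : θ' = θ := by omega
        rw [h4, h5]; exact h
    · refine h2 P ord s hbad ⟨hst.ordf, fun θ' hθ' τ hτ hb => ?_⟩
      rcases bit_or hb with h3 | h3
      · exact hst.typf θ' hθ' τ hτ h3
      · have h4 : τ = 1 := by omega
        have h5 : θ' = θ := by omega
        rw [h4, h5]; exact h
  · refine h1 P ord s hbad ⟨hst.ordf, fun θ' hθ' τ hτ hb => ?_⟩
    rcases bit_or hb with h3 | h3
    · exact hst.typf θ' hθ' τ hτ h3
    · omega

/-- the first order fact is free, by reversal -/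
theorem NoBad.root {t0 : ℕ} (a b : ℕ) (ha : a < NN) (hb : b < NN) {Ty : ℕ}
    (h1 : NoBad t0 (a + 2048 * b) Ty) : NoBad t0 0 Ty := by
  have ha' : a < 2048 := lt_trans ha (by unfold NN; norm_num)
  have hb' : b < 2048 := lt_trans hb (by unfold NN; norm_num)
  have h1' : NoBad t0 (4194304 * 0 + (a + 2048 * b)) Ty := by simpa using h1
  intro P ord s hbad hst
  rcases hbad.touch.before_or ha hb with h | h
  · exact h1' P ord s hbad (hst.add ha' hb' h)
  · have h2 := hbad.touch.before_reverse hb ha h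
    have hst' : St P ord.reverse s 0 Ty := by
      refine ⟨fun f => ?_, hst.typf⟩
      rw [Nat.zero_shiftRight, Nat.zero_shiftRight]
      exact before_self _ _
    exact h1' P ord.reverse s hbad.reverse (hst'.add ha' hb' h2)

/-- at the rotation `0` the inequality `t0` holds -/
theorem no_bad_of {t0 : ℕ} (ht0 : t0 < 2) (h : NoBad t0 0 (2 ^ t0)) (P : ℕ → ℂ)
    (ord : List ℕ) (s : ℝ) : ¬ Bad L0 P ord s t0 := by
  intro hbad
  refine h P ord s hbad ⟨fun f => ?_, fun θ hθ τ hτ hb => ?_⟩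
  · rw [Nat.zero_shiftRight, Nat.zero_shiftRight]
    exact before_self _ _
  · have h1 : (2 ^ t0 : ℕ).testBit (2 * θ + τ) = true := by
      rw [Nat.testBit_eq_decide_div_mod_eq, ← Nat.shiftRight_eq_div_pow, hb]; rfl
    have h2 : t0 = 2 * θ + τ := by
      by_contra hne
      rw [Nat.testBit_two_pow_of_ne hne] at h1
      exact absurd h1 (by decide)
    have h3 : θ = 0 := by omega
    have h4 : τ = t0 := by omega
    rw [h3, h4, hbad.base]

/-- the tree, if the leaves are sound -/
theorem NoBad.of_check_aux {t0 : ℕ}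
    (hleaf : ∀ F Ty n : ℕ, leaf t0 F Ty n = true → NoBad t0 F Ty) (t : Tr) :
    ∀ {F Ty : ℕ}, check t0 t F Ty = true → NoBad t0 F Ty := by
  induction t with
  | L n =>
    intro F Ty h
    exact hleaf F Ty n h
  | O a b l r ihl ihr =>
    intro F Ty h
    have h' : cond (Nat.blt a 2048) (cond (Nat.blt b 2048)
        (cond (check t0 l (Nat.add (Nat.mul 4194304 F) (Nat.add a (Nat.mul 2048 b))) Ty)
          (check t0 r (Nat.add (Nat.mul 4194304 F) (Nat.add b (Nat.mul 2048 a))) Ty) false)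
        false) false = true := h
    rcases ha : Nat.blt a 2048 with _ | _
    · rw [ha] at h'; exact absurd h' (by simp)
    rw [ha, cond_true] at h'
    rcases hb : Nat.blt b 2048 with _ | _
    · rw [hb] at h'; exact absurd h' (by simp)
    rw [hb, cond_true] at h'
    rcases hl : check t0 l (Nat.add (Nat.mul 4194304 F) (Nat.add a (Nat.mul 2048 b))) Ty
      with _ | _
    · rw [hl] at h'; exact absurd h' (by simp)
    rw [hl, cond_true] at h'
    exact NoBad.O a b (Eq.mp Nat.blt_eq ha) (Eq.mp Nat.blt_eq hb) (ihl hl) (ihr h')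
  | T θ l r ihl ihr =>
    intro F Ty h
    have h' : cond (check t0 l F (Nat.lor Ty (Nat.pow 2 (Nat.mul 2 θ))))
        (check t0 r F (Nat.lor Ty (Nat.pow 2 (Nat.succ (Nat.mul 2 θ))))) false = true := h
    rcases hl : check t0 l F (Nat.lor Ty (Nat.pow 2 (Nat.mul 2 θ))) with _ | _
    · rw [hl] at h'; exact absurd h' (by simp)
    rw [hl, cond_true] at h'
    exact NoBad.T θ (ihl hl) (ihr h')

end Pool.Agent.Worm78
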