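import Pool.Agent.Worm78.LeafA2
import Pool.Agent.Worm78.SndT

/-!
# The directions and the order facts
-/

set_option autoImplicit false

namespace Pool.Agent.Worm78

open Finset

theorem low_lt (n w : ℕ) : low n w < 2 ^ w := Nat.mod_lt _ (Nat.two_pow_pos w)

theorem dget_lt (D i : ℕ) : dget D i < 2048 := by
  have h : dget D i = (D >>> (11 * i)) &&& (2 ^ 11 - 1) := rfl
  rw [h, Nat.and_two_pow_sub_one_eq_mod]
  exact Nat.mod_lt _ (by norm_num)

theorem inc_aux {D : ℕ} (m : ℕ) : ∀ i : ℕ, inc D m i = true →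
    (∀ j, i ≤ j → j < i + m → dget D j < dget D (j + 1)) ∧ dget D (i + m) < NN := by
  induction m with
  | zero =>
    intro i h
    have h' : Nat.blt (dget D i) 1984 = true := h
    refine ⟨fun j h1 h2 => absurd h2 (by omega), ?_⟩
    exact Eq.mp Nat.blt_eq h'
  | succ m ih =>
    intro i h
    have h' : cond (Nat.blt (dget D i) (dget D (Nat.succ i))) (inc D m (Nat.succ i)) false = true := h
    rw [cond_iff] at h'
    obtain ⟨h1, h2⟩ := h'
    obtain ⟨h3, h4⟩ := ih (i + 1) h2
    refine ⟨fun j hj1 hj2 => ?_, ?_⟩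
    · rcases Nat.eq_or_lt_of_le hj1 with h5 | h5
      · subst h5
        exact Eq.mp Nat.blt_eq h1
      · exact h3 j h5 (by omega)
    · have e : i + (m + 1) = i + 1 + m := by omega
      rw [e]; exact h4

theorem inc_sound {D r : ℕ} (hr : 0 < r) (h : inc D (Nat.sub r 1) 0 = true) :
    (∀ i j, i < j → j < r → dget D i < dget D j) ∧ ∀ i < r, dget D i < NN := by
  obtain ⟨h1, h2⟩ := inc_aux (r - 1) 0 h
  have hmono : ∀ i j, i < j → j < r → dget D i < dget D j := by
    intro i j hij
    induction j, hij using Nat.le_induction with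
    | base =>
      intro hj
      exact h1 i (Nat.zero_le _) (by omega)
    | succ j hj ih =>
      intro hjr
      exact (ih (by omega)).trans (h1 j (Nat.zero_le _) (by omega))
  refine ⟨hmono, fun i hi => ?_⟩
  have e : 0 + (r - 1) = r - 1 := by omega
  rw [e] at h2
  rcases Nat.lt_or_ge i (r - 1) with h3 | h3
  · exact (hmono i (r - 1) h3 (by omega)).trans h2
  · have h4 : i = r - 1 := by omega
    rw [h4]; exact h2

/-- the places of the facts -/
def Fac (ord : List ℕ) (r D G : ℕ) : Prop :=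
  ∀ f, pa G f < r ∧ pb G f < r ∧ Before ord (dget D (pa G f)) (dget D (pb G f))

theorem Fac.zero (ord : List ℕ) {r : ℕ} (hr : 0 < r) (D : ℕ) : Fac ord r D 0 := by
  intro f
  have ha : pa 0 f = 0 := by
    have h : pa 0 f = (0 >>> (12 * f)) % 2 ^ 6 := rfl
    rw [h, Nat.zero_shiftRight, Nat.zero_mod]
  have hb : pb 0 f = 0 := by
    have h : pb 0 f = (0 >>> (12 * f + 6)) % 2 ^ 6 := rfl
    rw [h, Nat.zero_shiftRight, Nat.zero_mod]
  rw [ha, hb]
  exact ⟨hr, hr, before_self _ _⟩

theorem pa_eq (G f : ℕ) : pa G f = (G >>> (12 * f)) % 64 := rfl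

theorem pb_eq (G f : ℕ) : pb G f = (G >>> (12 * f + 6)) % 64 := rfl

theorem pab_zero {G a b : ℕ} (ha : a < 64) (hb : b < 64) :
    pa (4096 * G + (a + 64 * b)) 0 = a ∧ pb (4096 * G + (a + 64 * b)) 0 = b := by
  rw [pa_eq, pb_eq]
  simp only [Nat.shiftRight_eq_div_pow]
  norm_num
  omega

theorem pab_succ {G a b : ℕ} (ha : a < 64) (hb : b < 64) (f : ℕ) :
    pa (4096 * G + (a + 64 * b)) (f + 1) = pa G f ∧
    pb (4096 * G + (a + 64 * b)) (f + 1) = pb G f := by
  have h : (4096 * G + (a + 64 * b)) >>> 12 = G := by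
    rw [Nat.shiftRight_eq_div_pow]
    norm_num
    omega
  rw [pa_eq, pb_eq, pa_eq, pb_eq]
  constructor
  · rw [show 12 * (f + 1) = 12 + 12 * f by ring, Nat.shiftRight_add, h]
  · rw [show 12 * (f + 1) + 6 = 12 + (12 * f + 6) by ring, Nat.shiftRight_add, h]

theorem fact_split {F f a b : ℕ} (ha : a < 2048) (_hb : b < 2048)
    (h : a + 2048 * b = (F >>> (22 * f)) % 4194304) :
    (F >>> (22 * f)) % 2048 = a ∧ (F >>> (22 * f + 11)) % 2048 = b := by
  rw [Nat.shiftRight_add]
  generalize F >>> (22 * f) = x at h ⊢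
  rw [Nat.shiftRight_eq_div_pow]
  norm_num
  omega

theorem fct_sound {P : ℕ → ℂ} {ord : List ℕ} {s : ℝ} {F Ty : ℕ} (hS : St P ord s F Ty)
    {r D : ℕ} (hr : r ≤ 63) {k : ℕ → ℕ → Bool} (m : ℕ) :
    ∀ (n G : ℕ), Fac ord r D G → fct F r D k m n G = true →
      ∃ n' G', Fac ord r D G' ∧ k n' G' = true := by
  induction m with
  | zero =>
    intro n G hG h
    exact ⟨n, G, hG, h⟩
  | succ m ih =>
    intro n G hG h
    have h' : cond (Nat.blt (low (Nat.shiftRight n 6) 6) r)
        (cond (Nat.blt (low (Nat.shiftRight n 12) 6) r)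
        (cond (Nat.beq (Nat.add (dget D (low (Nat.shiftRight n 6) 6))
              (Nat.mul 2048 (dget D (low (Nat.shiftRight n 12) 6))))
            (Nat.land (Nat.shiftRight F (Nat.mul 22 (low n 6))) 4194303))
          (fct F r D k m (Nat.shiftRight n 18) (Nat.add (Nat.mul 4096 G)
            (Nat.add (low (Nat.shiftRight n 6) 6) (Nat.mul 64 (low (Nat.shiftRight n 12) 6)))))
          false) false) false = true := h
    rw [cond_iff, cond_iff, cond_iff] at h'
    obtain ⟨h1, h2, h3, h4⟩ := h'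
    have h1' : low (Nat.shiftRight n 6) 6 < r := Eq.mp Nat.blt_eq h1
    have h2' : low (Nat.shiftRight n 12) 6 < r := Eq.mp Nat.blt_eq h2
    have h3' : dget D (low (Nat.shiftRight n 6) 6) + 2048 * dget D (low (Nat.shiftRight n 12) 6) =
        (F >>> (22 * low n 6)) &&& (2 ^ 22 - 1) := Nat.eq_of_beq_eq_true h3
    rw [Nat.and_two_pow_sub_one_eq_mod] at h3'
    have hbef : Before ord (dget D (low (Nat.shiftRight n 6) 6))
        (dget D (low (Nat.shiftRight n 12) 6)) := by
      have h5 := hS.ordf (low n 6)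
      obtain ⟨h6, h7⟩ := fact_split (dget_lt D _) (dget_lt D _) h3'
      rwa [h6, h7] at h5
    refine ih (Nat.shiftRight n 18) _ ?_ h4
    intro f
    change pa (4096 * G + (low (Nat.shiftRight n 6) 6 + 64 * low (Nat.shiftRight n 12) 6)) f < r ∧
      pb (4096 * G + (low (Nat.shiftRight n 6) 6 + 64 * low (Nat.shiftRight n 12) 6)) f < r ∧
      Before ord
        (dget D (pa (4096 * G + (low (Nat.shiftRight n 6) 6 + 64 * low (Nat.shiftRight n 12) 6)) f))
        (dget D (pb (4096 * G + (low (Nat.shiftRight n 6) 6 + 64 * low (Nat.shiftRight n 12) 6)) f))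
    rcases f with _ | f
    · obtain ⟨e1, e2⟩ := pab_zero (G := G) (a := low (Nat.shiftRight n 6) 6)
        (b := low (Nat.shiftRight n 12) 6) (by omega) (by omega)
      rw [e1, e2]
      exact ⟨h1', h2', hbef⟩
    · obtain ⟨e1, e2⟩ := pab_succ (G := G) (a := low (Nat.shiftRight n 6) 6)
        (b := low (Nat.shiftRight n 12) 6) (by omega) (by omega) f
      rw [e1, e2]
      exact hG f

end Pool.Agent.Worm78
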