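import Pool.Agent.Worm78.LeafB2

/-!
# One column
-/

set_option autoImplicit false

namespace Pool.Agent.Worm78

open Finset

private lemma c2_cdk {τ : ℕ} (hτ : τ < 3) : cdk τ = cdir τ := by
  interval_cases τ <;> decide

private lemma c2_cdk_lt {τ : ℕ} (hτ : τ < 3) : cdk τ < NN := by
  interval_cases τ <;> decide

private lemma c2_lam {τ : ℕ} (hτ : τ < 3) :
    lam0 τ = lamhat τ 0 ∧ lam1 τ = lamhat τ 1 ∧ lam2 τ = lamhat τ 2 := by
  interval_cases τ <;> decide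

private lemma c2_sum {τ : ℕ} (hτ : τ < 3) : lam0 τ + lam1 τ + lam2 τ ≤ 5441386 := by
  interval_cases τ <;> decide

private lemma c2_close {τ q : ℕ} (hτ : τ < 3) (hq : q < 3) (x : ℕ) :
    |2 ^ 20 * ((x : ℝ) * L0.lam τ q) - ((Nat.mul x (lamhat τ q) : ℕ) : ℝ)| ≤ (x : ℝ) := by
  have h1 := lam_close hτ hq
  have h2 : ((Nat.mul x (lamhat τ q) : ℕ) : ℝ) = x * lamhat τ q := Nat.cast_mul x _
  rw [h2]
  have h3 : 2 ^ 20 * ((x : ℝ) * L0.lam τ q) - x * lamhat τ q =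
      x * (2 ^ 20 * L0.lam τ q - lamhat τ q) := by ring
  rw [h3, abs_mul, abs_of_nonneg (Nat.cast_nonneg x)]
  calc (x : ℝ) * |2 ^ 20 * L0.lam τ q - lamhat τ q| ≤ x * 1 :=
        mul_le_mul_of_nonneg_left h1 (Nat.cast_nonneg x)
    _ = x := mul_one _

private lemma c2_addm_lt (a b : ℕ) : addm a b < NN := Nat.mod_lt _ (by norm_num [NN])

private lemma c2_addm (a b : ℕ) : addm a b = (a + b) % NN := rfl

private lemma c2_err {τ : ℕ} (hτ : τ < 3) (x : ℕ) (E : ℝ) :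
    E + 2 ^ 20 * (x : ℝ) + 1.4143 * ((Nat.mul x (lam0 τ) : ℕ) : ℝ) + 2 ^ 20 * (x : ℝ) +
      1.4143 * ((Nat.mul x (lam1 τ) : ℕ) : ℝ) + 2 ^ 20 * (x : ℝ) +
      1.4143 * ((Nat.mul x (lam2 τ) : ℕ) : ℝ) ≤ E + 11534336 * x := by
  have h1 : ((lam0 τ : ℝ) + lam1 τ + lam2 τ) ≤ 5441386 := by exact_mod_cast c2_sum hτ
  have e0 : ((Nat.mul x (lam0 τ) : ℕ) : ℝ) = x * lam0 τ := Nat.cast_mul x _
  have e1 : ((Nat.mul x (lam1 τ) : ℕ) : ℝ) = x * lam1 τ := Nat.cast_mul x _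
  have e2 : ((Nat.mul x (lam2 τ) : ℕ) : ℝ) = x * lam2 τ := Nat.cast_mul x _
  rw [e0, e1, e2]
  have h2 : (x : ℝ) * ((lam0 τ : ℝ) + lam1 τ + lam2 τ) ≤ x * 5441386 :=
    mul_le_mul_of_nonneg_left h1 (Nat.cast_nonneg x)
  have h3 : (0 : ℝ) ≤ x := Nat.cast_nonneg x
  nlinarith

/-- one column of an inequality -/
theorem typ_step {P : ℕ → ℂ} {D : ℕ → ℕ} {r : ℕ} (hr : r ≤ 63) {A : Acc} {E : ℝ} {V : ℝ}
    (h : Sta P D r A E 0 V) {τ θ x p0 p1 p2 : ℕ} (hτ : τ < 3) (hp0 : p0 < r) (hp1 : p1 < r)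
    (hp2 : p2 < r) (h0 : D p0 = addm θ (cdk τ)) (h1 : D p1 = addm θ 730)
    (h2 : D p2 = addm θ 1488) :
    Sta P D r
      (addp r (Nat.mul x (lam2 τ)) (D p2) p2
        (addp r (Nat.mul x (lam1 τ)) (D p1) p1
          (addp r (Nat.mul x (lam0 τ)) (D p0) p0 A)))
      (E + 11534336 * x) 0 (V + x * Phi L0 τ θ P) := by
  obtain ⟨l0, l1, l2⟩ := c2_lam hτ
  have k0 : D p0 < NN := by rw [h0]; exact c2_addm_lt _ _
  have k1 : D p1 < NN := by rw [h1]; exact c2_addm_lt _ _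
  have k2 : D p2 < NN := by rw [h2]; exact c2_addm_lt _ _
  have s0 := h.addp hr k0 hp0 (c := Nat.mul x (lam0 τ)) (ρ := x * L0.lam τ 0) (δ := x)
    (by rw [l0]; exact c2_close hτ (q := 0) (by norm_num) x)
  have s1 := s0.addp hr k1 hp1 (c := Nat.mul x (lam1 τ)) (ρ := x * L0.lam τ 1) (δ := x)
    (by rw [l1]; exact c2_close hτ (q := 1) (by norm_num) x)
  have s2 := s1.addp hr k2 hp2 (c := Nat.mul x (lam2 τ)) (ρ := x * L0.lam τ 2) (δ := x)
    (by rw [l2]; exact c2_close hτ (q := 2) (by norm_num) x)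
  have hT : (0 : ℂ) + ((x * L0.lam τ 0 : ℝ) : ℂ) * dir (D p0) +
      ((x * L0.lam τ 1 : ℝ) : ℂ) * dir (D p1) + ((x * L0.lam τ 2 : ℝ) : ℂ) * dir (D p2) = 0 := by
    have hz := L0_zero hτ
    simp only [Finset.sum_range_succ, Finset.sum_range_zero, zero_add, L0_n_zero, L0_n_one,
      L0_n_two] at hz
    rw [h0, h1, h2, c2_addm, c2_addm, c2_addm, dir_mod, dir_mod, dir_mod, dir_add, dir_add,
      dir_add, c2_cdk hτ]
    push_cast
    linear_combination (x : ℂ) * dir θ * hz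
  have hV : V + x * L0.lam τ 0 * ip (dir (D p0)) (P (D p0)) +
      x * L0.lam τ 1 * ip (dir (D p1)) (P (D p1)) + x * L0.lam τ 2 * ip (dir (D p2)) (P (D p2)) =
      V + x * Phi L0 τ θ P := by
    unfold Phi
    simp only [Finset.sum_range_succ, Finset.sum_range_zero, zero_add, L0_n_zero, L0_n_one,
      L0_n_two]
    rw [h0, h1, h2, c2_addm, c2_addm, c2_addm, c2_cdk hτ]
    ring
  rw [hT, hV] at s2
  exact s2.mono (c2_err hτ x E)

/-- the base column with the sign `+` -/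
theorem base_add {P : ℕ → ℂ} {D : ℕ → ℕ} {r : ℕ} (hr : r ≤ 63) {A : Acc} {E : ℝ} {V : ℝ}
    (h : Sta P D r A E 0 V) {t0 y p0 p1 p2 : ℕ} (ht : t0 < 2) (hp0 : p0 < r) (hp1 : p1 < r)
    (hp2 : p2 < r) (h0 : D p0 = cdk t0) (h1 : D p1 = 730) (h2 : D p2 = 1488) :
    Sta P D r
      (addp r (Nat.mul y (lam2 t0)) 1488 p2 (addp r (Nat.mul y (lam1 t0)) 730 p1
        (addp r (Nat.mul y (lam0 t0)) (cdk t0) p0 A)))
      (E + 11534336 * y) 0 (V + y * Phi L0 t0 0 P) := by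
  have hτ : t0 < 3 := by omega
  have e0 : D p0 = addm 0 (cdk t0) := by
    rw [h0, c2_addm, zero_add, Nat.mod_eq_of_lt (c2_cdk_lt hτ)]
  have e1 : D p1 = addm 0 730 := by rw [h1]; decide
  have e2 : D p2 = addm 0 1488 := by rw [h2]; decide
  have h3 := typ_step hr h (x := y) hτ hp0 hp1 hp2 e0 e1 e2
  rw [h0, h1, h2] at h3
  exact h3

/-- the base column with the sign `-` -/
theorem base_sub {P : ℕ → ℂ} {D : ℕ → ℕ} {r : ℕ} (hr : r ≤ 63) {A : Acc} {E : ℝ} {V : ℝ}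
    (h : Sta P D r A E 0 V) {t0 y p0 p1 p2 : ℕ} (ht : t0 < 2) (hp0 : p0 < r) (hp1 : p1 < r)
    (hp2 : p2 < r) (h0 : D p0 = cdk t0) (h1 : D p1 = 730) (h2 : D p2 = 1488) :
    Sta P D r
      (subp r (Nat.mul y (lam2 t0)) 1488 p2 (subp r (Nat.mul y (lam1 t0)) 730 p1
        (subp r (Nat.mul y (lam0 t0)) (cdk t0) p0 A)))
      (E + 11534336 * y) 0 (V - y * Phi L0 t0 0 P) := by
  have hτ : t0 < 3 := by omega
  obtain ⟨l0, l1, l2⟩ := c2_lam hτ
  have s0 := h.subp hr (c2_cdk_lt hτ) hp0 (c := Nat.mul y (lam0 t0)) (ρ := y * L0.lam t0 0)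
    (δ := y) (by rw [l0]; exact c2_close hτ (q := 0) (by norm_num) y)
  have s1 := s0.subp hr (k := 730) (by norm_num [NN]) hp1 (c := Nat.mul y (lam1 t0))
    (ρ := y * L0.lam t0 1) (δ := y) (by rw [l1]; exact c2_close hτ (q := 1) (by norm_num) y)
  have s2 := s1.subp hr (k := 1488) (by norm_num [NN]) hp2 (c := Nat.mul y (lam2 t0))
    (ρ := y * L0.lam t0 2) (δ := y) (by rw [l2]; exact c2_close hτ (q := 2) (by norm_num) y)
  have hT : (0 : ℂ) - ((y * L0.lam t0 0 : ℝ) : ℂ) * dir (cdk t0) -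
      ((y * L0.lam t0 1 : ℝ) : ℂ) * dir 730 - ((y * L0.lam t0 2 : ℝ) : ℂ) * dir 1488 = 0 := by
    have hz := L0_zero hτ
    simp only [Finset.sum_range_succ, Finset.sum_range_zero, zero_add, L0_n_zero, L0_n_one,
      L0_n_two] at hz
    rw [c2_cdk hτ]
    push_cast
    linear_combination -(y : ℂ) * hz
  have hV : V - y * L0.lam t0 0 * ip (dir (cdk t0)) (P (D p0)) -
      y * L0.lam t0 1 * ip (dir 730) (P (D p1)) - y * L0.lam t0 2 * ip (dir 1488) (P (D p2)) =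
      V - y * Phi L0 t0 0 P := by
    unfold Phi
    simp only [Finset.sum_range_succ, Finset.sum_range_zero, zero_add, L0_n_zero, L0_n_one,
      L0_n_two]
    have n0 : cdir t0 % NN = cdir t0 := by
      rw [← c2_cdk hτ]; exact Nat.mod_eq_of_lt (c2_cdk_lt hτ)
    have n1 : 730 % NN = 730 := by norm_num [NN]
    have n2 : 1488 % NN = 1488 := by norm_num [NN]
    rw [h0, h1, h2, c2_cdk hτ, n0, n1, n2]
    ring
  rw [hT, hV] at s2
  exact s2.mono (c2_err hτ y E)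

/-- one column of a support -/
theorem kap_step {P : ℕ → ℂ} {ord : List ℕ} (hT : Touch P ord) {D : ℕ → ℕ} {r : ℕ} (hr : r ≤ 63)
    (hD : ∀ i < r, D i < NN) {A : Acc} {E : ℝ} {V : ℝ} (h : Sta P D r A E 0 V) {i q x : ℕ}
    (hi : i < r) (hq : q < r) :
    ∃ V', V ≤ V' ∧ Sta P D r
      (subp r (Nat.mul x 1048576) (D i) q (addp r (Nat.mul x 1048576) (D i) i A))
      (E + 3145728 * x) 0 V' := by
  have e0 : ((Nat.mul x 1048576 : ℕ) : ℝ) = x * 1048576 := by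
    have : (Nat.mul x 1048576) = x * 1048576 := Nat.mul_eq
    rw [this]; push_cast; ring
  have hc : |2 ^ 20 * (x : ℝ) - ((Nat.mul x 1048576 : ℕ) : ℝ)| ≤ 0 := by
    rw [e0]
    have : (2 : ℝ) ^ 20 * x - x * 1048576 = 0 := by ring
    rw [this, abs_zero]
  have s0 := h.addp hr (hD i hi) hi (c := Nat.mul x 1048576) (ρ := x) (δ := 0) hc
  have s1 := s0.subp hr (hD i hi) hq (c := Nat.mul x 1048576) (ρ := x) (δ := 0) hc
  refine ⟨V + x * ip (dir (D i)) (P (D i)) - x * ip (dir (D i)) (P (D q)), ?_, ?_⟩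
  · have h1 := hT.supp (D i) (hD i hi) (D q) (hD q hq)
    have h2 : (x : ℝ) * ip (dir (D i)) (P (D q)) ≤ x * ip (dir (D i)) (P (D i)) :=
      mul_le_mul_of_nonneg_left h1 (Nat.cast_nonneg x)
    linarith
  · have h3 : (0 : ℂ) + ((x : ℝ) : ℂ) * dir (D i) - ((x : ℝ) : ℂ) * dir (D i) = 0 := by ring
    rw [h3] at s1
    refine s1.mono ?_
    rw [e0]
    have h4 : (0 : ℝ) ≤ x := Nat.cast_nonneg x
    nlinarith

end Pool.Agent.Worm78
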