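import Pool.Agent.Worm78.LeafC1
import Pool.Agent.Worm78.LeafC2

/-!
# The loops over the columns
-/

set_option autoImplicit false

namespace Pool.Agent.Worm78

open Finset

/-- the loop over the inequalities -/
theorem typ_sound {P : ℕ → ℂ} {ord : List ℕ} {s : ℝ} {t0 F Ty : ℕ} (hB : Bad L0 P ord s t0)
    (hS : St P ord s F Ty) {r D : ℕ} (hr : r ≤ 63) {k : ℕ → Acc → ℕ → Bool} (m : ℕ) :
    ∀ (n : ℕ) (A : Acc) (sx : ℕ) (V : ℝ),
      Sta P (dget D) r A (11534336 * sx) 0 V → s * sx ≤ V → 4194304 * sx ≤ A.s →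
      typ Ty r D k m n A sx = true →
      ∃ (n' : ℕ) (A' : Acc) (sx' : ℕ) (V' : ℝ), Sta P (dget D) r A' (11534336 * sx') 0 V' ∧
        s * sx' ≤ V' ∧ 4194304 * sx' ≤ A'.s ∧ k n' A' sx' = true := by
  induction m with
  | zero =>
    intro n A sx V h1 h2 h3 h
    exact ⟨n, A, sx, V, h1, h2, h3, h⟩
  | succ m ih =>
    intro n A sx V h1 h2 h3 h
    obtain ⟨θ, hθ⟩ : ∃ θ, θ = low n 11 := ⟨_, rfl⟩
    obtain ⟨τ, hτ⟩ : ∃ τ, τ = low (Nat.shiftRight n 11) 2 := ⟨_, rfl⟩
    obtain ⟨x, hx⟩ : ∃ x, x = low (Nat.shiftRight n 13) 21 := ⟨_, rfl⟩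
    obtain ⟨p0, hp0⟩ : ∃ p, p = low (Nat.shiftRight n 34) 6 := ⟨_, rfl⟩
    obtain ⟨p1, hp1⟩ : ∃ p, p = low (Nat.shiftRight n 40) 6 := ⟨_, rfl⟩
    obtain ⟨p2, hp2⟩ : ∃ p, p = low (Nat.shiftRight n 46) 6 := ⟨_, rfl⟩
    have h' : cond (Nat.beq (dget D p0) (addm θ (cdk τ)))
        (cond (Nat.beq (dget D p1) (addm θ 730))
        (cond (Nat.beq (dget D p2) (addm θ 1488))
        (cond (Nat.blt p0 r) (cond (Nat.blt p1 r) (cond (Nat.blt p2 r)
        (cond (Nat.blt θ 1984)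
        (cond (Nat.ble τ 2)
        (cond (or (Nat.beq τ 2) (Nat.beq (Nat.land (Nat.shiftRight Ty (Nat.add (Nat.mul 2 θ) τ)) 1) 1))
          (typ Ty r D k m (Nat.shiftRight n 52)
            (addp r (Nat.mul x (lam2 τ)) (dget D p2) p2
              (addp r (Nat.mul x (lam1 τ)) (dget D p1) p1
                (addp r (Nat.mul x (lam0 τ)) (dget D p0) p0 A)))
            (Nat.add sx x)) false) false) false) false) false) false) false) false) false = true := by
      rw [hθ, hτ, hx, hp0, hp1, hp2]; exact h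
    clear h hθ hτ hx hp0 hp1 hp2
    simp only [cond_iff, Bool.or_eq_true, Nat.beq_eq, Nat.blt_eq, Nat.ble_eq] at h'
    obtain ⟨e0, e1, e2, q0, q1, q2, hθ, hτ, hor, h'⟩ := h'
    have hτ3 : τ < 3 := by omega
    have hPhi : s ≤ Phi L0 τ θ P := by
      rcases hor with rfl | hor
      · exact hB.free θ hθ
      · rcases Nat.lt_or_ge τ 2 with ht | ht
        · refine hS.typf θ hθ τ ht ?_
          have h6 : Nat.land (Nat.shiftRight Ty (Nat.add (Nat.mul 2 θ) τ)) 1 =
              (Ty >>> (2 * θ + τ)) % 2 := Nat.and_one_is_mod _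
          omega
        · obtain rfl : τ = 2 := by omega
          exact hB.free θ hθ
    have h4 := typ_step hr h1 (x := x) hτ3 q0 q1 q2 e0 e1 e2
    refine ih _ _ _ (V + x * Phi L0 τ θ P) ?_ ?_ ?_ h'
    · refine h4.mono (le_of_eq ?_)
      have : ((Nat.add sx x : ℕ) : ℝ) = sx + x := Nat.cast_add sx x
      rw [this]; ring
    · have : ((Nat.add sx x : ℕ) : ℝ) = sx + x := Nat.cast_add sx x
      rw [this, mul_add]
      have h5 : (x : ℝ) * s ≤ x * Phi L0 τ θ P :=
        mul_le_mul_of_nonneg_left hPhi (Nat.cast_nonneg x)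
      linarith
    · have h7 : 4194304 ≤ lam0 τ + lam1 τ + lam2 τ := by
        interval_cases τ <;> decide
      have h8 : (addp r (Nat.mul x (lam2 τ)) (dget D p2) p2
              (addp r (Nat.mul x (lam1 τ)) (dget D p1) p1
                (addp r (Nat.mul x (lam0 τ)) (dget D p0) p0 A))).s =
            A.s + x * lam0 τ + x * lam1 τ + x * lam2 τ := rfl
      rw [h8]
      have h9 : Nat.add sx x = sx + x := rfl
      rw [h9]
      nlinarith [Nat.mul_le_mul_left x h7]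

/-- the loop over the supports -/
theorem kap_sound {P : ℕ → ℂ} {ord : List ℕ} (hT : Touch P ord) {r D : ℕ} (hr : r ≤ 63)
    (hD : ∀ i < r, dget D i < NN) {k : ℕ → Acc → ℕ → Bool} {E : ℝ} {a : ℕ} (m : ℕ) :
    ∀ (n : ℕ) (A : Acc) (sk : ℕ) (V : ℝ),
      Sta P (dget D) r A (E + 3145728 * sk) 0 V → a + 2097152 * sk ≤ A.s →
      kap r D k m n A sk = true →
      ∃ (n' : ℕ) (A' : Acc) (sk' : ℕ) (V' : ℝ), Sta P (dget D) r A' (E + 3145728 * sk') 0 V' ∧
        V ≤ V' ∧ a + 2097152 * sk' ≤ A'.s ∧ k n' A' sk' = true := by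
  induction m with
  | zero =>
    intro n A sk V h1 h2 h
    exact ⟨n, A, sk, V, h1, le_refl _, h2, h⟩
  | succ m ih =>
    intro n A sk V h1 h2 h
    obtain ⟨i, hi⟩ : ∃ i, i = low n 6 := ⟨_, rfl⟩
    obtain ⟨q, hq⟩ : ∃ q, q = low (Nat.shiftRight n 6) 6 := ⟨_, rfl⟩
    obtain ⟨x, hx⟩ : ∃ x, x = low (Nat.shiftRight n 12) 23 := ⟨_, rfl⟩
    have h' : cond (Nat.blt i r) (cond (Nat.blt q r)
          (kap r D k m (Nat.shiftRight n 35)
            (subp r (Nat.mul x 1048576) (dget D i) q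
              (addp r (Nat.mul x 1048576) (dget D i) i A))
            (Nat.add sk x)) false) false = true := by
      rw [hi, hq, hx]; exact h
    clear h hi hq hx
    simp only [cond_iff, Nat.blt_eq] at h'
    obtain ⟨q1, q2, h'⟩ := h'
    obtain ⟨V1, hV1, h4⟩ := kap_step hT hr hD h1 (x := x) q1 q2
    have h5 : ((Nat.add sk x : ℕ) : ℝ) = sk + x := Nat.cast_add sk x
    obtain ⟨n', A', sk', V', g1, g2, g3, g4⟩ := ih _ _ _ V1 (by
      refine h4.mono (le_of_eq ?_)
      rw [h5]; ring) (by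
      have h8 : (subp r (Nat.mul x 1048576) (dget D i) q
              (addp r (Nat.mul x 1048576) (dget D i) i A)).s =
            A.s + x * 1048576 + x * 1048576 := rfl
      rw [h8]
      have h9 : Nat.add sk x = sk + x := rfl
      rw [h9]
      omega) h'
    exact ⟨n', A', sk', V', g1, hV1.trans g2, g3, g4⟩

end Pool.Agent.Worm78
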