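import Pool.Agent.Worm78.LeafC1
import Pool.Agent.Worm78.LeafB2
import Pool.Agent.Worm78.Core

/-!
# The end of the check
-/

set_option autoImplicit false

namespace Pool.Agent.Worm78

open Finset

private lemma finc_sum_Ioc {M : Type*} [AddCommGroup M] (w : ℕ → M) {i j : ℕ} (hij : i < j) :
    ∑ p ∈ Ioc i j, w p = ∑ p ∈ range (j + 1), w p - ∑ p ∈ range (i + 1), w p := by
  rw [eq_sub_iff_add_eq, add_comm]
  have h1 : Ioc i j = Ico (i + 1) (j + 1) := by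
    ext a
    simp only [mem_Ioc, mem_Ico]
    omega
  rw [h1, sum_range_add_sum_Ico _ (by omega)]

private lemma finc_norm {a b : ℤ} {c : ℕ} (h : a ^ 2 + b ^ 2 ≤ (c : ℤ) * c) :
    ‖((a : ℂ) + (b : ℂ) * Complex.I)‖ ≤ c := by
  have h1 : ((a : ℝ)) ^ 2 + (b : ℝ) ^ 2 ≤ (c : ℝ) ^ 2 := by
    have : (((a ^ 2 + b ^ 2 : ℤ)) : ℝ) ≤ ((c * c : ℤ) : ℝ) := by exact_mod_cast h
    push_cast at this
    nlinarith [this]
  have h2 : ‖((a : ℂ) + (b : ℂ) * Complex.I)‖ = √((a : ℝ) ^ 2 + (b : ℝ) ^ 2) := by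
    rw [Complex.norm_eq_sqrt_sq_add_sq]
    simp
  rw [h2]
  exact Real.sqrt_le_iff.2 ⟨Nat.cast_nonneg c, h1⟩

/-- the end of the check -/
theorem fin_sound {P : ℕ → ℂ} {ord : List ℕ} {s : ℝ} {t0 : ℕ} (hB : Bad L0 P ord s t0)
    {r D : ℕ} (hr : r ≤ 63) (hD : ∀ i j, i < j → j < r → dget D i < dget D j)
    (hD' : ∀ i < r, dget D i < NN) {G : ℕ} (hG : Fac ord r D G) {A : Acc} {e n : ℕ}
    (he : A.s ≤ 2 ^ 48 → e ≤ 2 ^ 58) {V : ℝ} (h : Sta P (dget D) r A e 0 V)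
    (hV : 2 ^ 18 * s ≤ V) (hf : fin r G A e n = true) : False := by
  unfold fin at hf
  simp only [cond_iff, Nat.ble_eq] at hf
  obtain ⟨hs, hf⟩ := hf
  have hs' : A.s ≤ 2 ^ 48 := le_trans hs (by norm_num)
  have he' := he hs'
  obtain ⟨W, wx, wy, cc, hR, hE, hT, hV'⟩ := h
  obtain ⟨x, y, hx, hy, hx', hy', hPX, hPY⟩ := hR.fin hr hs'
  rw [hPX, hPY] at hf
  obtain ⟨c, hc⟩ : ∃ c, c = Nat.sub 288230376151711744 e := ⟨_, rfl⟩
  rw [← hc] at hf
  have hc' : c + e = 2 ^ 58 := by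
    rw [hc]
    have : Nat.sub 288230376151711744 e = 288230376151711744 - e := rfl
    rw [this]
    norm_num at he' ⊢
    omega
  have hrows := rows_sound hr hx hy (B := Nat.mul c c) (by
    have h1 : c ≤ 2 ^ 58 := by omega
    calc Nat.mul c c = c * c := rfl
      _ ≤ 2 ^ 58 * 2 ^ 58 := Nat.mul_le_mul h1 h1
      _ = 2 ^ 116 := by norm_num) hf
  have hcore := leaf_le hB.touch r (dget D) hD hD' W hT (2 ^ 18) (by norm_num) (by
    intro i j hij hjr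
    rcases hrows i j hij hjr with h1 | h1
    · left
      have ex : ∑ p ∈ Ioc i j, wx p = (x j : ℤ) - x i := by
        rw [finc_sum_Ioc _ hij, hx' j hjr, hx' i (hij.trans hjr)]; ring
      have ey : ∑ p ∈ Ioc i j, wy p = (y j : ℤ) - y i := by
        rw [finc_sum_Ioc _ hij, hy' j hjr, hy' i (hij.trans hjr)]; ring
      have h2 : (∑ p ∈ Ioc i j, wx p) ^ 2 + (∑ p ∈ Ioc i j, wy p) ^ 2 ≤ (c : ℤ) * c := by
        rw [ex, ey]
        have h3 : ((Nat.mul c c : ℕ) : ℤ) = c * c := by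
          have : Nat.mul c c = c * c := rfl
          rw [this]; push_cast; ring
        rw [h3] at h1
        linarith [h1, sq_nonneg ((x j : ℤ) - x i), show ((x j : ℤ) - x i) ^ 2 =
          ((x i : ℤ) - x j) ^ 2 by ring, show ((y j : ℤ) - y i) ^ 2 = ((y i : ℤ) - y j) ^ 2 by ring]
      have h3 := finc_norm h2
      have h4 : (2 : ℂ) ^ 40 * ∑ m ∈ Ioc i j, W m =
          ∑ m ∈ Ioc i j, ((2 : ℂ) ^ 40 * W m - ((wx m : ℂ) + (wy m : ℂ) * Complex.I)) +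
          (((∑ p ∈ Ioc i j, wx p : ℤ) : ℂ) + ((∑ p ∈ Ioc i j, wy p : ℤ) : ℂ) * Complex.I) := by
        rw [sum_sub_distrib, sum_add_distrib, mul_sum, ← sum_mul]
        push_cast
        ring
      have h5 : ‖∑ m ∈ Ioc i j, ((2 : ℂ) ^ 40 * W m - ((wx m : ℂ) + (wy m : ℂ) * Complex.I))‖
          ≤ e := by
        refine (norm_sum_le _ _).trans (le_trans ?_ hE)
        refine sum_le_sum_of_subset_of_nonneg ?_ (fun _ _ _ => norm_nonneg _)
        intro a ha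
        rw [mem_Ioc] at ha
        rw [mem_range]
        omega
      have h6 : ‖(2 : ℂ) ^ 40 * ∑ m ∈ Ioc i j, W m‖ ≤ 2 ^ 58 := by
        rw [h4]
        refine (norm_add_le _ _).trans ?_
        have h7 : ((c : ℝ) + e) = 2 ^ 58 := by exact_mod_cast hc'
        linarith
      rw [norm_mul, norm_pow, Complex.norm_ofNat] at h6
      nlinarith [h6]
    · right
      obtain ⟨⟨f, hf1, hf2⟩, ⟨g, hg1, hg2⟩⟩ := h1
      refine ⟨⟨pa G f, pb G f, (hG f).1, (hG f).2.1, (hG f).2.2, hf1, hf2⟩,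
        ⟨pa G g, pb G g, (hG g).1, (hG g).2.1, (hG g).2.2, hg1, hg2⟩⟩)
  rw [hV'] at hcore
  have := hB.one_lt
  linarith

end Pool.Agent.Worm78
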