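import Pool.Agent.Worm78.LeafC3
import Pool.Agent.Worm78.LeafC4

/-!
# Soundness of the checker

The facts about the tree are in `SndT.lean`.
-/

set_option autoImplicit false

namespace Pool.Agent.Worm78

private lemma snd_err {sx y sk S : ℕ} (h1 : 4194304 * (sx + y) + 2097152 * sk ≤ S)
    (h2 : S ≤ 2 ^ 48) : err sx y sk ≤ 2 ^ 58 := by
  have h3 : err sx y sk = 11534336 * (sx + y) + 3145728 * sk := rfl
  rw [h3]
  norm_num at h2 ⊢
  omega

private lemma snd_err' (sx y sk : ℕ) :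
    ((err sx y sk : ℕ) : ℝ) = 11534336 * sx + 3145728 * sk + 11534336 * y := by
  have h3 : err sx y sk = 11534336 * (sx + y) + 3145728 * sk := rfl
  rw [h3]; push_cast; ring

private lemma snd_lam {t0 : ℕ} (ht0 : t0 < 2) (y : ℕ) :
    4194304 * y ≤ y * lam0 t0 + y * lam1 t0 + y * lam2 t0 := by
  have h7 : 4194304 ≤ lam0 t0 + lam1 t0 + lam2 t0 := by
    interval_cases t0 <;> decide
  calc 4194304 * y ≤ (lam0 t0 + lam1 t0 + lam2 t0) * y := Nat.mul_le_mul_right y h7
    _ = y * lam0 t0 + y * lam1 t0 + y * lam2 t0 := by ring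

private lemma snd_arith {sx y sk a b S : ℕ} (h : 4194304 * sx + 2097152 * sk ≤ S)
    (h1 : 4194304 * y ≤ a) (h2 : b = S + a) : 4194304 * (sx + y) + 2097152 * sk ≤ b := by
  omega

private lemma snd_val1 {s V sx y : ℝ} {V' : ℝ} (h : s * sx ≤ V) (h1 : V ≤ V') (h2 : sx = 262144 + y) :
    2 ^ 18 * s ≤ V' - y * s := by
  rw [h2] at h
  have : s * (262144 + y) = 2 ^ 18 * s + y * s := by ring
  linarith

private lemma snd_val2 {s V sx y : ℝ} {V' : ℝ} (h : s * sx ≤ V) (h1 : V ≤ V') (h2 : sx + y = 262144) :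
    2 ^ 18 * s ≤ V' + y * s := by
  have h3 : s * sx + y * s = 2 ^ 18 * s := by
    have : sx = 262144 - y := by linarith
    rw [this]; ring
  linarith

/-- the last part of the check -/
private def lastc (t0 r p0 p1 p2 : ℕ) (sx sk : ℕ) (A' : Acc) (n4 G : ℕ) : Bool :=
  cond (Nat.ble sx 262144)
    ((fun y => fin r G
      (addp r (Nat.mul y (lam2 t0)) 1488 p2 (addp r (Nat.mul y (lam1 t0)) 730 p1
        (addp r (Nat.mul y (lam0 t0)) (cdk t0) p0 A')))
      (err sx y sk) n4) (Nat.sub 262144 sx))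
    ((fun y => fin r G
      (subp r (Nat.mul y (lam2 t0)) 1488 p2 (subp r (Nat.mul y (lam1 t0)) 730 p1
        (subp r (Nat.mul y (lam0 t0)) (cdk t0) p0 A')))
      (err sx y sk) n4) (Nat.sub sx 262144))

private lemma lastc_le {t0 r p0 p1 p2 sx sk : ℕ} {A' : Acc} {n4 G : ℕ}
    (h : lastc t0 r p0 p1 p2 sx sk A' n4 G = true) (hsx : sx ≤ 262144) :
    ∃ y, sx + y = 262144 ∧ fin r G
      (addp r (Nat.mul y (lam2 t0)) 1488 p2 (addp r (Nat.mul y (lam1 t0)) 730 p1
        (addp r (Nat.mul y (lam0 t0)) (cdk t0) p0 A')))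
      (err sx y sk) n4 = true := by
  have hb : Nat.ble sx 262144 = true := Nat.ble_eq_true_of_le hsx
  refine ⟨262144 - sx, by omega, ?_⟩
  unfold lastc at h
  rw [hb, cond_true, Nat.sub_eq] at h
  exact h

private lemma lastc_gt {t0 r p0 p1 p2 sx sk : ℕ} {A' : Acc} {n4 G : ℕ}
    (h : lastc t0 r p0 p1 p2 sx sk A' n4 G = true) (hsx : 262144 < sx) :
    ∃ y, sx = 262144 + y ∧ fin r G
      (subp r (Nat.mul y (lam2 t0)) 1488 p2 (subp r (Nat.mul y (lam1 t0)) 730 p1
        (subp r (Nat.mul y (lam0 t0)) (cdk t0) p0 A')))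
      (err sx y sk) n4 = true := by
  have hb : Nat.ble sx 262144 = false := by
    rw [Bool.eq_false_iff]
    intro hh
    have := Nat.le_of_ble_eq_true hh
    omega
  refine ⟨sx - 262144, by omega, ?_⟩
  unfold lastc at h
  rw [hb, cond_false, Nat.sub_eq] at h
  exact h

private lemma leaf_unfold {t0 F Ty n : ℕ} (h : leaf t0 F Ty n = true) :
    ∃ r m mk mf p0 p1 p2 D n1 : ℕ, cond (Nat.ble r 63)
    (cond (inc D (Nat.sub r 1) 0)
    (cond (Nat.blt p0 r) (cond (Nat.blt p1 r) (cond (Nat.blt p2 r)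
    (cond (Nat.beq (dget D p0) (cdk t0)) (cond (Nat.beq (dget D p1) 730)
    (cond (Nat.beq (dget D p2) 1488)
      (typ Ty r D (fun n2 A sx =>
        kap r D (fun n3 A' sk =>
          fct F r D (fun n4 G => lastc t0 r p0 p1 p2 sx sk A' n4 G)
            mf n3 0)
          mk n2 A 0)
        m n1 ⟨0, 0, 0, 0⟩ 0)
      false) false) false) false) false) false) false) false = true :=
  ⟨low n 6, low (Nat.shiftRight n 6) 6, low (Nat.shiftRight n 12) 6,
    low (Nat.shiftRight n 18) 6, low (Nat.shiftRight n 24) 6, low (Nat.shiftRight n 30) 6,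
    low (Nat.shiftRight n 36) 6, low (Nat.shiftRight n 42) (Nat.mul 11 (low n 6)),
    Nat.shiftRight n (Nat.add 42 (Nat.mul 11 (low n 6))), h⟩

theorem leaf_sound {t0 F Ty n : ℕ} (ht0 : t0 < 2) (h : leaf t0 F Ty n = true) :
    NoBad t0 F Ty := by
  intro P ord s hB hS
  obtain ⟨r, m, mk, mf, p0, p1, p2, D, n1, h'⟩ := leaf_unfold h
  clear h
  simp only [cond_iff, Nat.beq_eq, Nat.blt_eq, Nat.ble_eq] at h'
  obtain ⟨hr, hinc, q0, q1, q2, d0, d1, d2, h'⟩ := h'
  obtain ⟨hD, hD'⟩ := inc_sound (by omega) hinc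
  obtain ⟨n2, A, sx, V, g1, g2, g3, h'⟩ := typ_sound hB hS hr m n1 ⟨0, 0, 0, 0⟩ 0 0
    ((Sta.zero P (dget D) r).mono (by simp)) (by simp) (by simp) h'
  obtain ⟨n3, A', sk, V', k1, k2, k3, h'⟩ := kap_sound hB.touch hr hD' (E := 11534336 * sx)
    (a := 4194304 * sx) mk n2 A 0 V (g1.mono (by simp)) (by simpa using g3) h'
  obtain ⟨n4, G, hG, h'⟩ := fct_sound hS hr mf n3 0 (Fac.zero ord (by omega) D) h'
  have hP0 : Phi L0 t0 0 P = s := hB.base
  have hs := hB.one_lt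
  rcases Nat.lt_or_ge 262144 sx with hsx | hsx
  · obtain ⟨y, hy', h'⟩ := lastc_gt h' hsx
    have hst := base_sub hr k1 (y := y) ht0 q0 q1 q2 d0 d1 d2
    refine fin_sound hB hr hD hD' hG (e := err sx y sk) ?_ (hst.mono ?_) ?_ h'
    · intro h2
      refine snd_err (snd_arith k3 (snd_lam ht0 y) ?_) h2
      have h8 : (subp r (Nat.mul y (lam2 t0)) 1488 p2 (subp r (Nat.mul y (lam1 t0)) 730 p1
            (subp r (Nat.mul y (lam0 t0)) (cdk t0) p0 A'))).s =
          A'.s + y * lam0 t0 + y * lam1 t0 + y * lam2 t0 := rfl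
      rw [h8, add_assoc, add_assoc, add_assoc]
    · rw [snd_err']
    · rw [hP0]
      exact snd_val1 g2 k2 (by exact_mod_cast hy')
  · obtain ⟨y, hy', h'⟩ := lastc_le h' hsx
    have hst := base_add hr k1 (y := y) ht0 q0 q1 q2 d0 d1 d2
    refine fin_sound hB hr hD hD' hG (e := err sx y sk) ?_ (hst.mono ?_) ?_ h'
    · intro h2
      refine snd_err (snd_arith k3 (snd_lam ht0 y) ?_) h2
      have h8 : (addp r (Nat.mul y (lam2 t0)) 1488 p2 (addp r (Nat.mul y (lam1 t0)) 730 p1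
            (addp r (Nat.mul y (lam0 t0)) (cdk t0) p0 A'))).s =
          A'.s + y * lam0 t0 + y * lam1 t0 + y * lam2 t0 := rfl
      rw [h8, add_assoc, add_assoc, add_assoc]
    · rw [snd_err']
    · rw [hP0]
      exact snd_val2 g2 k2 (by exact_mod_cast hy')

theorem NoBad.of_check {t0 : ℕ} (ht0 : t0 < 2) (t : Tr) {F Ty : ℕ}
    (h : check t0 t F Ty = true) : NoBad t0 F Ty :=
  NoBad.of_check_aux (fun _ _ _ hl => leaf_sound ht0 hl) t h

end Pool.Agent.Worm78
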