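import Pool.Agent.Worm78.TrigTab

/-!
# Approximate values of the directions

The table `tab` and the theorem `tab_close` are in `TrigTab.lean`.
-/

set_option autoImplicit false

namespace Pool.Agent.Worm78

theorem dir_add (j k : ℕ) : dir (j + k) = dir j * dir k := by
  rw [TT.dir_exp, TT.dir_exp j, TT.dir_exp k, pow_add]

theorem norm_dir (k : ℕ) : ‖dir k‖ = 1 := TT.norm_dir' k

theorem dir_mod (k : ℕ) : dir (k % NN) = dir k := by
  have h0 : dir NN = 1 := by
    unfold dir
    have e : (2 * Real.pi * (NN : ℕ) / NN : ℝ) = 2 * Real.pi := by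
      rw [mul_div_assoc, div_self (by norm_num [NN]), mul_one]
    rw [e]
    push_cast
    exact Complex.exp_two_pi_mul_I
  have h1 : ∀ m, dir (NN * m) = 1 := by
    intro m
    rw [TT.dir_exp, pow_mul, ← TT.dir_exp, h0, one_pow]
  conv_rhs => rw [← Nat.mod_add_div k NN, dir_add, h1, mul_one]

theorem dir_1488 : dir 1488 = -Complex.I := by
  unfold dir
  have e : (2 * Real.pi * (1488 : ℕ) / NN : ℝ) = Real.pi + Real.pi / 2 := by
    unfold NN
    push_cast
    ring
  rw [e]
  apply Complex.ext
  · rw [Complex.exp_ofReal_mul_I_re, Real.cos_add]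
    simp
  · rw [Complex.exp_ofReal_mul_I_im, Real.sin_add]
    simp

theorem dir_263 : |(dir 263).re - 0.6727313819| ≤ 1e-9 ∧ |(dir 263).im - 0.7398868074| ≤ 1e-9 :=
  TT.encl (by norm_num) TT.A_val.1 (by rw [abs_le]; constructor <;> norm_num)
    (by rw [abs_le]; constructor <;> norm_num)

theorem dir_386 : |(dir 386).re - 0.3413587389| ≤ 1e-9 ∧ |(dir 386).im - 0.9399330888| ≤ 1e-9 :=
  TT.encl (by norm_num) TT.A_val.2.1 (by rw [abs_le]; constructor <;> norm_num)
    (by rw [abs_le]; constructor <;> norm_num)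

theorem dir_291 : |(dir 291).re - 0.6045654803| ≤ 1e-9 ∧ |(dir 291).im - 0.7965554469| ≤ 1e-9 :=
  TT.encl (by norm_num) TT.A_val.2.2.1 (by rw [abs_le]; constructor <;> norm_num)
    (by rw [abs_le]; constructor <;> norm_num)

theorem dir_730 : |(dir 730).re + 0.6750711727| ≤ 1e-9 ∧ |(dir 730).im - 0.7377526088| ≤ 1e-9 := by
  have h := TT.encl (k := 730) (x := -0.6750711727) (y := 0.7377526088)
    (by norm_num) TT.A_val.2.2.2 (by rw [abs_le]; constructor <;> norm_num)
    (by rw [abs_le]; constructor <;> norm_num)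
  rwa [sub_neg_eq_add] at h

end Pool.Agent.Worm78
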