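import Pool.Agent.Worm78.Base

/-!
# Crossing chords: two opposite sides are at most as long as the diagonals
-/

set_option autoImplicit false

namespace Pool.Agent.Worm78

namespace UA

theorem sector_false {A C D φ x1 z1 x2 z2 : ℝ} (hA : A ≤ φ) (hC : φ ≤ C) (hCD : C < D)
    (hD : D < A + 2 * Real.pi)
    (h1 : 0 ≤ Real.cos D * x1 + Real.sin D * z1) (h2 : Real.cos A * x1 + Real.sin A * z1 ≤ 0)
    (h3 : 0 ≤ Real.cos D * x2 + Real.sin D * z2) (h4 : Real.cos C * x2 + Real.sin C * z2 ≤ 0)
    (g1 : 0 < Real.cos φ * x1 + Real.sin φ * z1)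
    (g2 : 0 < Real.cos φ * x2 + Real.sin φ * z2) : False := by
  have hpi := Real.pi_pos
  rcases lt_trichotomy (D - φ) Real.pi with h | h | h
  · have s1 : 0 < Real.sin (D - φ) := Real.sin_pos_of_pos_of_lt_pi (by linarith) h
    have s2 : 0 ≤ Real.sin (C - φ) :=
      Real.sin_nonneg_of_nonneg_of_le_pi (by linarith) (by linarith)
    have s3 : 0 < Real.sin (D - C) := Real.sin_pos_of_pos_of_lt_pi (by linarith) (by linarith)
    have e : Real.sin (D - φ) * (Real.cos C * x2 + Real.sin C * z2)
        = Real.sin (D - C) * (Real.cos φ * x2 + Real.sin φ * z2)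
          + Real.sin (C - φ) * (Real.cos D * x2 + Real.sin D * z2) := by
      rw [Real.sin_sub, Real.sin_sub, Real.sin_sub]
      ring
    have e1 : 0 < Real.sin (D - C) * (Real.cos φ * x2 + Real.sin φ * z2) := mul_pos s3 g2
    have e2 : 0 ≤ Real.sin (C - φ) * (Real.cos D * x2 + Real.sin D * z2) := mul_nonneg s2 h3
    have e3 : Real.sin (D - φ) * (Real.cos C * x2 + Real.sin C * z2) ≤ 0 :=
      mul_nonpos_of_nonneg_of_nonpos s1.le h4
    linarith
  · have hφ : φ = D - Real.pi := by linarith
    rw [hφ, Real.cos_sub_pi, Real.sin_sub_pi] at g1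
    linarith
  · have p1 : Real.sin (φ - D) = Real.sin (φ - D + 2 * Real.pi) := (Real.sin_add_two_pi _).symm
    have p2 : Real.sin (A - D) = Real.sin (A - D + 2 * Real.pi) := (Real.sin_add_two_pi _).symm
    have s1 : 0 < Real.sin (φ - D) := by
      rw [p1]; exact Real.sin_pos_of_pos_of_lt_pi (by linarith) (by linarith)
    have s2 : 0 < Real.sin (A - D) := by
      rw [p2]; exact Real.sin_pos_of_pos_of_lt_pi (by linarith) (by linarith)
    have s3 : 0 ≤ Real.sin (φ - A) :=
      Real.sin_nonneg_of_nonneg_of_le_pi (by linarith) (by linarith)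
    have e : Real.sin (φ - D) * (Real.cos A * x1 + Real.sin A * z1)
        = Real.sin (φ - A) * (Real.cos D * x1 + Real.sin D * z1)
          + Real.sin (A - D) * (Real.cos φ * x1 + Real.sin φ * z1) := by
      rw [Real.sin_sub, Real.sin_sub, Real.sin_sub]
      ring
    have e1 : 0 < Real.sin (A - D) * (Real.cos φ * x1 + Real.sin φ * z1) := mul_pos s2 g1
    have e2 : 0 ≤ Real.sin (φ - A) * (Real.cos D * x1 + Real.sin D * z1) := mul_nonneg s3 h1
    have e3 : Real.sin (φ - D) * (Real.cos A * x1 + Real.sin A * z1) ≤ 0 :=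
      mul_nonpos_of_nonneg_of_nonpos s1.le h2
    linarith

/-- the angle of the `k`-th direction -/
noncomputable def ang (k : ℕ) : ℝ := 2 * Real.pi * k / NN

theorem dir_re (k : ℕ) : (dir k).re = Real.cos (ang k) := by
  unfold dir ang
  rw [Complex.exp_ofReal_mul_I_re]

theorem dir_im (k : ℕ) : (dir k).im = Real.sin (ang k) := by
  unfold dir ang
  rw [Complex.exp_ofReal_mul_I_im]

theorem ang_lt {i j : ℕ} (h : i < j) : ang i < ang j := by
  unfold ang NN
  have : (i : ℝ) < j := by exact_mod_cast h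
  have hpi := Real.pi_pos
  apply div_lt_div_of_pos_right _ (by norm_num)
  exact mul_lt_mul_of_pos_left this (by positivity)

theorem ang_lt_add {i j : ℕ} (h : j < NN) : ang j < ang i + 2 * Real.pi := by
  have hpi := Real.pi_pos
  have h0 : 0 ≤ ang i := by unfold ang; positivity
  have h1 : ang j < 2 * Real.pi := by
    unfold ang
    have hj : (j : ℝ) < NN := by exact_mod_cast h
    have hN : (0 : ℝ) < NN := by norm_num [NN]
    rw [div_lt_iff₀ hN]
    exact mul_lt_mul_of_pos_left hj (by positivity)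
  linarith

theorem exists_angle {x y : ℝ} (h : ¬ (x = 0 ∧ y = 0)) (α : ℝ) :
    ∃ r φ : ℝ, 0 < r ∧ α ≤ φ ∧ φ < α + 2 * Real.pi ∧ x = r * Real.cos φ ∧ y = r * Real.sin φ := by
  set z : ℂ := ⟨x, y⟩ with hz
  have hz0 : z ≠ 0 := by
    intro h0
    apply h
    have h1 := congrArg Complex.re h0
    have h2 := congrArg Complex.im h0
    simpa [hz] using ⟨h1, h2⟩
  refine ⟨‖z‖, toIcoMod Real.two_pi_pos α z.arg, norm_pos_iff.mpr hz0,
    left_le_toIcoMod _ _ _, toIcoMod_lt_right _ _ _, ?_, ?_⟩
  · have hc : Real.cos (toIcoMod Real.two_pi_pos α z.arg) = Real.cos z.arg := by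
      unfold toIcoMod
      rw [zsmul_eq_mul, Real.cos_sub_int_mul_two_pi]
    rw [hc, Complex.norm_mul_cos_arg]
  · have hc : Real.sin (toIcoMod Real.two_pi_pos α z.arg) = Real.sin z.arg := by
      unfold toIcoMod
      rw [zsmul_eq_mul, Real.sin_sub_int_mul_two_pi]
    rw [hc, Complex.norm_mul_sin_arg]

theorem ip_sub (u z w : ℂ) : ip u (z - w) = ip u z - ip u w := by
  unfold ip; simp; ring

theorem segments_meet (P : ℕ → ℂ)
    (hs : ∀ i < NN, ∀ j < NN, ip (dir i) (P j) ≤ ip (dir i) (P i)) {a b c d : ℕ}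
    (hab : a < b) (hbc : b < c) (hcd : c < d) (hd : d < NN) :
    ∃ X : ℂ, X ∈ segment ℝ (P a) (P c) ∧ X ∈ segment ℝ (P b) (P d) := by
  have hc : c < NN := hcd.trans hd
  have hb : b < NN := hbc.trans hc
  have ha : a < NN := hab.trans hb
  by_contra hcon
  have hdis : Disjoint (segment ℝ (P a) (P c)) (segment ℝ (P b) (P d)) := by
    rw [Set.disjoint_left]
    intro X h1 h2
    exact hcon ⟨X, h1, h2⟩
  have hcomp : ∀ u v : ℂ, IsCompact (segment ℝ u v) := by
    intro u v
    rw [segment_eq_image_lineMap]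
    exact isCompact_Icc.image (AffineMap.lineMap_continuous)
  obtain ⟨f, u, v, h1, huv, h2⟩ := geometric_hahn_banach_compact_closed
    (convex_segment (P a) (P c)) (hcomp _ _) (convex_segment (P b) (P d))
    (hcomp _ _).isClosed hdis
  have ha1 := h1 _ (left_mem_segment ℝ (P a) (P c))
  have hc1 := h1 _ (right_mem_segment ℝ (P a) (P c))
  have hb1 := h2 _ (left_mem_segment ℝ (P b) (P d))
  have hd1 := h2 _ (right_mem_segment ℝ (P b) (P d))
  have hf : ∀ z : ℂ, f z = z.re * f 1 + z.im * f Complex.I := by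
    intro z
    conv_lhs => rw [← Complex.re_add_im z]
    have e1 : ((z.re : ℂ)) = (z.re : ℝ) • (1 : ℂ) := by simp
    have e2 : ((z.im : ℂ) * Complex.I) = (z.im : ℝ) • Complex.I := by simp
    rw [map_add, e1, e2, map_smul, map_smul, smul_eq_mul, smul_eq_mul]
  have hn : ¬ (f 1 = 0 ∧ f Complex.I = 0) := by
    rintro ⟨e1, e2⟩
    rw [hf, e1, e2] at ha1 hb1
    linarith
  obtain ⟨r, φ, hr, hφ1, hφ2, ex, ey⟩ := exists_angle hn (ang a)
  have hpos : ∀ z w : ℂ, f w < f z →
      0 < Real.cos φ * (z - w).re + Real.sin φ * (z - w).im := by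
    intro z w h
    rw [hf w, hf z, ex, ey] at h
    have e : r * (Real.cos φ * (z - w).re + Real.sin φ * (z - w).im) =
        (z.re * (r * Real.cos φ) + z.im * (r * Real.sin φ)) -
          (w.re * (r * Real.cos φ) + w.im * (r * Real.sin φ)) := by
      simp only [Complex.sub_re, Complex.sub_im]
      ring
    have : 0 < r * (Real.cos φ * (z - w).re + Real.sin φ * (z - w).im) := by
      rw [e]
      linarith
    exact (mul_pos_iff_of_pos_left hr).mp this
  have key : ∀ i j : ℕ, i < NN → j < NN →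
      0 ≤ Real.cos (ang i) * (P i - P j).re + Real.sin (ang i) * (P i - P j).im := by
    intro i j hi hj
    have := hs i hi j hj
    unfold ip at this
    rw [dir_re, dir_im] at this
    simp only [Complex.sub_re, Complex.sub_im]
    linarith
  have key' : ∀ i j : ℕ, i < NN → j < NN →
      Real.cos (ang j) * (P i - P j).re + Real.sin (ang j) * (P i - P j).im ≤ 0 := by
    intro i j hi hj
    have := key j i hj hi
    simp only [Complex.sub_re, Complex.sub_im] at this ⊢
    linarith
  rcases le_total φ (ang c) with h | h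
  · exact sector_false hφ1 h (ang_lt hcd) (ang_lt_add hd)
      (key d a hd ha) (key' d a hd ha) (key d c hd hc) (key' d c hd hc)
      (hpos _ _ (by linarith)) (hpos _ _ (by linarith))
  · have c1 : Real.cos (ang a + 2 * Real.pi) = Real.cos (ang a) := Real.cos_add_two_pi _
    have c2 : Real.sin (ang a + 2 * Real.pi) = Real.sin (ang a) := Real.sin_add_two_pi _
    have c3 : Real.cos (ang b + 2 * Real.pi) = Real.cos (ang b) := Real.cos_add_two_pi _
    have c4 : Real.sin (ang b + 2 * Real.pi) = Real.sin (ang b) := Real.sin_add_two_pi _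
    have k1 := ang_lt hab
    have k2 := ang_lt hbc
    exact sector_false (A := ang c) (C := ang a + 2 * Real.pi) (D := ang b + 2 * Real.pi)
      h hφ2.le (by linarith) (by linarith)
      (by rw [c3, c4]; exact key b c hb hc) (key' b c hb hc)
      (by rw [c3, c4]; exact key b a hb ha) (by rw [c1, c2]; exact key' b a hb ha)
      (hpos _ _ (by linarith)) (hpos _ _ (by linarith))

end UA

/-- If the points `P a, P b, P c, P d` are extreme in four directions which are in this order
around the circle, then the diagonals are together at least as long as two opposite sides. -/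
theorem UA.cross_le (P : ℕ → ℂ)
    (hs : ∀ i < NN, ∀ j < NN, ip (dir i) (P j) ≤ ip (dir i) (P i)) {a b c d : ℕ}
    (hab : a < b) (hbc : b < c) (hcd : c < d) (hd : d < NN) :
    ‖P a - P b‖ + ‖P c - P d‖ ≤ ‖P a - P c‖ + ‖P b - P d‖ ∧
    ‖P b - P c‖ + ‖P a - P d‖ ≤ ‖P a - P c‖ + ‖P b - P d‖ := by
  obtain ⟨X, h1, h2⟩ := UA.segments_meet P hs hab hbc hcd hd
  have e1 := dist_add_dist_of_mem_segment h1
  have e2 := dist_add_dist_of_mem_segment h2
  simp only [← dist_eq_norm]
  have t1 := dist_triangle (P a) X (P b)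
  have t2 := dist_triangle (P c) X (P d)
  have t3 := dist_triangle (P b) X (P c)
  have t4 := dist_triangle (P a) X (P d)
  rw [dist_comm X (P b)] at t1
  rw [dist_comm (P c) X] at t2
  constructor <;> linarith

end Pool.Agent.Worm78
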